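import Mathlib

set_option autoImplicit false

namespace Pool.Agent.CSPHier

/-- The intersection of the kernels of all homomorphisms to the symmetric group on `m` letters. -/
def L (G : Type) [Group G] (m : ℕ) : Subgroup G := ⨅ f : G →* Equiv.Perm (Fin m), f.ker

section basic

variable {G H : Type} [Group G] [Group H]

theorem mem_L {m : ℕ} {x : G} : x ∈ L G m ↔ ∀ f : G →* Equiv.Perm (Fin m), f x = 1 := by
  simp [L, Subgroup.mem_iInf, MonoidHom.mem_ker]

theorem L_map (f : G →* H) {m : ℕ} {x : G} (hx : x ∈ L G m) : f x ∈ L H m := by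
  rw [mem_L] at *
  intro k
  exact hx (k.comp f)

instance L_char (m : ℕ) : (L G m).Characteristic := by
  rw [Subgroup.characteristic_iff_le_comap]
  intro φ x hx
  exact L_map φ.toMonoidHom hx

instance L_normal (m : ℕ) : (L G m).Normal := Subgroup.normal_of_characteristic _

theorem L_apply_iff (φ : G ≃* H) {m : ℕ} {x : G} : φ x ∈ L H m ↔ x ∈ L G m := by
  constructor
  · intro h
    have := L_map φ.symm.toMonoidHom h
    simpa using this
  · intro h
    exact L_map φ.toMonoidHom h

theorem L_anti {m m' : ℕ} (h : m ≤ m') : L G m' ≤ L G m := by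
  intro x hx
  rw [mem_L] at *
  intro f
  let e : Fin m ≃ {i : Fin m' // i.val < m} :=
    { toFun := fun i => ⟨⟨i.val, lt_of_lt_of_le i.2 h⟩, i.2⟩
      invFun := fun i => ⟨i.1.val, i.2⟩
      left_inv := fun i => rfl
      right_inv := fun i => rfl }
  let E : Equiv.Perm (Fin m) →* Equiv.Perm (Fin m') := Equiv.Perm.extendDomainHom e
  have h1 := hx (E.comp f)
  have h2 : Function.Injective E := Equiv.Perm.extendDomainHom_injective e
  exact h2 (by rw [map_one]; exact h1)

/-- Any homomorphism to the symmetric group of a finite type kills a level. -/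
theorem L_le_ker_perm (Ω : Type) [Finite Ω] :
    ∃ m : ℕ, ∀ {G : Type} [Group G] (f : G →* Equiv.Perm Ω), L G m ≤ f.ker := by
  obtain ⟨m, ⟨e⟩⟩ := Finite.exists_equiv_fin Ω
  refine ⟨m, fun f x hx => ?_⟩
  rw [MonoidHom.mem_ker]
  have h1 := mem_L.mp hx (e.permCongrHom.toMonoidHom.comp f)
  have h2 : e.permCongrHom (f x) = 1 := h1
  exact (map_eq_one_iff _ e.permCongrHom.injective).mp h2

/-- Any homomorphism to a finite group kills a level. -/
theorem L_le_ker (S : Type) [Group S] [Finite S] :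
    ∃ m : ℕ, ∀ {G : Type} [Group G] (f : G →* S), L G m ≤ f.ker := by
  obtain ⟨m, hm⟩ := L_le_ker_perm S
  refine ⟨m, fun f x hx => ?_⟩
  have h1 := hm ((MulAction.toPermHom S S).comp f) hx
  rw [MonoidHom.mem_ker, MonoidHom.comp_apply] at h1
  rw [MonoidHom.mem_ker]
  have h2 := congrArg (fun e : Equiv.Perm S => e 1) h1
  simpa using h2

/-- Any subgroup of finite index contains a level. -/
theorem exists_L_le (M : Subgroup G) (hM : M.FiniteIndex) : ∃ m : ℕ, L G m ≤ M := by
  have := hM
  obtain ⟨m, hm⟩ := L_le_ker (G ⧸ M.normalCore)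
  refine ⟨m, fun x hx => M.normalCore_le ?_⟩
  have h1 := hm (QuotientGroup.mk' M.normalCore) hx
  rwa [QuotientGroup.ker_mk'] at h1

end basic

section finite

variable {X : Type} [Finite X]

instance finite_hom (S : Type) [Group S] [Finite S] : Finite (FreeGroup X →* S) :=
  Finite.of_equiv _ (FreeGroup.lift (α := X) (β := S))

instance L_finiteIndex (m : ℕ) : (L (FreeGroup X) m).FiniteIndex :=
  Subgroup.finiteIndex_iInf fun _ => inferInstance

end finite

theorem comap_finiteIndex {G H : Type*} [Group G] [Group H] (f : G →* H) (K : Subgroup H)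
    (hK : K.FiniteIndex) : (K.comap f).FiniteIndex := by
  have := hK
  refine ⟨?_⟩
  rw [Subgroup.index_comap]
  exact (inferInstance : (K.subgroupOf f.range).FiniteIndex).index_ne_zero

section congruence

variable {G : Type} [Group G]

/-- The action of automorphisms on the set of homomorphisms to a fixed group. -/
def homAct (G S : Type) [Group G] [Group S] : MulAut G →* Equiv.Perm (G →* S) where
  toFun φ :=
    { toFun := fun f => f.comp (φ⁻¹ : MulAut G).toMonoidHom
      invFun := fun f => f.comp φ.toMonoidHom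
      left_inv := by intro f; ext x; simp [MulAut.inv_def]
      right_inv := by intro f; ext x; simp [MulAut.inv_def] }
  map_one' := by ext f x; rfl
  map_mul' := by
    intro φ ψ
    ext f x
    simp [MulAut.inv_def]

/-- The automorphisms acting trivially modulo the level `m`. -/
def cong (G : Type) [Group G] (m : ℕ) : Subgroup (MulAut G) := (homAct G (Equiv.Perm (Fin m))).ker

theorem mem_cong {m : ℕ} {φ : MulAut G} : φ ∈ cong G m ↔ ∀ x : G, φ x * x⁻¹ ∈ L G m := by
  rw [cong, MonoidHom.mem_ker]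
  constructor
  · intro h x
    rw [mem_L]
    intro f
    have h1 := congrArg (fun e : Equiv.Perm (G →* Equiv.Perm (Fin m)) => e f) h
    have h2 : f.comp (φ⁻¹ : MulAut G).toMonoidHom = f := h1
    have h3 := congrArg (fun k : G →* Equiv.Perm (Fin m) => k (φ x)) h2
    have h4 : f ((φ⁻¹ : MulAut G) (φ x)) = f (φ x) := h3
    rw [MulAut.inv_apply_self] at h4
    rw [map_mul, map_inv, ← h4, mul_inv_cancel]
  · intro h
    ext1 f
    have h2 : f.comp (φ⁻¹ : MulAut G).toMonoidHom = f := by
      ext1 x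
      change f ((φ⁻¹ : MulAut G) x) = f x
      have h1 := mem_L.mp (h ((φ⁻¹ : MulAut G) x)) f
      rw [MulAut.apply_inv_self, map_mul, map_inv] at h1
      exact (mul_inv_eq_one.mp h1).symm
    exact h2

theorem cong_anti {m m' : ℕ} (h : m ≤ m') : cong G m' ≤ cong G m := by
  intro φ hφ
  rw [mem_cong] at *
  exact fun x => L_anti h (hφ x)

instance cong_normal (m : ℕ) : (cong G m).Normal := by
  unfold cong
  infer_instance

instance cong_finiteIndex {X : Type} [Finite X] (m : ℕ) : (cong (FreeGroup X) m).FiniteIndex := by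
  unfold cong
  infer_instance

theorem conj_mem_cong {m : ℕ} {g : G} (hg : g ∈ L G m) : MulAut.conj g ∈ cong G m := by
  rw [mem_cong]
  intro x
  rw [MulAut.conj_apply]
  have h1 : x * g⁻¹ * x⁻¹ ∈ L G m := (L_normal m).conj_mem _ (inv_mem hg) x
  have h2 : g * x * g⁻¹ * x⁻¹ = g * (x * g⁻¹ * x⁻¹) := by group
  rw [h2]
  exact mul_mem hg h1

end congruence

/-! ### Free factors -/

section factor

variable {Z : Type}

/-- The subgroup generated by a part of the basis. -/
def fac (S : Set Z) : Subgroup (FreeGroup Z) := Subgroup.closure (FreeGroup.of '' S)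

theorem of_mem_fac {S : Set Z} {z : Z} (hz : z ∈ S) : FreeGroup.of z ∈ fac S :=
  Subgroup.subset_closure ⟨z, hz, rfl⟩

open Classical in
/-- The retraction onto a free factor. -/
noncomputable def retr (S : Set Z) : FreeGroup Z →* FreeGroup Z :=
  FreeGroup.lift fun z => if z ∈ S then FreeGroup.of z else 1

theorem retr_of_mem {S : Set Z} {z : Z} (hz : z ∈ S) :
    retr S (FreeGroup.of z) = FreeGroup.of z := by
  simp [retr, hz]

theorem retr_of_notMem {S : Set Z} {z : Z} (hz : z ∉ S) : retr S (FreeGroup.of z) = 1 := by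
  simp [retr, hz]

theorem retr_fac {S : Set Z} {w : FreeGroup Z} (hw : w ∈ fac S) : retr S w = w := by
  have h : Set.EqOn (retr S) (MonoidHom.id (FreeGroup Z)) (fac S : Set (FreeGroup Z)) := by
    refine MonoidHom.eqOn_closure ?_
    rintro _ ⟨z, hz, rfl⟩
    exact retr_of_mem hz
  exact h hw

theorem retr_fac_disjoint {S T : Set Z} (h : Disjoint S T) {w : FreeGroup Z} (hw : w ∈ fac T) :
    retr S w = 1 := by
  have h : Set.EqOn (retr S) (1 : FreeGroup Z →* FreeGroup Z) (fac T : Set (FreeGroup Z)) := by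
    refine MonoidHom.eqOn_closure ?_
    rintro _ ⟨z, hz, rfl⟩
    exact retr_of_notMem fun h1 => (Set.disjoint_left.mp h) h1 hz
  exact h hw

/-- Two disjoint free factors meet in the level modulo the level. -/
theorem mem_L_of_disjoint {S T : Set Z} (h : Disjoint S T) {m : ℕ} {a b : FreeGroup Z}
    (ha : a ∈ fac S) (hb : b ∈ fac T) (hab : a⁻¹ * b ∈ L (FreeGroup Z) m) :
    a ∈ L (FreeGroup Z) m := by
  have h1 := L_map (retr S) hab
  rw [map_mul, map_inv, retr_fac ha, retr_fac_disjoint h hb, mul_one] at h1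
  exact (inv_mem_iff (x := a)).mp h1

/-- An element congruent to elements of two disjoint free factors lies in the level. -/
theorem mem_L_of_mem_sup {S T : Set Z} (h : Disjoint S T) {m : ℕ} {g : FreeGroup Z}
    (hS : g ∈ fac S ⊔ L (FreeGroup Z) m) (hT : g ∈ fac T ⊔ L (FreeGroup Z) m) :
    g ∈ L (FreeGroup Z) m := by
  rw [Subgroup.mem_sup_of_normal_right] at hS hT
  obtain ⟨a, ha, k, hk, rfl⟩ := hS
  obtain ⟨b, hb, l, hl, hab⟩ := hT
  have h1 : a⁻¹ * b ∈ L (FreeGroup Z) m := by
    have h2 : a⁻¹ * b = k * l⁻¹ := by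
      have : b = a * k * l⁻¹ := by rw [← hab]; group
      rw [this]; group
    rw [h2]
    exact mul_mem hk (inv_mem hl)
  exact mul_mem (mem_L_of_disjoint h ha hb h1) hk

/-! ### Malnormality of free factors modulo levels -/

section malnormal

variable (M : Subgroup (FreeGroup Z)) (S : Set Z) (hS : fac S ≤ M) (z0 : Z)

include hS in
theorem smul_base {z : Z} (hz : z ∈ S) (p : FreeGroup Z ⧸ M) :
    (FreeGroup.of z) • p = ((1 : FreeGroup Z) : FreeGroup Z ⧸ M) ↔
      p = ((1 : FreeGroup Z) : FreeGroup Z ⧸ M) := by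
  have h1 : (FreeGroup.of z) • ((1 : FreeGroup Z) : FreeGroup Z ⧸ M) =
      ((1 : FreeGroup Z) : FreeGroup Z ⧸ M) := by
    change ((FreeGroup.of z * 1 : FreeGroup Z) : FreeGroup Z ⧸ M) = _
    rw [QuotientGroup.eq]
    simpa using inv_mem (hS (of_mem_fac hz))
  constructor
  · intro h
    rw [← h1] at h
    exact smul_left_cancel _ h
  · rintro rfl
    exact h1

open Classical in
/-- The permutations attached to the basis elements. -/
noncomputable def malSig (hS : fac S ≤ M) (z : Z) : Equiv.Perm ((FreeGroup Z ⧸ M) × ZMod 2) where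
  toFun a := (FreeGroup.of z • a.1,
    a.2 + if z ∈ S ∧ z = z0 ∧ a.1 ≠ ((1 : FreeGroup Z) : FreeGroup Z ⧸ M) then 1 else 0)
  invFun a := ((FreeGroup.of z)⁻¹ • a.1,
    a.2 - if z ∈ S ∧ z = z0 ∧ a.1 ≠ ((1 : FreeGroup Z) : FreeGroup Z ⧸ M) then 1 else 0)
  left_inv := by
    intro a
    refine Prod.ext (by simp) ?_
    by_cases hz : z ∈ S
    · have := smul_base M S hS hz a.1
      simp [hz, this]
    · simp [hz]
  right_inv := by
    intro a
    refine Prod.ext (by simp) ?_
    by_cases hz : z ∈ S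
    · have := smul_base M S hS hz ((FreeGroup.of z)⁻¹ • a.1)
      rw [smul_inv_smul] at this
      simp [hz, this]
    · simp [hz]

/-- The permutation representation. -/
noncomputable def mal (hS : fac S ≤ M) : FreeGroup Z →* Equiv.Perm ((FreeGroup Z ⧸ M) × ZMod 2) :=
  FreeGroup.lift (malSig M S z0 hS)

theorem mal_fst (w : FreeGroup Z) (a : (FreeGroup Z ⧸ M) × ZMod 2) :
    (mal M S z0 hS w a).1 = w • a.1 := by
  induction w using FreeGroup.induction_on generalizing a with
  | C1 => simp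
  | of j => simp [mal, malSig]
  | inv_of j _ => simp [mal, malSig, Equiv.Perm.inv_def]
  | mul x y hx hy => rw [map_mul, Equiv.Perm.mul_apply, hx, hy, mul_smul]

open Classical in
/-- The exponent sum of `z0` modulo two. -/
noncomputable def deg2 (z0 : Z) : FreeGroup Z →* Multiplicative (ZMod 2) :=
  FreeGroup.lift fun z => if z = z0 then Multiplicative.ofAdd 1 else 1

theorem deg2_self (z0 : Z) : deg2 z0 (FreeGroup.of z0) = Multiplicative.ofAdd 1 := by
  simp [deg2]

theorem mal_base {w : FreeGroup Z} (hw : w ∈ fac S) (c : ZMod 2) :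
    mal M S z0 hS w (((1 : FreeGroup Z) : FreeGroup Z ⧸ M), c) =
      (((1 : FreeGroup Z) : FreeGroup Z ⧸ M), c) := by
  induction hw using Subgroup.closure_induction generalizing c with
  | mem x hx =>
    obtain ⟨z, hz, rfl⟩ := hx
    refine Prod.ext ?_ ?_
    · rw [mal_fst]
      exact (smul_base M S hS hz _).mpr rfl
    · simp [mal, malSig]
  | one => simp
  | mul x y _ _ hx hy => rw [map_mul, Equiv.Perm.mul_apply, hy, hx]
  | inv x _ hx => rw [map_inv, Equiv.Perm.inv_eq_iff_eq, hx]

theorem mal_other {w : FreeGroup Z} (hw : w ∈ fac S) (a : (FreeGroup Z ⧸ M) × ZMod 2)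
    (ha : a.1 ≠ ((1 : FreeGroup Z) : FreeGroup Z ⧸ M)) :
    (mal M S z0 hS w a).2 = a.2 + Multiplicative.toAdd (deg2 z0 w) := by
  classical
  have key : ∀ w ∈ fac S, ∀ a : (FreeGroup Z ⧸ M) × ZMod 2,
      a.1 ≠ ((1 : FreeGroup Z) : FreeGroup Z ⧸ M) →
      (mal M S z0 hS w a).1 ≠ ((1 : FreeGroup Z) : FreeGroup Z ⧸ M) ∧
      (mal M S z0 hS w a).2 = a.2 + Multiplicative.toAdd (deg2 z0 w) := by
    intro w hw
    induction hw using Subgroup.closure_induction with
    | mem x hx =>
      obtain ⟨z, hz, rfl⟩ := hx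
      intro a ha
      refine ⟨?_, ?_⟩
      · rw [mal_fst]
        exact fun h => ha ((smul_base M S hS hz _).mp h)
      · by_cases hz0 : z = z0
        · subst hz0
          simp [mal, malSig, hz, ha, deg2]
        · simp [mal, malSig, hz0, deg2]
    | one => intro a ha; simp [ha]
    | mul x y _ _ hx hy =>
      intro a ha
      rw [map_mul, Equiv.Perm.mul_apply]
      obtain ⟨h1, h2⟩ := hy a ha
      obtain ⟨h3, h4⟩ := hx _ h1
      refine ⟨h3, ?_⟩
      rw [h4, h2, map_mul, toAdd_mul]
      ring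
    | inv x _ hx =>
      intro a ha
      set b := mal M S z0 hS x⁻¹ a with hb
      have hab : mal M S z0 hS x b = a := by
        rw [hb, ← Equiv.Perm.mul_apply, ← map_mul, mul_inv_cancel, map_one, Equiv.Perm.one_apply]
      have hb1 : b.1 ≠ ((1 : FreeGroup Z) : FreeGroup Z ⧸ M) := by
        intro h
        have h1 : x • ((1 : FreeGroup Z) : FreeGroup Z ⧸ M) = a.1 := by
          rw [← hab, mal_fst, h]
        apply ha
        rw [← h1]
        have : b = (((1 : FreeGroup Z) : FreeGroup Z ⧸ M), b.2) := Prod.ext h rfl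
        have h2 : mal M S z0 hS x b = b := by
          rw [this]
          exact mal_base M S hS z0 (by assumption) b.2
        have h3 := congrArg Prod.fst h2
        rw [mal_fst, h] at h3
        exact h3
      obtain ⟨h1, h2⟩ := hx b hb1
      refine ⟨hb1, ?_⟩
      rw [hab] at h2
      rw [h2, map_inv, toAdd_inv]
      ring
  exact (key w hw a ha).2

end malnormal

/-- **Malnormality.** Let `M` be a subgroup of finite index containing the free factor `A`. Modulo
a deep level, `g z0 g⁻¹ ∈ A` implies `g ∈ M`. -/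
theorem malnormal [Finite Z] (M : Subgroup (FreeGroup Z)) (hM : M.FiniteIndex) (S : Set Z)
    (hS : fac S ≤ M) (z0 : Z) (hz0 : z0 ∈ S) :
    ∃ m : ℕ, ∀ g : FreeGroup Z, ∀ a ∈ fac S,
      g * FreeGroup.of z0 * g⁻¹ * a⁻¹ ∈ L (FreeGroup Z) m → g ∈ M := by
  have := hM
  obtain ⟨m1, hm1⟩ := L_le_ker_perm ((FreeGroup Z ⧸ M) × ZMod 2)
  obtain ⟨m2, hm2⟩ := L_le_ker (Multiplicative (ZMod 2))
  refine ⟨max m1 m2, fun g a ha h => ?_⟩
  have h1 := hm1 (mal M S z0 hS) (L_anti (le_max_left _ _) h)
  have h2 := hm2 (deg2 z0) (L_anti (le_max_right _ _) h)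
  rw [MonoidHom.mem_ker, map_mul, map_inv] at h1 h2
  have h3 := mul_inv_eq_one.mp h1
  have h4 := mul_inv_eq_one.mp h2
  rw [map_mul, map_mul, map_inv, mul_comm, inv_mul_cancel_left, deg2_self] at h4
  set ω : FreeGroup Z ⧸ M := ((1 : FreeGroup Z) : FreeGroup Z ⧸ M) with hω
  have h5 : mal M S z0 hS (g * FreeGroup.of z0) (ω, 0) = mal M S z0 hS (a * g) (ω, 0) := by
    have h6 : mal M S z0 hS (g * FreeGroup.of z0) = mal M S z0 hS (a * g) := by
      rw [map_mul _ a g, ← h3, map_mul, map_mul, map_mul, map_inv, inv_mul_cancel_right]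
    rw [h6]
  rw [map_mul, map_mul, Equiv.Perm.mul_apply, Equiv.Perm.mul_apply,
    mal_base M S hS z0 (of_mem_fac hz0)] at h5
  by_contra hg
  have hg1 : (mal M S z0 hS g (ω, 0)).1 ≠ ω := by
    rw [mal_fst]
    intro h6
    apply hg
    have h7 : ((g * 1 : FreeGroup Z) : FreeGroup Z ⧸ M) = ((1 : FreeGroup Z) : FreeGroup Z ⧸ M) := h6
    rw [QuotientGroup.eq, mul_one, mul_one] at h7
    exact (inv_mem_iff (x := g)).mp h7
  have h6 := mal_other M S hS z0 ha _ hg1
  rw [← h5, ← h4] at h6
  have h7 : (1 : ZMod 2) = 0 := by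
    have : (mal M S z0 hS g (ω, 0)).2 + 0 = (mal M S z0 hS g (ω, 0)).2 + 1 := by
      rw [add_zero]; exact h6
    exact (add_left_cancel this).symm
  exact one_ne_zero h7

/-! ### The sandwich lemma -/

section sandwich

variable (M : Subgroup (FreeGroup Z)) (t : Z)

open Classical in
/-- The permutations attached to the basis elements. -/
noncomputable def sanSig (z : Z) : Equiv.Perm ((FreeGroup Z ⧸ M) × ZMod 2) where
  toFun a := (FreeGroup.of z • a.1,
    a.2 + if z = t ∧ a.1 = ((1 : FreeGroup Z) : FreeGroup Z ⧸ M) then 1 else 0)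
  invFun a := ((FreeGroup.of z)⁻¹ • a.1,
    a.2 - if z = t ∧ (FreeGroup.of z)⁻¹ • a.1 = ((1 : FreeGroup Z) : FreeGroup Z ⧸ M)
      then 1 else 0)
  left_inv := by
    intro a
    simp
  right_inv := by
    intro a
    simp

/-- The permutation representation. -/
noncomputable def san : FreeGroup Z →* Equiv.Perm ((FreeGroup Z ⧸ M) × ZMod 2) :=
  FreeGroup.lift (sanSig M t)

theorem san_fac {S : Set Z} (ht : t ∉ S) {w : FreeGroup Z} (hw : w ∈ fac S)
    (a : (FreeGroup Z ⧸ M) × ZMod 2) : san M t w a = (w • a.1, a.2) := by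
  induction hw using Subgroup.closure_induction generalizing a with
  | mem x hx =>
    obtain ⟨z, hz, rfl⟩ := hx
    have hzt : z ≠ t := fun h => ht (h ▸ hz)
    simp [san, sanSig, hzt]
  | one => simp
  | mul x y _ _ hx hy => rw [map_mul, Equiv.Perm.mul_apply, hy, hx, mul_smul]
  | inv x _ hx => rw [map_inv, Equiv.Perm.inv_eq_iff_eq, hx]; simp

open Classical in
theorem san_t (a : (FreeGroup Z ⧸ M) × ZMod 2) : san M t (FreeGroup.of t) a =
    (FreeGroup.of t • a.1,
      a.2 + if a.1 = ((1 : FreeGroup Z) : FreeGroup Z ⧸ M) then 1 else 0) := by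
  simp [san, sanSig]

end sandwich

/-- **The sandwich lemma.** Modulo a deep level, `u t v = t` with `u`, `v` in a free factor not
involving `t` implies `u, v ∈ M`. -/
theorem sandwich [Finite Z] (M : Subgroup (FreeGroup Z)) (hM : M.FiniteIndex) (hMn : M.Normal)
    (S : Set Z) (t : Z) (ht : t ∉ S) :
    ∃ m : ℕ, ∀ u ∈ fac S, ∀ v ∈ fac S,
      u * FreeGroup.of t * v * (FreeGroup.of t)⁻¹ ∈ L (FreeGroup Z) m → u ∈ M ∧ v ∈ M := by
  classical
  have := hM
  obtain ⟨m, hm⟩ := L_le_ker_perm ((FreeGroup Z ⧸ M) × ZMod 2)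
  refine ⟨m, fun u hu v hv h => ?_⟩
  have h1 := hm (san M t) h
  rw [MonoidHom.mem_ker, map_mul, map_inv] at h1
  have h2 := mul_inv_eq_one.mp h1
  set ω : FreeGroup Z ⧸ M := ((1 : FreeGroup Z) : FreeGroup Z ⧸ M) with hω
  have h3 := congrArg (fun e : Equiv.Perm ((FreeGroup Z ⧸ M) × ZMod 2) => e (ω, 0)) h2
  simp only [map_mul, Equiv.Perm.mul_apply, san_fac M t ht hv, san_t, san_fac M t ht hu,
    zero_add, Prod.mk.injEq] at h3
  obtain ⟨h4, h5⟩ := h3
  have hvω : v • ω = ω := by
    by_contra hne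
    rw [if_neg hne, if_pos hω] at h5
    exact zero_ne_one h5
  rw [hvω] at h4
  have hv' : v ∈ M := by
    have h7 : ((v * 1 : FreeGroup Z) : FreeGroup Z ⧸ M) = ((1 : FreeGroup Z) : FreeGroup Z ⧸ M) :=
      hvω
    rw [QuotientGroup.eq, mul_one, mul_one] at h7
    exact (inv_mem_iff (x := v)).mp h7
  refine ⟨?_, hv'⟩
  have h7 : ((u * (FreeGroup.of t * 1) : FreeGroup Z) : FreeGroup Z ⧸ M) =
      ((FreeGroup.of t * 1 : FreeGroup Z) : FreeGroup Z ⧸ M) := h4
  rw [QuotientGroup.eq, mul_one] at h7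
  have h8 := hMn.conj_mem _ h7 (FreeGroup.of t)
  have h9 : FreeGroup.of t * ((u * FreeGroup.of t)⁻¹ * FreeGroup.of t) * (FreeGroup.of t)⁻¹ =
      u⁻¹ := by group
  rw [h9] at h8
  exact (inv_mem_iff (x := u)).mp h8

end factor

end Pool.Agent.CSPHier
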