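import Mathlib
import Pool.Agent.CSPHier.Levels

set_option autoImplicit false

/-! Congruence property for automorphisms preserving a free splitting. -/

namespace Pool.Agent.CSPHier

/-- A class of automorphisms of a free group has the congruence property if its elements acting
trivially modulo a deep level lie in a given subgroup of finite index. -/
def Good (X : Type) (A : MulAut (FreeGroup X) → Prop) : Prop :=
  ∀ N : Subgroup (MulAut (FreeGroup X)), N.FiniteIndex →
    ∃ m : ℕ, ∀ α, A α → α ∈ cong (FreeGroup X) m → α ∈ N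

/-- The free factor generated by the image of an injection of bases. -/
theorem map_mem_fac {X Z : Type} (f : X → Z) (w : FreeGroup X) :
    FreeGroup.map f w ∈ fac (Set.range f) := by
  induction w using FreeGroup.induction_on with
  | C1 => simp
  | of i => rw [FreeGroup.map.of]; exact of_mem_fac ⟨i, rfl⟩
  | inv_of i ih => rw [map_inv]; exact inv_mem ih
  | mul u v hu hv => rw [map_mul]; exact mul_mem hu hv

theorem exists_of_mem_fac {X Z : Type} (f : X → Z) {w : FreeGroup Z}
    (hw : w ∈ fac (Set.range f)) : ∃ v : FreeGroup X, FreeGroup.map f v = w := by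
  have h : fac (Set.range f) ≤ (FreeGroup.map f).range := by
    refine (Subgroup.closure_le _).mpr ?_
    rintro _ ⟨_, ⟨x, rfl⟩, rfl⟩
    exact ⟨FreeGroup.of x, by simp⟩
  exact h hw

theorem fac_sup_finiteIndex {Z : Type} [Finite Z] (S : Set Z) (m : ℕ) :
    (fac S ⊔ L (FreeGroup Z) m).FiniteIndex :=
  Subgroup.finiteIndex_of_le (H := L (FreeGroup Z) m) le_sup_right

section sum

variable {X Y : Type}

/-- The retraction onto the left factor. -/
def retL : FreeGroup (X ⊕ Y) →* FreeGroup X := FreeGroup.lift (Sum.elim FreeGroup.of 1)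
/-- The retraction onto the right factor. -/
def retR : FreeGroup (X ⊕ Y) →* FreeGroup Y := FreeGroup.lift (Sum.elim 1 FreeGroup.of)

theorem retL_inl (w : FreeGroup X) : retL (Y := Y) (FreeGroup.map Sum.inl w) = w := by
  have h : (retL (Y := Y)).comp (FreeGroup.map Sum.inl) = MonoidHom.id (FreeGroup X) := by
    ext x; simp [retL]
  exact DFunLike.congr_fun h w

theorem retR_inr (w : FreeGroup Y) : retR (X := X) (FreeGroup.map Sum.inr w) = w := by
  have h : (retR (X := X)).comp (FreeGroup.map Sum.inr) = MonoidHom.id (FreeGroup Y) := by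
    ext x; simp [retR]
  exact DFunLike.congr_fun h w

theorem mem_L_inl {m : ℕ} {w : FreeGroup X}
    (h : FreeGroup.map (Sum.inl : X → X ⊕ Y) w ∈ L (FreeGroup (X ⊕ Y)) m) :
    w ∈ L (FreeGroup X) m := by
  have := L_map (retL (X := X) (Y := Y)) h
  rwa [retL_inl] at this

theorem mem_L_inr {m : ℕ} {w : FreeGroup Y}
    (h : FreeGroup.map (Sum.inr : Y → X ⊕ Y) w ∈ L (FreeGroup (X ⊕ Y)) m) :
    w ∈ L (FreeGroup Y) m := by
  have := L_map (retR (X := X) (Y := Y)) h
  rwa [retR_inr] at this

/-- The homomorphism given by homomorphisms on the factors. -/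
def bothHom (α : FreeGroup X →* FreeGroup X) (β : FreeGroup Y →* FreeGroup Y) :
    FreeGroup (X ⊕ Y) →* FreeGroup (X ⊕ Y) :=
  FreeGroup.lift (Sum.elim (fun x => FreeGroup.map Sum.inl (α (FreeGroup.of x)))
    (fun y => FreeGroup.map Sum.inr (β (FreeGroup.of y))))

theorem bothHom_inl (α : FreeGroup X →* FreeGroup X) (β : FreeGroup Y →* FreeGroup Y)
    (w : FreeGroup X) :
    bothHom α β (FreeGroup.map Sum.inl w) = FreeGroup.map Sum.inl (α w) := by
  have h : (bothHom α β).comp (FreeGroup.map Sum.inl) = (FreeGroup.map Sum.inl).comp α := by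
    ext x; simp [bothHom]
  exact DFunLike.congr_fun h w

theorem bothHom_inr (α : FreeGroup X →* FreeGroup X) (β : FreeGroup Y →* FreeGroup Y)
    (w : FreeGroup Y) :
    bothHom α β (FreeGroup.map Sum.inr w) = FreeGroup.map Sum.inr (β w) := by
  have h : (bothHom α β).comp (FreeGroup.map Sum.inr) = (FreeGroup.map Sum.inr).comp β := by
    ext x; simp [bothHom]
  exact DFunLike.congr_fun h w

theorem sum_hom_ext {G : Type} [Group G] {f g : FreeGroup (X ⊕ Y) →* G}
    (h1 : ∀ w : FreeGroup X, f (FreeGroup.map Sum.inl w) = g (FreeGroup.map Sum.inl w))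
    (h2 : ∀ w : FreeGroup Y, f (FreeGroup.map Sum.inr w) = g (FreeGroup.map Sum.inr w)) :
    f = g := by
  ext z
  rcases z with x | y
  · simpa using h1 (FreeGroup.of x)
  · simpa using h2 (FreeGroup.of y)

theorem bothHom_comp (α α' : FreeGroup X →* FreeGroup X) (β β' : FreeGroup Y →* FreeGroup Y) :
    (bothHom α β).comp (bothHom α' β') = bothHom (α.comp α') (β.comp β') := by
  apply sum_hom_ext
  · intro w; rw [MonoidHom.comp_apply, bothHom_inl, bothHom_inl, bothHom_inl]; rfl
  · intro w; rw [MonoidHom.comp_apply, bothHom_inr, bothHom_inr, bothHom_inr]; rfl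

theorem bothHom_id : bothHom (MonoidHom.id (FreeGroup X)) (MonoidHom.id (FreeGroup Y)) =
    MonoidHom.id _ := by
  apply sum_hom_ext
  · intro w; rw [bothHom_inl]; rfl
  · intro w; rw [bothHom_inr]; rfl

/-- The free product of two automorphisms. -/
def both : MulAut (FreeGroup X) × MulAut (FreeGroup Y) →* MulAut (FreeGroup (X ⊕ Y)) where
  toFun p :=
    { toFun := bothHom p.1.toMonoidHom p.2.toMonoidHom
      invFun := bothHom (p.1⁻¹ : MulAut _).toMonoidHom (p.2⁻¹ : MulAut _).toMonoidHom
      left_inv := by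
        intro w
        rw [← MonoidHom.comp_apply, bothHom_comp]
        have h1 : ((p.1⁻¹ : MulAut _).toMonoidHom).comp p.1.toMonoidHom = MonoidHom.id _ := by
          ext1 x; exact MulAut.inv_apply_self _ _ _
        have h2 : ((p.2⁻¹ : MulAut _).toMonoidHom).comp p.2.toMonoidHom = MonoidHom.id _ := by
          ext1 x; exact MulAut.inv_apply_self _ _ _
        rw [h1, h2, bothHom_id]; rfl
      right_inv := by
        intro w
        rw [← MonoidHom.comp_apply, bothHom_comp]
        have h1 : (p.1.toMonoidHom).comp (p.1⁻¹ : MulAut _).toMonoidHom = MonoidHom.id _ := by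
          ext1 x; exact MulAut.apply_inv_self _ _ _
        have h2 : (p.2.toMonoidHom).comp (p.2⁻¹ : MulAut _).toMonoidHom = MonoidHom.id _ := by
          ext1 x; exact MulAut.apply_inv_self _ _ _
        rw [h1, h2, bothHom_id]; rfl
      map_mul' := map_mul _ }
  map_one' := by
    ext w
    change bothHom (MonoidHom.id _) (MonoidHom.id _) w = w
    rw [bothHom_id]; rfl
  map_mul' := by
    intro p q
    ext w
    change bothHom _ _ w = bothHom _ _ (bothHom _ _ w)
    rw [← MonoidHom.comp_apply, bothHom_comp]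
    rfl

theorem both_inl (p : MulAut (FreeGroup X) × MulAut (FreeGroup Y)) (w : FreeGroup X) :
    both p (FreeGroup.map Sum.inl w) = FreeGroup.map Sum.inl (p.1 w) := bothHom_inl _ _ _

theorem both_inr (p : MulAut (FreeGroup X) × MulAut (FreeGroup Y)) (w : FreeGroup Y) :
    both p (FreeGroup.map Sum.inr w) = FreeGroup.map Sum.inr (p.2 w) := bothHom_inr _ _ _

theorem sum_aut_ext {f g : MulAut (FreeGroup (X ⊕ Y))}
    (h1 : ∀ w : FreeGroup X, f (FreeGroup.map Sum.inl w) = g (FreeGroup.map Sum.inl w))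
    (h2 : ∀ w : FreeGroup Y, f (FreeGroup.map Sum.inr w) = g (FreeGroup.map Sum.inr w)) :
    f = g := by
  apply MulEquiv.toMonoidHom_injective
  exact sum_hom_ext h1 h2

theorem disjoint_ranges : Disjoint (Set.range (Sum.inl : X → X ⊕ Y))
    (Set.range (Sum.inr : Y → X ⊕ Y)) := by
  rw [Set.disjoint_left]
  rintro _ ⟨x, rfl⟩ ⟨y, h⟩
  cases h

/-- An element congruent to conjugation on both factors. -/
theorem conj_trick {Z : Type} {m : ℕ} {φ : MulAut (FreeGroup Z)} {g a : FreeGroup Z} {z : Z}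
    (hφ : φ ∈ cong (FreeGroup Z) m) (h : φ (FreeGroup.of z) = g * a * g⁻¹) :
    g⁻¹ * FreeGroup.of z * g⁻¹⁻¹ * a⁻¹ ∈ L (FreeGroup Z) m := by
  have h1 := mem_cong.mp hφ (FreeGroup.of z)
  rw [h] at h1
  have h2 := (L_normal m).conj_mem _ (inv_mem h1) g⁻¹
  have h3 : g⁻¹ * (g * a * g⁻¹ * (FreeGroup.of z)⁻¹)⁻¹ * g⁻¹⁻¹ =
      g⁻¹ * FreeGroup.of z * g⁻¹⁻¹ * a⁻¹ := by group
  rwa [h3] at h2

/-- **Congruence property for free products.** -/
theorem good_split [Finite X] [Finite Y] [Nonempty X] [Nonempty Y]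
    (A : MulAut (FreeGroup X) → Prop) (B : MulAut (FreeGroup Y) → Prop)
    (hA : Good X A) (hB : Good Y B) :
    Good (X ⊕ Y) (fun φ => ∃ α β g, A α ∧ B β ∧
      (∀ w, φ (FreeGroup.map Sum.inl w) = g * FreeGroup.map Sum.inl (α w) * g⁻¹) ∧
      (∀ w, φ (FreeGroup.map Sum.inr w) = g * FreeGroup.map Sum.inr (β w) * g⁻¹)) := by
  intro N hN
  have := hN
  obtain ⟨x0⟩ := ‹Nonempty X›
  obtain ⟨y0⟩ := ‹Nonempty Y›
  obtain ⟨mX, hmX⟩ := hA (N.comap (both.comp (MonoidHom.inl _ _))) (comap_finiteIndex _ _ hN)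
  obtain ⟨mY, hmY⟩ := hB (N.comap (both.comp (MonoidHom.inr _ _))) (comap_finiteIndex _ _ hN)
  obtain ⟨mc, hmc⟩ := exists_L_le (N.comap (MulAut.conj : FreeGroup (X ⊕ Y) →* _))
    (comap_finiteIndex _ _ hN)
  obtain ⟨m1, hm1⟩ : ∃ m1, m1 = max mX (max mY mc) := ⟨_, rfl⟩
  have h1X : mX ≤ m1 := by rw [hm1]; exact le_max_left _ _
  have h1Y : mY ≤ m1 := by rw [hm1]; exact (le_max_left _ _).trans (le_max_right _ _)
  have h1c : mc ≤ m1 := by rw [hm1]; exact (le_max_right _ _).trans (le_max_right _ _)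
  obtain ⟨m2, hm2⟩ := malnormal (fac (Set.range (Sum.inl : X → X ⊕ Y)) ⊔ L _ m1)
    (fac_sup_finiteIndex _ _) (Set.range Sum.inl) le_sup_left (Sum.inl x0) ⟨x0, rfl⟩
  obtain ⟨m3, hm3⟩ := malnormal (fac (Set.range (Sum.inr : Y → X ⊕ Y)) ⊔ L _ m1)
    (fac_sup_finiteIndex _ _) (Set.range Sum.inr) le_sup_left (Sum.inr y0) ⟨y0, rfl⟩
  refine ⟨max m1 (max m2 m3), ?_⟩
  rintro φ ⟨α, β, g, hα, hβ, hφX, hφY⟩ hφ
  have hφ1 : φ ∈ cong _ m1 := cong_anti (le_max_left _ _) hφ
  have hφ2 : φ ∈ cong _ m2 := cong_anti ((le_max_left _ _).trans (le_max_right _ _)) hφ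
  have hφ3 : φ ∈ cong _ m3 := cong_anti ((le_max_right _ _).trans (le_max_right _ _)) hφ
  have e1 : φ (FreeGroup.of (Sum.inl x0)) =
      g * FreeGroup.map Sum.inl (α (FreeGroup.of x0)) * g⁻¹ := by
    rw [← hφX, FreeGroup.map.of]
  have e2 : φ (FreeGroup.of (Sum.inr y0)) =
      g * FreeGroup.map Sum.inr (β (FreeGroup.of y0)) * g⁻¹ := by
    rw [← hφY, FreeGroup.map.of]
  have g1 := hm2 g⁻¹ _ (map_mem_fac _ _) (conj_trick hφ2 e1)
  have g2 := hm3 g⁻¹ _ (map_mem_fac _ _) (conj_trick hφ3 e2)
  have g3 := mem_L_of_mem_sup disjoint_ranges g1 g2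
  have g4 : g ∈ L (FreeGroup (X ⊕ Y)) m1 := (inv_mem_iff (x := g)).mp g3
  have hφeq : φ = MulAut.conj g * both (α, β) := by
    apply sum_aut_ext
    · intro w; rw [MulAut.mul_apply, both_inl, MulAut.conj_apply, hφX]
    · intro w; rw [MulAut.mul_apply, both_inr, MulAut.conj_apply, hφY]
  have hb : both (α, β) ∈ cong (FreeGroup (X ⊕ Y)) m1 := by
    have : both (α, β) = (MulAut.conj g)⁻¹ * φ := by rw [hφeq]; group
    rw [this]
    exact mul_mem (inv_mem (conj_mem_cong g4)) hφ1
  rw [mem_cong] at hb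
  have hα' : α ∈ cong (FreeGroup X) m1 := by
    rw [mem_cong]
    intro w
    have h1 := hb (FreeGroup.map Sum.inl w)
    rw [both_inl, ← map_inv, ← map_mul] at h1
    exact mem_L_inl h1
  have hβ' : β ∈ cong (FreeGroup Y) m1 := by
    rw [mem_cong]
    intro w
    have h1 := hb (FreeGroup.map Sum.inr w)
    rw [both_inr, ← map_inv, ← map_mul] at h1
    exact mem_L_inr h1
  have hαN := hmX α hα (cong_anti h1X hα')
  have hβN := hmY β hβ (cong_anti h1Y hβ')
  have hcN : MulAut.conj g ∈ N := hmc (L_anti h1c g4)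
  have hprod : both (α, β) = both (α, 1) * both (1, β) := by
    rw [← map_mul]; simp
  rw [hφeq, hprod]
  exact mul_mem hcN (mul_mem hαN hβN)

end sum

section loop

variable {X : Type}

/-- The retraction killing the stable letter. -/
def retO : FreeGroup (Option X) →* FreeGroup X :=
  FreeGroup.lift (fun o => o.elim 1 FreeGroup.of)

theorem retO_some (w : FreeGroup X) : retO (FreeGroup.map some w) = w := by
  have h : (retO (X := X)).comp (FreeGroup.map some) = MonoidHom.id (FreeGroup X) := by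
    ext x; simp [retO]
  exact DFunLike.congr_fun h w

theorem mem_L_some {m : ℕ} {w : FreeGroup X}
    (h : FreeGroup.map (some : X → Option X) w ∈ L (FreeGroup (Option X)) m) :
    w ∈ L (FreeGroup X) m := by
  have := L_map (retO (X := X)) h
  rwa [retO_some] at this

theorem opt_hom_ext {G : Type} [Group G] {f g : FreeGroup (Option X) →* G}
    (h1 : ∀ w : FreeGroup X, f (FreeGroup.map some w) = g (FreeGroup.map some w))
    (h2 : f (FreeGroup.of none) = g (FreeGroup.of none)) : f = g := by
  ext z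
  rcases z with _ | x
  · exact h2
  · simpa using h1 (FreeGroup.of x)

theorem opt_aut_ext {f g : MulAut (FreeGroup (Option X))}
    (h1 : ∀ w : FreeGroup X, f (FreeGroup.map some w) = g (FreeGroup.map some w))
    (h2 : f (FreeGroup.of none) = g (FreeGroup.of none)) : f = g := by
  apply MulEquiv.toMonoidHom_injective
  exact opt_hom_ext h1 h2

/-- The endomorphism given by an endomorphism of the vertex group and `t ↦ u t v`. -/
def loopHom (α : FreeGroup X →* FreeGroup X) (u v : FreeGroup X) :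
    FreeGroup (Option X) →* FreeGroup (Option X) :=
  FreeGroup.lift (fun o => o.elim
    (FreeGroup.map some u * FreeGroup.of none * FreeGroup.map some v)
    (fun x => FreeGroup.map some (α (FreeGroup.of x))))

theorem loopHom_some (α : FreeGroup X →* FreeGroup X) (u v : FreeGroup X) (w : FreeGroup X) :
    loopHom α u v (FreeGroup.map some w) = FreeGroup.map some (α w) := by
  have h : (loopHom α u v).comp (FreeGroup.map some) = (FreeGroup.map some).comp α := by
    ext x; simp [loopHom]
  exact DFunLike.congr_fun h w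

theorem loopHom_none (α : FreeGroup X →* FreeGroup X) (u v : FreeGroup X) :
    loopHom α u v (FreeGroup.of none) =
      FreeGroup.map some u * FreeGroup.of none * FreeGroup.map some v := by
  simp [loopHom]

theorem loopHom_comp (α α' : FreeGroup X →* FreeGroup X) (u v u' v' : FreeGroup X) :
    (loopHom α u v).comp (loopHom α' u' v') = loopHom (α.comp α') (α u' * u) (v * α v') := by
  apply opt_hom_ext
  · intro w; rw [MonoidHom.comp_apply, loopHom_some, loopHom_some, loopHom_some]; rfl
  · rw [MonoidHom.comp_apply, loopHom_none, loopHom_none, map_mul, map_mul, loopHom_some,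
      loopHom_some, loopHom_none, map_mul, map_mul]
    group

theorem loopHom_id : loopHom (MonoidHom.id (FreeGroup X)) 1 1 = MonoidHom.id _ := by
  apply opt_hom_ext
  · intro w; rw [loopHom_some]; rfl
  · rw [loopHom_none]; simp

/-- The automorphism given by an automorphism of the vertex group and `t ↦ u t v`. -/
def loopAut (α : MulAut (FreeGroup X)) (u v : FreeGroup X) : MulAut (FreeGroup (Option X)) where
  toFun := loopHom α.toMonoidHom u v
  invFun := loopHom (α⁻¹ : MulAut _).toMonoidHom ((α⁻¹ : MulAut _) u⁻¹) ((α⁻¹ : MulAut _) v⁻¹)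
  left_inv := by
    intro w
    rw [← MonoidHom.comp_apply, loopHom_comp]
    have h1 : ((α⁻¹ : MulAut _).toMonoidHom).comp α.toMonoidHom = MonoidHom.id _ := by
      ext1 x; exact MulAut.inv_apply_self _ _ _
    have h2 : ∀ z, (α⁻¹ : MulAut _).toMonoidHom z = (α⁻¹ : MulAut _) z := fun _ => rfl
    rw [h1, h2, h2, ← map_mul, ← map_mul]
    simp only [mul_inv_cancel, inv_mul_cancel, map_one]
    rw [loopHom_id]; rfl
  right_inv := by
    intro w
    rw [← MonoidHom.comp_apply, loopHom_comp]
    have h1 : (α.toMonoidHom).comp (α⁻¹ : MulAut _).toMonoidHom = MonoidHom.id _ := by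
      ext1 x; exact MulAut.apply_inv_self _ _ _
    have h2 : ∀ z, α.toMonoidHom ((α⁻¹ : MulAut _) z) = z := fun z => MulAut.apply_inv_self _ _ _
    rw [h1, h2, h2]
    simp only [mul_inv_cancel, inv_mul_cancel]
    rw [loopHom_id]; rfl
  map_mul' := map_mul _

theorem loopAut_some (α : MulAut (FreeGroup X)) (u v w : FreeGroup X) :
    loopAut α u v (FreeGroup.map some w) = FreeGroup.map some (α w) := loopHom_some _ _ _ _

theorem loopAut_none (α : MulAut (FreeGroup X)) (u v : FreeGroup X) :
    loopAut α u v (FreeGroup.of none) =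
      FreeGroup.map some u * FreeGroup.of none * FreeGroup.map some v := loopHom_none _ _ _

/-- extension by the identity -/
def extO : MulAut (FreeGroup X) →* MulAut (FreeGroup (Option X)) where
  toFun α := loopAut α 1 1
  map_one' := by
    apply opt_aut_ext
    · intro w; rw [loopAut_some]; rfl
    · rw [loopAut_none]; simp
  map_mul' := by
    intro α β
    apply opt_aut_ext
    · intro w; rw [MulAut.mul_apply, loopAut_some, loopAut_some, loopAut_some]; rfl
    · rw [MulAut.mul_apply, loopAut_none, loopAut_none, map_mul, map_mul, loopAut_none]; simp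

/-- `t ↦ t v` -/
def rO : FreeGroup X →* MulAut (FreeGroup (Option X)) where
  toFun v := loopAut 1 1 v
  map_one' := by
    apply opt_aut_ext
    · intro w; rw [loopAut_some]; rfl
    · rw [loopAut_none]; simp
  map_mul' := by
    intro v w
    apply opt_aut_ext
    · intro w; rw [MulAut.mul_apply, loopAut_some, loopAut_some, loopAut_some]; rfl
    · rw [MulAut.mul_apply, loopAut_none, loopAut_none, map_mul (loopAut 1 1 v),
        map_mul (loopAut 1 1 v), loopAut_none, loopAut_some, loopAut_some]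
      simp [mul_assoc]

/-- `t ↦ u⁻¹ t` -/
def lO : FreeGroup X →* MulAut (FreeGroup (Option X)) where
  toFun u := loopAut 1 u⁻¹ 1
  map_one' := by
    apply opt_aut_ext
    · intro w; rw [loopAut_some]; rfl
    · rw [loopAut_none]; simp
  map_mul' := by
    intro v w
    apply opt_aut_ext
    · intro w; rw [MulAut.mul_apply, loopAut_some, loopAut_some, loopAut_some]; rfl
    · rw [MulAut.mul_apply, loopAut_none, loopAut_none, map_mul, map_mul, loopAut_none,
        loopAut_some, loopAut_some]
      simp [mul_assoc]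

/-- The exponent sum of the stable letter modulo three. -/
def deg3 : FreeGroup (Option X) →* Multiplicative (ZMod 3) :=
  FreeGroup.lift (fun o => o.elim (Multiplicative.ofAdd 1) 1)

theorem deg3_some (w : FreeGroup X) : deg3 (FreeGroup.map some w) = 1 := by
  have h : (deg3 (X := X)).comp (FreeGroup.map some) = 1 := by
    ext x; simp [deg3]
  exact DFunLike.congr_fun h w

theorem deg3_none : deg3 (FreeGroup.of (none : Option X)) = Multiplicative.ofAdd 1 := by
  simp [deg3]

/-- **Congruence property for HNN extensions.** -/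
theorem good_loop [Finite X] [Nonempty X] (A : MulAut (FreeGroup X) → Prop)
    (hA : Good X A) (hinn : ∀ a α, A α → A (MulAut.conj a * α)) :
    Good (Option X) (fun φ => ∃ α g u v, A α ∧
      (∀ w, φ (FreeGroup.map some w) = g * FreeGroup.map some (α w) * g⁻¹) ∧
      (φ (FreeGroup.of none) =
        g * (FreeGroup.map some u * FreeGroup.of none * FreeGroup.map some v) * g⁻¹ ∨
      φ (FreeGroup.of none) =
        g * (FreeGroup.map some u * (FreeGroup.of none)⁻¹ * FreeGroup.map some v) * g⁻¹)) := by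
  intro N hN
  have := hN
  obtain ⟨x0⟩ := ‹Nonempty X›
  obtain ⟨mX, hmX⟩ := hA (N.comap extO) (comap_finiteIndex _ _ hN)
  obtain ⟨mr, hmr⟩ := exists_L_le (N.comap (rO : FreeGroup X →* _)) (comap_finiteIndex _ _ hN)
  obtain ⟨ml, hml⟩ := exists_L_le (N.comap (lO : FreeGroup X →* _)) (comap_finiteIndex _ _ hN)
  obtain ⟨mc, hmc⟩ := exists_L_le (N.comap (MulAut.conj : FreeGroup (Option X) →* _))
    (comap_finiteIndex _ _ hN)
  obtain ⟨m3, hm3⟩ := L_le_ker (Multiplicative (ZMod 3))
  obtain ⟨ms, hms⟩ := sandwich (L (FreeGroup (Option X)) (max mr ml)) inferInstance inferInstance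
    (Set.range some) none (by rintro ⟨x, h⟩; cases h)
  obtain ⟨m4, hm4⟩ : ∃ m4, m4 = max (max mX mc) (max m3 ms) := ⟨_, rfl⟩
  have l1 : mX ≤ m4 := by rw [hm4]; exact (le_max_left _ _).trans (le_max_left _ _)
  have l2 : mc ≤ m4 := by rw [hm4]; exact (le_max_right _ _).trans (le_max_left _ _)
  have l3 : m3 ≤ m4 := by rw [hm4]; exact (le_max_left _ _).trans (le_max_right _ _)
  have l4 : ms ≤ m4 := by rw [hm4]; exact (le_max_right _ _).trans (le_max_right _ _)
  obtain ⟨m5, hm5⟩ := malnormal (fac (Set.range (some : X → Option X)) ⊔ L _ m4)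
    (fac_sup_finiteIndex _ _) (Set.range some) le_sup_left (some x0) ⟨x0, rfl⟩
  refine ⟨max m4 m5, ?_⟩
  rintro φ ⟨α, g, u, v, hα, hφX, hφt⟩ hφ
  have hφ4 : φ ∈ cong _ m4 := cong_anti (le_max_left _ _) hφ
  have hφ5 : φ ∈ cong _ m5 := cong_anti (le_max_right _ _) hφ
  have e1 : φ (FreeGroup.of (some x0)) =
      g * FreeGroup.map some (α (FreeGroup.of x0)) * g⁻¹ := by
    rw [← hφX, FreeGroup.map.of]
  have g1 := hm5 g⁻¹ _ (map_mem_fac _ _) (conj_trick hφ5 e1)
  rw [Subgroup.mem_sup_of_normal_right] at g1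
  obtain ⟨a, ha, k, hk, hak⟩ := g1
  obtain ⟨a0, rfl⟩ := exists_of_mem_fac _ ha
  have hg : g = k⁻¹ * (FreeGroup.map some a0)⁻¹ := by
    rw [← mul_inv_rev, hak, inv_inv]
  -- the corrected automorphism
  obtain ⟨φ', hφ'⟩ : ∃ φ' : MulAut (FreeGroup (Option X)), φ' = MulAut.conj k * φ := ⟨_, rfl⟩
  have hφ'4 : φ' ∈ cong _ m4 := by rw [hφ']; exact mul_mem (conj_mem_cong hk) hφ4
  obtain ⟨α', hα'⟩ : ∃ α' : MulAut (FreeGroup X), α' = MulAut.conj a0⁻¹ * α := ⟨_, rfl⟩
  have hAα' : A α' := by rw [hα']; exact hinn _ _ hα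
  have hX : ∀ w, φ' (FreeGroup.map some w) = FreeGroup.map some (α' w) := by
    intro w
    rw [hφ', MulAut.mul_apply, hφX, MulAut.conj_apply, hg, hα', MulAut.mul_apply,
      MulAut.conj_apply, map_mul, map_mul, inv_inv, map_inv]
    group
  have htt : φ' (FreeGroup.of none) = FreeGroup.map some (a0⁻¹ * u) * FreeGroup.of none *
      FreeGroup.map some (v * a0) := by
    rcases hφt with ht | ht
    · rw [hφ', MulAut.mul_apply, ht, MulAut.conj_apply, hg, map_mul, map_mul, map_inv]
      group
    · exfalso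
      have h1 : φ' (FreeGroup.of none) = FreeGroup.map some (a0⁻¹ * u) * (FreeGroup.of none)⁻¹ *
          FreeGroup.map some (v * a0) := by
        rw [hφ', MulAut.mul_apply, ht, MulAut.conj_apply, hg, map_mul, map_mul, map_inv]
        group
      have h2 := hm3 (deg3 (X := X)) (L_anti l3 (mem_cong.mp hφ'4 (FreeGroup.of none)))
      rw [h1, MonoidHom.mem_ker, map_mul, map_mul, map_mul, map_inv, deg3_some,
        deg3_some, deg3_none] at h2
      revert h2; decide
  have hα'4 : α' ∈ cong (FreeGroup X) m4 := by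
    rw [mem_cong]
    intro w
    have h1 := mem_cong.mp hφ'4 (FreeGroup.map some w)
    rw [hX, ← map_inv, ← map_mul] at h1
    exact mem_L_some h1
  have n1 : extO α' ∈ N := hmX α' hAα' (cong_anti l1 hα'4)
  have h1 := mem_cong.mp hφ'4 (FreeGroup.of none)
  rw [htt] at h1
  obtain ⟨h2, h3⟩ := hms _ (map_mem_fac _ _) _ (map_mem_fac _ _) (L_anti l4 h1)
  have n2 : rO (v * a0) ∈ N := hmr (L_anti (le_max_left _ _) (mem_L_some h3))
  have n3 : lO (a0⁻¹ * u)⁻¹ ∈ N :=
    hml (L_anti (le_max_right _ _) (inv_mem (mem_L_some h2)))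
  have n4 : MulAut.conj k⁻¹ ∈ N := hmc (L_anti l2 (inv_mem hk))
  have hfin : φ = MulAut.conj k⁻¹ * (rO (v * a0) * lO (a0⁻¹ * u)⁻¹ * extO α') := by
    have h4 : φ' = rO (v * a0) * lO (a0⁻¹ * u)⁻¹ * extO α' := by
      apply opt_aut_ext
      · intro w
        rw [hX, MulAut.mul_apply, MulAut.mul_apply]
        change _ = loopAut 1 1 _ (loopAut 1 _ 1 (loopAut α' 1 1 _))
        rw [loopAut_some, loopAut_some, loopAut_some]; rfl
      · rw [htt, MulAut.mul_apply, MulAut.mul_apply]
        change _ = loopAut 1 1 _ (loopAut 1 _ 1 (loopAut α' 1 1 _))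
        rw [loopAut_none, map_one, one_mul, mul_one, loopAut_none, map_one, mul_one, inv_inv,
          map_mul (loopAut 1 1 (v * a0)), loopAut_none, loopAut_some, MulAut.one_apply, map_one,
          one_mul, mul_assoc]
    rw [← h4, hφ', ← mul_assoc, ← map_mul, inv_mul_cancel, map_one, one_mul]
  rw [hfin]
  exact mul_mem n4 (mul_mem (mul_mem n2 n3) n1)

end loop

/-! ### Transport along isomorphisms and rank at most one -/

theorem congr_mem_cong {G H : Type} [Group G] [Group H] (ψ : G ≃* H) {m : ℕ} {α : MulAut G}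
    (h : α ∈ cong G m) : MulAut.congr ψ α ∈ cong H m := by
  rw [mem_cong] at *
  intro x
  have h1 := h (ψ.symm x)
  have h2 := (L_apply_iff ψ).mpr h1
  rw [map_mul, map_inv, MulEquiv.apply_symm_apply] at h2
  exact h2

theorem good_zero (X : Type) [IsEmpty X] : Good X (fun _ => True) := by
  intro N _
  refine ⟨0, fun α _ _ => ?_⟩
  have : α = 1 := by
    apply MulEquiv.toMonoidHom_injective
    ext x
    exact isEmptyElim x
  rw [this]
  exact one_mem _

theorem good_one (X : Type) [Unique X] : Good X (fun _ => True) := by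
  intro N _
  obtain ⟨m3, hm3⟩ := L_le_ker (Multiplicative (ZMod 3))
  refine ⟨m3, fun α _ hα => ?_⟩
  have hz : ∀ w : FreeGroup X, ∃ k : ℤ, w = (FreeGroup.of default) ^ k := by
    intro w
    induction w using FreeGroup.induction_on with
    | C1 => exact ⟨0, by simp⟩
    | of i => exact ⟨1, by rw [zpow_one, Subsingleton.elim i default]⟩
    | inv_of i ih => obtain ⟨k, hk⟩ := ih; exact ⟨-k, by rw [hk, zpow_neg]⟩
    | mul u v hu hv =>
      obtain ⟨k, hk⟩ := hu
      obtain ⟨l, hl⟩ := hv
      exact ⟨k + l, by rw [hk, hl, zpow_add]⟩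
  obtain ⟨k, hk⟩ := hz (α (FreeGroup.of default))
  obtain ⟨l, hl⟩ := hz (α⁻¹ (FreeGroup.of default))
  let d : FreeGroup X →* Multiplicative ℤ := FreeGroup.lift (fun _ => Multiplicative.ofAdd 1)
  have hd : ∀ k : ℤ, d ((FreeGroup.of default) ^ k) = Multiplicative.ofAdd k := by
    intro k
    rw [map_zpow]
    simp [d, ← ofAdd_zsmul]
  have h1 : (FreeGroup.of (default : X)) ^ (l * k) = (FreeGroup.of default) ^ (1 : ℤ) := by
    rw [mul_comm, zpow_mul, ← hk, ← map_zpow, ← hl, MulAut.apply_inv_self, zpow_one]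
  have h2 := congrArg d h1
  rw [hd, hd] at h2
  have h3 : l * k = 1 := Multiplicative.ofAdd.injective h2
  have h4 : k = 1 ∨ k = -1 := Int.isUnit_iff.mp (IsUnit.of_mul_eq_one l (by rw [mul_comm]; exact h3))
  let d3 : FreeGroup X →* Multiplicative (ZMod 3) :=
    FreeGroup.lift (fun _ => Multiplicative.ofAdd 1)
  have hd3 : d3 (FreeGroup.of default) = Multiplicative.ofAdd 1 := by simp [d3]
  have h5 := hm3 d3 (mem_cong.mp hα (FreeGroup.of default))
  have h6 : α (FreeGroup.of default) = FreeGroup.of default := by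
    rcases h4 with rfl | rfl
    · rw [hk, zpow_one]
    · exfalso
      rw [hk, MonoidHom.mem_ker, map_mul, map_inv, map_zpow, hd3] at h5
      revert h5; decide
  have : α = 1 := by
    apply MulEquiv.toMonoidHom_injective
    ext x
    rw [Subsingleton.elim x default]
    exact h6
  rw [this]
  exact one_mem _

end Pool.Agent.CSPHier
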