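import Mathlib

set_option autoImplicit false

/-! Nielsen reduction for pairs generating the free group of rank two. -/

namespace Pool.Agent.CSPHier.Nielsen

open FreeGroup hiding map_mul map_inv map_one norm norm_one

section general

variable {α : Type} [DecidableEq α]

/-- Length of the longest common prefix. -/
def lcp : List (α × Bool) → List (α × Bool) → ℕ
  | a :: l, b :: l' => if a = b then lcp l l' + 1 else 0
  | [], _ => 0
  | _ :: _, [] => 0

theorem lcp_comm (l l' : List (α × Bool)) : lcp l l' = lcp l' l := by
  induction l generalizing l' with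
  | nil => cases l' <;> simp [lcp]
  | cons a l ih =>
    cases l' with
    | nil => simp [lcp]
    | cons b l' =>
      simp only [lcp]
      by_cases h : a = b
      · subst h; simp [ih]
      · rw [if_neg h, if_neg (Ne.symm h)]

theorem lcp_le_left (l l' : List (α × Bool)) : lcp l l' ≤ l.length := by
  induction l generalizing l' with
  | nil => simp [lcp]
  | cons a l ih =>
    cases l' with
    | nil => simp [lcp]
    | cons b l' =>
      simp only [lcp]
      split
      · simpa using ih l'
      · simp

theorem lcp_ultra (l₁ l₂ l₃ : List (α × Bool)) : min (lcp l₁ l₂) (lcp l₂ l₃) ≤ lcp l₁ l₃ := by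
  induction l₁ generalizing l₂ l₃ with
  | nil => simp [lcp]
  | cons a l ih =>
    cases l₂ with
    | nil => simp [lcp]
    | cons b l₂ =>
      cases l₃ with
      | nil => simp [lcp]
      | cons c l₃ =>
        simp only [lcp]
        by_cases h : a = b
        · subst h
          by_cases h2 : a = c
          · subst h2
            simpa using ih l₂ l₃
          · simp [h2]
        · simp [h]

theorem take_lcp (l l' : List (α × Bool)) {m : ℕ} (h : m ≤ lcp l l') : l.take m = l'.take m := by
  induction m generalizing l l' with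
  | zero => simp
  | succ m ih =>
    cases l with
    | nil => simp [lcp] at h
    | cons a l =>
      cases l' with
      | nil => simp [lcp] at h
      | cons b l' =>
        simp only [lcp] at h
        by_cases hab : a = b
        · subst hab
          rw [if_pos rfl] at h
          simp [ih l l' (by omega)]
        · rw [if_neg hab] at h
          omega

theorem le_lcp (l l' : List (α × Bool)) {m : ℕ} (h : l.take m = l'.take m) (hm : m ≤ l.length)
    (hm' : m ≤ l'.length) : m ≤ lcp l l' := by
  induction m generalizing l l' with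
  | zero => simp
  | succ m ih =>
    cases l with
    | nil => simp at hm
    | cons a l =>
      cases l' with
      | nil => simp at hm'
      | cons b l' =>
        simp only [List.take_succ_cons, List.cons.injEq] at h
        simp only [lcp]
        rw [if_pos h.1]
        have := ih l l' h.2 (by simpa using hm) (by simpa using hm')
        omega

/-- The overlap of two elements. -/
def ov (g h : FreeGroup α) : ℕ := lcp g.toWord h.toWord

theorem ov_comm (g h : FreeGroup α) : ov g h = ov h g := lcp_comm _ _

theorem ov_ultra (g h k : FreeGroup α) : min (ov g h) (ov h k) ≤ ov g k := lcp_ultra _ _ _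

theorem norm_mk_reduced {l : List (α × Bool)} (h : IsReduced l) : (mk l).norm = l.length := by
  rw [FreeGroup.norm, toWord_mk, h.reduce_eq]

theorem isReduced_invRev {l : List (α × Bool)} (h : IsReduced l) : IsReduced (invRev l) := by
  rw [isReduced_iff_reduce_eq, reduce_invRev, h.reduce_eq]

theorem norm_aux (l₁ l₂ : List (α × Bool)) (h₁ : IsReduced l₁) (h₂ : IsReduced l₂) :
    ((mk l₁)⁻¹ * mk l₂).norm + 2 * lcp l₁ l₂ = l₁.length + l₂.length := by
  induction l₁ generalizing l₂ with
  | nil => simp [lcp, ← one_eq_mk, norm_mk_reduced h₂]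
  | cons a t₁ ih =>
    cases l₂ with
    | nil =>
      simp only [lcp, ← one_eq_mk, mul_one, norm_inv_eq]
      simpa using norm_mk_reduced h₁
    | cons b t₂ =>
      have ht₁ : IsReduced t₁ := List.IsChain.tail h₁
      have ht₂ : IsReduced t₂ := List.IsChain.tail h₂
      by_cases hab : a = b
      · subst hab
        have h1 : (mk (a :: t₁))⁻¹ * mk (a :: t₂) = (mk t₁)⁻¹ * mk t₂ := by
          have e1 : mk (a :: t₁) = mk [a] * mk t₁ := by simp
          have e2 : mk (a :: t₂) = mk [a] * mk t₂ := by simp
          rw [e1, e2]; group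
        rw [h1]
        simp only [lcp, if_true, List.length_cons]
        have := ih t₂ ht₁ ht₂
        omega
      · have h1 : IsReduced (invRev (a :: t₁) ++ b :: t₂) := by
          unfold FreeGroup.IsReduced
          rw [List.isChain_append]
          refine ⟨isReduced_invRev h₁, h₂, ?_⟩
          intro x hx y hy
          simp only [invRev, List.map_cons, List.reverse_cons, List.getLast?_concat,
            Option.mem_def, Option.some.injEq] at hx
          simp only [List.head?_cons, Option.mem_def, Option.some.injEq] at hy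
          subst hx
          subst hy
          intro h
          obtain ⟨a1, a2⟩ := a
          obtain ⟨b1, b2⟩ := b
          simp only at h
          subst h
          simp only [Prod.mk.injEq, true_and] at hab
          simp only
          cases a2 <;> cases b2 <;> simp_all
        rw [inv_mk, mul_mk, norm_mk_reduced h1]
        simp [lcp, hab, invRev_length]

theorem norm_inv_mul (g h : FreeGroup α) : (g⁻¹ * h).norm + 2 * ov g h = g.norm + h.norm := by
  have := norm_aux g.toWord h.toWord isReduced_toWord isReduced_toWord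
  rwa [mk_toWord, mk_toWord] at this

theorem norm_mul_ov (g h : FreeGroup α) : (g * h).norm + 2 * ov g⁻¹ h = g.norm + h.norm := by
  have := norm_inv_mul g⁻¹ h
  rwa [inv_inv, norm_inv_eq] at this

theorem norm_sq (g : FreeGroup α) (hg : g ≠ 1) : g.norm < (g * g).norm := by
  have h1 : (g * g).toWord = reduceCyclically.conjugator g.toWord ++
      (List.replicate 2 (reduceCyclically g.toWord)).flatten ++
      invRev (reduceCyclically.conjugator g.toWord) := by
    rw [← pow_two, toWord_pow, reduceCyclically.reduce_flatten_replicate isReduced_toWord]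
    simp
  have h2 := reduceCyclically.conj_conjugator_reduceCyclically g.toWord
  have h3 : g.norm = (reduceCyclically.conjugator g.toWord).length +
      (reduceCyclically g.toWord).length + (reduceCyclically.conjugator g.toWord).length := by
    rw [FreeGroup.norm]
    conv_lhs => rw [← h2]
    simp only [List.length_append, invRev_length]
  have h4 : (reduceCyclically g.toWord).length ≠ 0 := by
    intro h
    have h5 : reduceCyclically g.toWord = [] := List.length_eq_zero_iff.mp h
    rw [h5] at h2
    apply hg
    have h6 : mk g.toWord = g := mk_toWord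
    rw [← h6, ← h2]
    rw [List.append_nil, ← mul_mk, ← inv_mk]
    exact mul_inv_cancel _
  have h5 : (g * g).norm = (reduceCyclically.conjugator g.toWord).length +
      2 * (reduceCyclically g.toWord).length +
      (reduceCyclically.conjugator g.toWord).length := by
    rw [FreeGroup.norm, h1]
    simp only [List.length_append, invRev_length, List.length_flatten, List.map_replicate,
      List.sum_replicate, smul_eq_mul]
  omega

theorem ov_inv_self (g : FreeGroup α) (hg : g ≠ 1) : 2 * ov g⁻¹ g < g.norm := by
  have h1 := norm_mul_ov g g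
  have h2 := norm_sq g hg
  omega

/-- Admissible pairs of consecutive letters. -/
def ok (a b : α × Bool) : Prop := a.1 = b.1 → a.2 = b.2

theorem no_cancel (U : FreeGroup α →* FreeGroup α)
    (h0 : ∀ a : α × Bool, 0 < (U (mk [a])).norm)
    (h1 : ∀ a b : α × Bool, ok a b → 2 * ov (U (mk [a]))⁻¹ (U (mk [b])) ≤ (U (mk [a])).norm)
    (h2 : ∀ a b d : α × Bool, ok a b → ok b d →
      ov (U (mk [a]))⁻¹ (U (mk [b])) + ov (U (mk [b]))⁻¹ (U (mk [d])) < (U (mk [b])).norm)
    (w : FreeGroup α) : w.norm ≤ (U w).norm := by
  have h1' : ∀ a b : α × Bool, ok a b →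
      ov (U (mk [a]))⁻¹ (U (mk [b])) < (U (mk [a])).norm := by
    intro a b hab
    have := h1 a b hab
    have := h0 a
    omega
  have key : ∀ L : List (α × Bool), ∀ b : α × Bool, IsReduced (b :: L) →
      (∀ a, ok a b → ov (U (mk [a]))⁻¹ (U (mk (b :: L))) = ov (U (mk [a]))⁻¹ (U (mk [b]))) ∧
      ∃ e : ℕ, (e = 0 ∨ ∃ d, ok b d ∧ e = ov (U (mk [b]))⁻¹ (U (mk [d]))) ∧
        L.length + (U (mk [b])).norm ≤ (U (mk (b :: L))).norm + e := by
    intro L
    induction L with
    | nil =>
      intro b _
      exact ⟨fun a _ => rfl, 0, Or.inl rfl, by simp⟩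
    | cons d L ih =>
      intro b hb
      have hbd : ok b d := (List.isChain_cons_cons.mp hb).1
      have hd : IsReduced (d :: L) := (List.isChain_cons_cons.mp hb).2
      obtain ⟨i1, e, he, i2⟩ := ih d hd
      have e1 : mk (b :: d :: L) = mk [b] * mk (d :: L) := by simp
      have e2 : U (mk (b :: d :: L)) = U (mk [b]) * U (mk (d :: L)) := by rw [e1, map_mul]
      have n1 := norm_mul_ov (U (mk [b])) (U (mk (d :: L)))
      rw [i1 b hbd] at n1
      have n2 := norm_inv_mul (U (mk [b])) (U (mk (b :: d :: L)))
      have n3 : (U (mk [b]))⁻¹ * U (mk (b :: d :: L)) = U (mk (d :: L)) := by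
        rw [e2, inv_mul_cancel_left]
      rw [n3] at n2
      rw [← e2] at n1
      constructor
      · intro a hab
        have h3 := h2 a b d hab hbd
        have h4 : ov (U (mk [b])) (U (mk (b :: d :: L))) =
            (U (mk [b])).norm - ov (U (mk [b]))⁻¹ (U (mk [d])) := by omega
        have h5 : ov (U (mk [a]))⁻¹ (U (mk [b])) < ov (U (mk [b])) (U (mk (b :: d :: L))) := by
          omega
        have h6 := ov_ultra (U (mk [a]))⁻¹ (U (mk [b])) (U (mk (b :: d :: L)))
        have h7 := ov_ultra (U (mk [a]))⁻¹ (U (mk (b :: d :: L))) (U (mk [b]))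
        rw [ov_comm (U (mk (b :: d :: L))) (U (mk [b]))] at h7
        omega
      · refine ⟨ov (U (mk [b]))⁻¹ (U (mk [d])), Or.inr ⟨d, hbd, rfl⟩, ?_⟩
        have h3 : ov (U (mk [b]))⁻¹ (U (mk [d])) + e < (U (mk [d])).norm := by
          rcases he with he | ⟨d', hd', he⟩
          · rw [he]
            have h4 := h2 b d d hbd (fun _ => rfl)
            omega
          · rw [he]
            exact h2 b d d' hbd hd'
        simp only [List.length_cons]
        omega
  have hw : w = mk w.toWord := mk_toWord.symm
  have hred : IsReduced w.toWord := isReduced_toWord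
  rw [FreeGroup.norm]
  conv_rhs => rw [hw]
  cases hL : w.toWord with
  | nil => simp
  | cons b L =>
    rw [hL] at hred
    obtain ⟨_, e, he, h3⟩ := key L b hred
    have h4 : e < (U (mk [b])).norm := by
      rcases he with he | ⟨d, hd, he⟩
      · rw [he]; exact h0 b
      · rw [he]; exact h1' b d hd
    simp only [List.length_cons]
    omega

end general

/-! ### Rank two -/

section two

theorem mk_letter_inv {α : Type} (i : α) (b : Bool) :
    (mk [(i, !b)] : FreeGroup α) = (mk [(i, b)])⁻¹ := by
  simp [invRev]

/-- The total length. -/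
def len (φ : MulAut (FreeGroup (Fin 2))) : ℕ :=
  (φ (of 0)).norm + (φ (of 1)).norm

theorem norm_letter (φ : MulAut (FreeGroup (Fin 2))) (a : Fin 2 × Bool) :
    (φ (mk [a])).norm = (φ (of a.1)).norm := by
  obtain ⟨i, b⟩ := a
  cases b with
  | true => rfl
  | false =>
    have h := mk_letter_inv i true
    simp only [Bool.not_true] at h
    rw [h, map_inv, norm_inv_eq]
    rfl

theorem len_eq (φ : MulAut (FreeGroup (Fin 2))) (a b : Fin 2 × Bool) (h : a.1 ≠ b.1) :
    len φ = (φ (mk [a])).norm + (φ (mk [b])).norm := by
  rw [norm_letter, norm_letter, len]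
  obtain ⟨i, _⟩ := a
  obtain ⟨j, _⟩ := b
  simp only at h ⊢
  fin_cases i <;> fin_cases j
  · exact absurd rfl h
  · rfl
  · exact add_comm _ _
  · exact absurd rfl h

/-- **Nielsen's theorem in rank two.** A subgroup of the automorphism group containing the inner
automorphisms, the signed permutations and the elementary transvections is everything. -/
theorem nielsen (H : Subgroup (MulAut (FreeGroup (Fin 2))))
    (hconj : ∀ g, MulAut.conj g ∈ H)
    (htrans : ∀ a b : Fin 2 × Bool, a.1 ≠ b.1 →
      ∃ ν ∈ H, ν (mk [a]) = mk [a] * mk [b] ∧ ν (mk [b]) = mk [b])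
    (hperm : ∀ φ : MulAut (FreeGroup (Fin 2)), (∀ i, ∃ a : Fin 2 × Bool, φ (of i) = mk [a]) → φ ∈ H)
    (φ : MulAut (FreeGroup (Fin 2))) : φ ∈ H := by
  induction hn : len φ using Nat.strong_induction_on generalizing φ with
  | _ n ih =>
  by_cases hmin : ∀ g : FreeGroup (Fin 2), ∀ ν ∈ H, len φ ≤ len (MulAut.conj g * φ * ν)
  swap
  · push Not at hmin
    obtain ⟨g, ν, hν, hlt⟩ := hmin
    have h1 := ih _ (by rw [← hn]; exact hlt) (MulAut.conj g * φ * ν) rfl
    have h2 : φ = (MulAut.conj g)⁻¹ * (MulAut.conj g * φ * ν) * ν⁻¹ := by group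
    rw [h2]
    exact mul_mem (mul_mem (inv_mem (hconj g)) h1) (inv_mem hν)
  -- the minimal case
  have hne : ∀ a : Fin 2 × Bool, φ (mk [a]) ≠ 1 := by
    intro a h
    have h1 : (mk [a] : FreeGroup (Fin 2)) = 1 := by
      apply φ.injective
      rw [h, map_one]
    have h2 := congrArg FreeGroup.norm h1
    rw [norm_mk_reduced IsReduced.singleton, FreeGroup.norm_one] at h2
    simp at h2
  have h0 : ∀ a : Fin 2 × Bool, 0 < (φ (mk [a])).norm := by
    intro a
    rw [Nat.pos_iff_ne_zero]
    intro h
    exact hne a (norm_eq_zero.mp h)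
  have hN1 : ∀ a b : Fin 2 × Bool, a.1 ≠ b.1 →
      (φ (mk [a])).norm ≤ (φ (mk [a]) * φ (mk [b])).norm := by
    intro a b hab
    obtain ⟨ν, hν, hν1, hν2⟩ := htrans a b hab
    have h1 := hmin 1 ν hν
    rw [map_one, one_mul, len_eq _ a b hab, len_eq _ a b hab, MulAut.mul_apply, MulAut.mul_apply,
      hν1, hν2, map_mul] at h1
    omega
  have hN1' : ∀ a b : Fin 2 × Bool, a.1 ≠ b.1 →
      (φ (mk [b])).norm ≤ (φ (mk [a]) * φ (mk [b])).norm := by
    intro a b hab
    have h1 := hN1 (b.1, !b.2) (a.1, !a.2) (Ne.symm hab)
    rw [mk_letter_inv, mk_letter_inv, map_inv, map_inv, ← mul_inv_rev, norm_inv_eq,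
      norm_inv_eq] at h1
    exact h1
  have hN1a : ∀ a b : Fin 2 × Bool, a.1 ≠ b.1 →
      2 * ov (φ (mk [a]))⁻¹ (φ (mk [b])) ≤ (φ (mk [a])).norm := by
    intro a b hab
    have h1 := norm_mul_ov (φ (mk [a])) (φ (mk [b]))
    have h2 := hN1' a b hab
    omega
  have hN1b : ∀ a b : Fin 2 × Bool, a.1 ≠ b.1 →
      2 * ov (φ (mk [a]))⁻¹ (φ (mk [b])) ≤ (φ (mk [b])).norm := by
    intro a b hab
    have h1 := norm_mul_ov (φ (mk [a])) (φ (mk [b]))
    have h2 := hN1 a b hab
    omega
  have hsame : ∀ a b : Fin 2 × Bool, ok a b → a.1 = b.1 → a = b := by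
    intro a b hab h
    exact Prod.ext h (hab h)
  have hsq : ∀ a : Fin 2 × Bool, 2 * ov (φ (mk [a]))⁻¹ (φ (mk [a])) < (φ (mk [a])).norm :=
    fun a => ov_inv_self _ (hne a)
  have h1 : ∀ a b : Fin 2 × Bool, ok a b →
      2 * ov (φ (mk [a]))⁻¹ (φ (mk [b])) ≤ (φ (mk [a])).norm := by
    intro a b hab
    by_cases h : a.1 = b.1
    · rw [hsame a b hab h]
      exact (hsq b).le
    · exact hN1a a b h
  have h1b : ∀ a b : Fin 2 × Bool, ok a b →
      2 * ov (φ (mk [a]))⁻¹ (φ (mk [b])) ≤ (φ (mk [b])).norm := by
    intro a b hab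
    by_cases h : a.1 = b.1
    · rw [hsame a b hab h]
      exact (hsq b).le
    · exact hN1b a b h
  have h2 : ∀ a b d : Fin 2 × Bool, ok a b → ok b d →
      ov (φ (mk [a]))⁻¹ (φ (mk [b])) + ov (φ (mk [b]))⁻¹ (φ (mk [d])) < (φ (mk [b])).norm := by
    intro a b d hab hbd
    have q1 := h1b a b hab
    have q2 := h1 b d hbd
    by_contra hcon
    have hab' : a.1 ≠ b.1 := by
      intro h
      have h3 := hsame a b hab h
      subst h3
      have := hsq a
      omega
    have hbd' : b.1 ≠ d.1 := by
      intro h
      have h3 := hsame b d hbd h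
      subst h3
      have := hsq b
      omega
    have had : a.1 = d.1 := by
      have hA := a.1.2
      have hB := b.1.2
      have hD := d.1.2
      have hab'' : a.1.val ≠ b.1.val := fun h => hab' (Fin.ext h)
      have hbd'' : b.1.val ≠ d.1.val := fun h => hbd' (Fin.ext h)
      exact Fin.ext (by omega)
    by_cases hcase : a.2 = d.2
    · -- the conjugation trick
      have haeq : a = d := Prod.ext had hcase
      subst haeq
      obtain ⟨m, hm⟩ : ∃ m, m = ov (φ (mk [a]))⁻¹ (φ (mk [b])) := ⟨_, rfl⟩
      have hm2 : ov (φ (mk [b]))⁻¹ (φ (mk [a])) = m := by omega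
      have hnb : (φ (mk [b])).norm = 2 * m := by omega
      have hna : 2 * m ≤ (φ (mk [a])).norm := by
        have := hN1a a b hab'
        omega
      have hmpos : 0 < m := by
        have := h0 b
        omega
      -- names
      obtain ⟨g, hg⟩ : ∃ g, g = φ (mk [b]) := ⟨_, rfl⟩
      obtain ⟨h, hh⟩ : ∃ h, h = φ (mk [a]) := ⟨_, rfl⟩
      rw [← hg, ← hh] at hm
      rw [← hg, ← hh] at hm2
      rw [← hg] at hnb
      rw [← hh] at hna
      -- prefixes
      obtain ⟨P, hP⟩ : ∃ P, P = g.toWord.take m := ⟨_, rfl⟩
      obtain ⟨Q, hQ⟩ : ∃ Q, Q = g⁻¹.toWord.take m := ⟨_, rfl⟩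
      have hP' : h⁻¹.toWord.take m = P := by
        rw [hP]
        exact take_lcp _ _ (by rw [hm]; exact le_rfl)
      have hQ' : h.toWord.take m = Q := by
        rw [hQ]
        exact (take_lcp _ _ (by rw [← hm2]; exact le_rfl)).symm
      have hlenP : P.length = m := by
        rw [hP, List.length_take]
        have : g.toWord.length = 2 * m := hnb
        omega
      have hlenQ : Q.length = m := by
        rw [hQ, List.length_take]
        have : g⁻¹.toWord.length = 2 * m := by
          have h3 : (g⁻¹).norm = 2 * m := by rw [norm_inv_eq]; exact hnb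
          exact h3
        omega
      -- g = p q⁻¹
      have hgw : g.toWord = P ++ invRev Q := by
        have h3 : g.toWord = g.toWord.take m ++ g.toWord.drop m := (List.take_append_drop m _).symm
        have h4 : g.toWord = invRev (g⁻¹.toWord) := by
          rw [toWord_inv, invRev_invRev]
        have h5 : g.toWord.drop m = invRev Q := by
          rw [hQ]
          have h6 : g⁻¹.toWord = g⁻¹.toWord.take m ++ g⁻¹.toWord.drop m :=
            (List.take_append_drop m _).symm
          have h7 : g.toWord = invRev (g⁻¹.toWord.drop m) ++ invRev (g⁻¹.toWord.take m) := by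
            rw [h4]
            conv_lhs => rw [h6]
            rw [invRev_append]
          have h8 : (invRev (g⁻¹.toWord.drop m)).length = m := by
            rw [invRev_length, List.length_drop]
            have : g⁻¹.toWord.length = 2 * m := by
              have h3 : (g⁻¹).norm = 2 * m := by rw [norm_inv_eq]; exact hnb
              exact h3
            omega
          have h9 : ∀ A B : List (Fin 2 × Bool), A.length = m → (A ++ B).drop m = B := by
            intro A B hA
            rw [← hA, List.drop_left]
          conv_lhs => rw [h7]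
          rw [h9 _ _ h8]
        rw [h5, ← hP] at h3
        exact h3
      -- h = q w p⁻¹
      obtain ⟨W, hW⟩ : ∃ W, h.toWord = Q ++ W ++ invRev P := by
        have h3 : h.toWord = h.toWord.take m ++ h.toWord.drop m := (List.take_append_drop m _).symm
        rw [hQ'] at h3
        have h4 : h.toWord = invRev (h⁻¹.toWord.drop m) ++ invRev P := by
          have h5 : h⁻¹.toWord = h⁻¹.toWord.take m ++ h⁻¹.toWord.drop m :=
            (List.take_append_drop m _).symm
          rw [hP'] at h5
          have h6 : h.toWord = invRev (h⁻¹.toWord) := by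
            rw [toWord_inv, invRev_invRev]
          rw [h6]
          conv_lhs => rw [h5]
          rw [invRev_append]
        have h5 : (invRev (h⁻¹.toWord.drop m)).take m = Q := by
          have h6 : m ≤ (invRev (h⁻¹.toWord.drop m)).length := by
            rw [invRev_length, List.length_drop]
            have : h⁻¹.toWord.length = h.norm := by
              have h3 : (h⁻¹).norm = h.norm := norm_inv_eq
              exact h3
            omega
          rw [← hQ']
          conv_rhs => rw [h4]
          rw [List.take_append_of_le_length h6]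
        refine ⟨(invRev (h⁻¹.toWord.drop m)).drop m, ?_⟩
        rw [← h5, List.take_append_drop]
        exact h4
      have hgm : g = mk P * (mk Q)⁻¹ := by
        have : g = mk g.toWord := mk_toWord.symm
        rw [this, hgw, ← mul_mk, ← inv_mk]
      have hhm : h = mk Q * mk W * (mk P)⁻¹ := by
        have : h = mk h.toWord := mk_toWord.symm
        rw [this, hW, ← mul_mk, ← mul_mk, ← inv_mk]
      have hlenh : h.norm = 2 * m + W.length := by
        rw [FreeGroup.norm, hW]
        simp only [List.length_append, invRev_length]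
        omega
      obtain ⟨ν, hν, hν1, hν2⟩ := htrans (a.1, !a.2) (b.1, !b.2) hab'
      -- ν (a⁻¹) = a⁻¹ b⁻¹
      have hν1' : ν (mk [a]) = mk [b] * mk [a] := by
        have h3 : (mk [a] : FreeGroup (Fin 2)) = (mk [(a.1, !a.2)])⁻¹ := by
          rw [mk_letter_inv, inv_inv]
        have h4 : (mk [b] : FreeGroup (Fin 2)) = (mk [(b.1, !b.2)])⁻¹ := by
          rw [mk_letter_inv, inv_inv]
        rw [h3, h4, map_inv, hν1]
        rw [mul_inv_rev]
      have hν2' : ν (mk [b]) = mk [b] := by
        have h4 : (mk [b] : FreeGroup (Fin 2)) = (mk [(b.1, !b.2)])⁻¹ := by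
          rw [mk_letter_inv, inv_inv]
        rw [h4, map_inv, hν2]
      have h3 := hmin (mk P)⁻¹ ν hν
      rw [len_eq _ a b hab', len_eq _ a b hab', MulAut.mul_apply, MulAut.mul_apply,
        MulAut.mul_apply, MulAut.mul_apply, hν1', hν2', map_mul, ← hg, ← hh,
        MulAut.conj_apply, MulAut.conj_apply, inv_inv] at h3
      have h4 : (mk P)⁻¹ * (g * h) * mk P = mk W := by
        rw [hgm, hhm]; group
      have h5 : (mk P)⁻¹ * g * mk P = (mk Q)⁻¹ * mk P := by
        rw [hgm]; group
      rw [h4, h5] at h3
      have h6 : (mk W : FreeGroup (Fin 2)).norm ≤ W.length := norm_mk_le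
      have h7 : ((mk Q)⁻¹ * mk P : FreeGroup (Fin 2)).norm ≤ m + m := by
        refine (FreeGroup.norm_mul_le _ _).trans ?_
        rw [norm_inv_eq]
        have h8 : (mk Q : FreeGroup (Fin 2)).norm ≤ Q.length := norm_mk_le
        have h9 : (mk P : FreeGroup (Fin 2)).norm ≤ P.length := norm_mk_le
        omega
      omega
    · -- a = d⁻¹
      have h3 : (mk [d] : FreeGroup (Fin 2)) = (mk [a])⁻¹ := by
        rw [← mk_letter_inv]
        have h4 : d = (a.1, !a.2) := by
          refine Prod.ext had.symm ?_
          change d.2 = !a.2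
          revert hcase
          cases d.2 <;> cases a.2 <;> decide
        rw [h4]
      have h4 : ov (φ (mk [b])) (φ (mk [b]))⁻¹ < ov (φ (mk [b])) (φ (mk [b]))⁻¹ := by
        have h5 := ov_ultra (φ (mk [b])) (φ (mk [d])) (φ (mk [b]))⁻¹
        have h6 : ov (φ (mk [b])) (φ (mk [d])) = ov (φ (mk [a]))⁻¹ (φ (mk [b])) := by
          rw [ov_comm, h3, map_inv]
        have h7 : ov (φ (mk [d])) (φ (mk [b]))⁻¹ = ov (φ (mk [b]))⁻¹ (φ (mk [d])) := ov_comm _ _
        have h8 := hsq b
        rw [ov_comm] at h8
        omega
      exact lt_irrefl _ h4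
  have hfin := no_cancel (φ : FreeGroup (Fin 2) ≃* FreeGroup (Fin 2)).toMonoidHom h0 h1 h2
  have hinv : φ⁻¹ ∈ H := by
    apply hperm
    intro i
    have h3 := hfin (φ⁻¹ (of i))
    have h4 : (φ : FreeGroup (Fin 2) ≃* FreeGroup (Fin 2)).toMonoidHom (φ⁻¹ (of i)) = of i :=
      MulAut.apply_inv_self _ _ _
    rw [h4, norm_of] at h3
    have h5 : (φ⁻¹ (of i)).norm ≠ 0 := by
      intro h
      have h6 := norm_eq_zero.mp h
      have h7 : (of i : FreeGroup (Fin 2)) = 1 := by
        apply (φ⁻¹ : MulAut (FreeGroup (Fin 2))).injective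
        rw [h6, map_one]
      exact of_ne_one i h7
    have h6 : (φ⁻¹ (of i)).toWord.length = 1 := by
      have : (φ⁻¹ (of i)).norm = 1 := by omega
      exact this
    obtain ⟨a, ha⟩ := List.length_eq_one_iff.mp h6
    exact ⟨a, by rw [← ha, mk_toWord]⟩
  simpa using inv_mem hinv

end two

end Pool.Agent.CSPHier.Nielsen
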