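import Mathlib
import Pool.Agent.CSPHier.Levels
import Pool.Agent.CSPHier.Nielsen

set_option autoImplicit false

/-! The subgroup `Inn · ⟨σ, τ⟩` of the automorphism group of the free group of rank two contains a
congruence subgroup. -/

namespace Pool.Agent.CSPHier

/-- The free group of rank two. -/
abbrev F2 := FreeGroup (Fin 2)

/-- first basis element -/
def X : F2 := FreeGroup.of 0
/-- second basis element -/
def Y : F2 := FreeGroup.of 1

/-- The endomorphism with given values. -/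
def endo (u v : F2) : F2 →* F2 := FreeGroup.lift ![u, v]

@[simp] theorem endo_X (u v : F2) : endo u v X = u := by simp [endo, X]
@[simp] theorem endo_Y (u v : F2) : endo u v Y = v := by simp [endo, Y]

theorem hom_ext {G : Type*} [Group G] {f g : F2 →* G} (h1 : f X = g X) (h2 : f Y = g Y) :
    f = g := by
  ext i
  fin_cases i
  · exact h1
  · exact h2

theorem aut_ext {φ ψ : MulAut F2} (h1 : φ X = ψ X) (h2 : φ Y = ψ Y) : φ = ψ := by
  apply MulEquiv.toMonoidHom_injective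
  exact hom_ext h1 h2

/-- The automorphism with given values and given inverse. -/
def aut (u v u' v' : F2) (h1 : endo u v u' = X) (h2 : endo u v v' = Y) (h3 : endo u' v' u = X)
    (h4 : endo u' v' v = Y) : MulAut F2 where
  toFun := endo u v
  invFun := endo u' v'
  left_inv w := by
    have h : (endo u' v').comp (endo u v) = MonoidHom.id F2 :=
      hom_ext (by simpa using h3) (by simpa using h4)
    exact DFunLike.congr_fun h w
  right_inv w := by
    have h : (endo u v).comp (endo u' v') = MonoidHom.id F2 :=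
      hom_ext (by simpa using h1) (by simpa using h2)
    exact DFunLike.congr_fun h w
  map_mul' := map_mul _

theorem aut_apply (u v u' v' : F2) (h1 : endo u v u' = X) (h2 : endo u v v' = Y)
    (h3 : endo u' v' u = X) (h4 : endo u' v' v = Y) (w : F2) :
    aut u v u' v' h1 h2 h3 h4 w = endo u v w := rfl

@[simp] theorem aut_X (u v u' v' : F2) (h1 : endo u v u' = X) (h2 : endo u v v' = Y)
    (h3 : endo u' v' u = X) (h4 : endo u' v' v = Y) :
    aut u v u' v' h1 h2 h3 h4 X = u := by rw [aut_apply, endo_X]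

@[simp] theorem aut_Y (u v u' v' : F2) (h1 : endo u v u' = X) (h2 : endo u v v' = Y)
    (h3 : endo u' v' u = X) (h4 : endo u' v' v = Y) :
    aut u v u' v' h1 h2 h3 h4 Y = v := by rw [aut_apply, endo_Y]

theorem aut_inv (u v u' v' : F2) (h1 : endo u v u' = X) (h2 : endo u v v' = Y)
    (h3 : endo u' v' u = X) (h4 : endo u' v' v = Y) :
    (aut u v u' v' h1 h2 h3 h4)⁻¹ = aut u' v' u v h3 h4 h1 h2 := rfl

/-- `y ↦ x²y` -/
def sg : MulAut F2 := aut X (X * X * Y) X (X⁻¹ * X⁻¹ * Y) (by simp) (by simp [mul_assoc])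
  (by simp) (by simp [mul_assoc])

/-- `x ↦ x y⁻²` -/
def tu : MulAut F2 := aut (X * Y⁻¹ * Y⁻¹) Y (X * Y * Y) Y (by simp [mul_assoc]) (by simp)
  (by simp [mul_assoc]) (by simp)

/-- the swap -/
def kp : MulAut F2 := aut Y X Y X (by simp) (by simp) (by simp) (by simp)

/-- `x ↦ x⁻¹` -/
def ix : MulAut F2 := aut X⁻¹ Y X⁻¹ Y (by simp) (by simp) (by simp) (by simp)

/-- `y ↦ y⁻¹` -/
def iy : MulAut F2 := aut X Y⁻¹ X Y⁻¹ (by simp) (by simp) (by simp) (by simp)

/-- `x ↦ x y` -/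
def rh : MulAut F2 := aut (X * Y) Y (X * Y⁻¹) Y (by simp) (by simp) (by simp) (by simp)

@[simp] theorem sg_X : sg X = X := by simp [sg]
@[simp] theorem sg_Y : sg Y = X * X * Y := by simp [sg]
@[simp] theorem sgi_X : sg⁻¹ X = X := by simp [sg, aut_inv]
@[simp] theorem sgi_Y : sg⁻¹ Y = X⁻¹ * X⁻¹ * Y := by simp [sg, aut_inv]
@[simp] theorem tu_X : tu X = X * Y⁻¹ * Y⁻¹ := by simp [tu]
@[simp] theorem tu_Y : tu Y = Y := by simp [tu]
@[simp] theorem tui_X : tu⁻¹ X = X * Y * Y := by simp [tu, aut_inv]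
@[simp] theorem tui_Y : tu⁻¹ Y = Y := by simp [tu, aut_inv]
@[simp] theorem kp_X : kp X = Y := by simp [kp]
@[simp] theorem kp_Y : kp Y = X := by simp [kp]
@[simp] theorem ix_X : ix X = X⁻¹ := by simp [ix]
@[simp] theorem ix_Y : ix Y = Y := by simp [ix]
@[simp] theorem iy_X : iy X = X := by simp [iy]
@[simp] theorem iy_Y : iy Y = Y⁻¹ := by simp [iy]
@[simp] theorem rh_X : rh X = X * Y := by simp [rh]
@[simp] theorem rh_Y : rh Y = Y := by simp [rh]
@[simp] theorem rhi_X : rh⁻¹ X = X * Y⁻¹ := by simp [rh, aut_inv]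
@[simp] theorem rhi_Y : rh⁻¹ Y = Y := by simp [rh, aut_inv]

theorem kp_kp : kp * kp = 1 := aut_ext (by simp) (by simp)
theorem ix_ix : ix * ix = 1 := aut_ext (by simp) (by simp)
theorem iy_iy : iy * iy = 1 := aut_ext (by simp) (by simp)
theorem kp_inv : kp⁻¹ = kp := inv_eq_of_mul_eq_one_left kp_kp
theorem ix_inv : ix⁻¹ = ix := inv_eq_of_mul_eq_one_left ix_ix
theorem iy_inv : iy⁻¹ = iy := inv_eq_of_mul_eq_one_left iy_iy

theorem conj_aut (φ : MulAut F2) (g : F2) : φ * MulAut.conj g * φ⁻¹ = MulAut.conj (φ g) := by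
  ext x
  simp [MulAut.mul_apply, MulAut.conj_apply]

/-- The inner automorphisms. -/
def Inn : Subgroup (MulAut F2) := (MulAut.conj : F2 →* MulAut F2).range

theorem conj_mem_Inn (g : F2) : MulAut.conj g ∈ Inn := ⟨g, rfl⟩

instance Inn_normal : Inn.Normal where
  conj_mem := by
    rintro _ ⟨g, rfl⟩ φ
    rw [conj_aut]
    exact conj_mem_Inn _

/-- `⟨Inn, σ, τ⟩` -/
def R : Subgroup (MulAut F2) := Subgroup.closure (Set.range MulAut.conj ∪ {sg, tu})

/-- `⟨Inn, σ, τ, ι_x, ι_y⟩` -/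
def K2 : Subgroup (MulAut F2) := Subgroup.closure (Set.range MulAut.conj ∪ {sg, tu, ix, iy})

theorem conj_mem_R (g : F2) : MulAut.conj g ∈ R := Subgroup.subset_closure (Or.inl ⟨g, rfl⟩)
theorem sg_mem_R : sg ∈ R := Subgroup.subset_closure (Or.inr (by simp))
theorem tu_mem_R : tu ∈ R := Subgroup.subset_closure (Or.inr (by simp))
theorem conj_mem_K2 (g : F2) : MulAut.conj g ∈ K2 := Subgroup.subset_closure (Or.inl ⟨g, rfl⟩)
theorem sg_mem_K2 : sg ∈ K2 := Subgroup.subset_closure (Or.inr (by simp))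
theorem tu_mem_K2 : tu ∈ K2 := Subgroup.subset_closure (Or.inr (by simp))
theorem ix_mem_K2 : ix ∈ K2 := Subgroup.subset_closure (Or.inr (by simp))
theorem iy_mem_K2 : iy ∈ K2 := Subgroup.subset_closure (Or.inr (by simp))

/-! relations -/

theorem rel1 : rh * sg * rh⁻¹ = MulAut.conj (X * Y) * tu⁻¹ * ix * iy * sg⁻¹ := by
  apply aut_ext
  · simp only [MulAut.mul_apply, rhi_X, map_mul, map_inv, sg_X, sg_Y, rh_X, rh_Y, sgi_X, iy_X,
      ix_X, tui_X, MulAut.conj_apply]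
    group
  · simp only [MulAut.mul_apply, rhi_Y, map_mul, map_inv, sg_Y, rh_X, rh_Y, sgi_Y,
      iy_X, iy_Y, ix_X, ix_Y, tui_X, tui_Y, MulAut.conj_apply]
    group

theorem rel2 : rh * tu * rh⁻¹ = tu := by
  apply aut_ext
  · simp only [MulAut.mul_apply, rhi_X, map_mul, map_inv, tu_X, tu_Y, rh_X, rh_Y]
    group
  · simp only [MulAut.mul_apply, rhi_Y, tu_Y, rh_Y]

theorem rel3 : rh * ix * rh⁻¹ = MulAut.conj Y * tu⁻¹ * ix := by
  apply aut_ext
  · simp only [MulAut.mul_apply, rhi_X, map_mul, map_inv, ix_X, ix_Y, rh_X, rh_Y, tui_X,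
      MulAut.conj_apply]
    group
  · simp only [MulAut.mul_apply, rhi_Y, ix_Y, rh_Y, tui_Y, MulAut.conj_apply]
    group

theorem rel4 : rh * iy * rh⁻¹ = tu⁻¹ * iy := by
  apply aut_ext
  · simp only [MulAut.mul_apply, rhi_X, map_mul, map_inv, iy_X, iy_Y, rh_X, rh_Y, tui_X]
    group
  · simp only [MulAut.mul_apply, rhi_Y, iy_Y, map_inv, rh_Y, tui_Y]

theorem rel5 : kp * sg * kp⁻¹ = MulAut.conj (Y * Y) * tu⁻¹ := by
  rw [kp_inv]
  apply aut_ext
  · simp only [MulAut.mul_apply, kp_X, map_mul, kp_Y, sg_Y, tui_X, MulAut.conj_apply]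
    group
  · simp only [MulAut.mul_apply, kp_X, kp_Y, sg_X, tui_Y, MulAut.conj_apply]
    group

theorem rel6 : kp * tu * kp⁻¹ = MulAut.conj (X * X) * sg⁻¹ := by
  rw [kp_inv]
  apply aut_ext
  · simp only [MulAut.mul_apply, kp_X, kp_Y, tu_Y, sgi_X, MulAut.conj_apply]
    group
  · simp only [MulAut.mul_apply, kp_X, kp_Y, tu_X, map_mul, map_inv, sgi_Y, MulAut.conj_apply]
    group

theorem rel7 : kp * ix * kp⁻¹ = iy := by
  rw [kp_inv]
  apply aut_ext <;> simp [MulAut.mul_apply]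

theorem rel8 : kp * iy * kp⁻¹ = ix := by
  rw [kp_inv]
  apply aut_ext <;> simp [MulAut.mul_apply]

theorem rel9 : rh * rh = tu⁻¹ := by
  apply aut_ext
  · simp only [MulAut.mul_apply, rh_X, map_mul, rh_Y, tui_X]
  · simp only [MulAut.mul_apply, rh_Y, tui_Y]

theorem rel10 : rh * kp * rh = kp * rh * kp * (MulAut.conj (X * Y⁻¹ * Y⁻¹) * tu * ix) := by
  obtain ⟨g, hg⟩ : ∃ g, g = X * Y⁻¹ * Y⁻¹ := ⟨_, rfl⟩
  rw [← hg]
  apply aut_ext
  · simp only [MulAut.mul_apply, rh_X, map_mul, map_inv, kp_X, kp_Y, rh_Y, ix_X, tu_X,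
      MulAut.conj_apply]
    rw [hg]
    simp only [map_mul, map_inv, rh_X, kp_X, kp_Y, rh_Y]
    group
  · simp only [MulAut.mul_apply, rh_X, map_mul, map_inv, kp_X, kp_Y, rh_Y, ix_Y, tu_Y,
      MulAut.conj_apply]
    rw [hg]
    simp only [map_mul, map_inv, rh_X, kp_X, kp_Y, rh_Y]
    group

theorem rel11 : ix * sg * ix⁻¹ = sg⁻¹ := by
  rw [ix_inv]
  apply aut_ext
  · simp only [MulAut.mul_apply, ix_X, map_inv, sg_X, sgi_X, inv_inv]
  · simp only [MulAut.mul_apply, ix_Y, sg_Y, map_mul, ix_X, sgi_Y]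

theorem rel12 : ix * tu * ix⁻¹ = MulAut.conj (Y * Y) * tu⁻¹ := by
  obtain ⟨g, hg⟩ : ∃ g, g = Y * Y := ⟨_, rfl⟩
  rw [ix_inv, ← hg]
  apply aut_ext
  · simp only [MulAut.mul_apply, ix_X, map_mul, map_inv, tu_X, ix_Y, tui_X, MulAut.conj_apply]
    rw [hg]
    simp [mul_assoc]
  · simp only [MulAut.mul_apply, ix_Y, tu_Y, tui_Y, MulAut.conj_apply]
    rw [hg]
    group

theorem rel13 : iy * sg * iy⁻¹ = MulAut.conj (X * X) * sg⁻¹ := by
  obtain ⟨g, hg⟩ : ∃ g, g = X * X := ⟨_, rfl⟩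
  rw [iy_inv, ← hg]
  apply aut_ext
  · simp only [MulAut.mul_apply, iy_X, sg_X, sgi_X, MulAut.conj_apply]
    rw [hg]
    group
  · simp only [MulAut.mul_apply, iy_X, map_mul, map_inv, sg_Y, iy_Y, sgi_Y, MulAut.conj_apply]
    rw [hg]
    group

theorem rel14 : iy * tu * iy⁻¹ = tu⁻¹ := by
  rw [iy_inv]
  apply aut_ext
  · simp only [MulAut.mul_apply, iy_X, map_mul, map_inv, tu_X, iy_Y, tui_X, inv_inv]
  · simp only [MulAut.mul_apply, iy_Y, map_inv, tu_Y, tui_Y, inv_inv]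

/-! normalisation -/

theorem normalizes_of_gens {G : Type*} [Group G] (S : Set G) (a : G)
    (h : ∀ s ∈ S, a * s * a⁻¹ ∈ Subgroup.closure S) {k : G} (hk : k ∈ Subgroup.closure S) :
    a * k * a⁻¹ ∈ Subgroup.closure S := by
  have h1 : Subgroup.closure S ≤ (Subgroup.closure S).comap (MulAut.conj a).toMonoidHom := by
    refine (Subgroup.closure_le _).mpr ?_
    intro s hs
    exact h s hs
  exact h1 hk

theorem rh_norm {k : MulAut F2} (hk : k ∈ K2) : rh * k * rh⁻¹ ∈ K2 := by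
  refine normalizes_of_gens _ _ ?_ hk
  rintro s (⟨g, rfl⟩ | hs)
  · rw [conj_aut]; exact conj_mem_K2 _
  · simp only [Set.mem_insert_iff, Set.mem_singleton_iff] at hs
    rcases hs with rfl | rfl | rfl | rfl
    · rw [rel1]
      exact mul_mem (mul_mem (mul_mem (mul_mem (conj_mem_K2 _) (inv_mem tu_mem_K2)) ix_mem_K2)
        iy_mem_K2) (inv_mem sg_mem_K2)
    · rw [rel2]; exact tu_mem_K2
    · rw [rel3]
      exact mul_mem (mul_mem (conj_mem_K2 _) (inv_mem tu_mem_K2)) ix_mem_K2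
    · rw [rel4]; exact mul_mem (inv_mem tu_mem_K2) iy_mem_K2

theorem kp_norm {k : MulAut F2} (hk : k ∈ K2) : kp * k * kp⁻¹ ∈ K2 := by
  refine normalizes_of_gens _ _ ?_ hk
  rintro s (⟨g, rfl⟩ | hs)
  · rw [conj_aut]; exact conj_mem_K2 _
  · simp only [Set.mem_insert_iff, Set.mem_singleton_iff] at hs
    rcases hs with rfl | rfl | rfl | rfl
    · rw [rel5]; exact mul_mem (conj_mem_K2 _) (inv_mem tu_mem_K2)
    · rw [rel6]; exact mul_mem (conj_mem_K2 _) (inv_mem sg_mem_K2)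
    · rw [rel7]; exact iy_mem_K2
    · rw [rel8]; exact ix_mem_K2

theorem kp_norm' {k : MulAut F2} (hk : k ∈ K2) : kp * k * kp ∈ K2 := by
  have := kp_norm hk
  rwa [kp_inv] at this

theorem rhi_norm {k : MulAut F2} (hk : k ∈ K2) : rh⁻¹ * k * rh ∈ K2 := by
  have h1 : rh⁻¹ * k * rh = tu * (rh * k * rh⁻¹) * tu⁻¹ := by
    have h2 : tu = (rh * rh)⁻¹ := by rw [rel9, inv_inv]
    rw [h2]; group
  rw [h1]
  exact mul_mem (mul_mem tu_mem_K2 (rh_norm hk)) (inv_mem tu_mem_K2)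

/-- The cosets. -/
def inCosets (φ : MulAut F2) : Prop :=
  φ ∈ K2 ∨ (∃ k ∈ K2, φ = kp * k) ∨ (∃ k ∈ K2, φ = rh * k) ∨ (∃ k ∈ K2, φ = kp * rh * k) ∨
    (∃ k ∈ K2, φ = rh * kp * k) ∨ (∃ k ∈ K2, φ = kp * rh * kp * k)

theorem K2_mul_kp {k : MulAut F2} (hk : k ∈ K2) : ∃ k' ∈ K2, k * kp = kp * k' := by
  refine ⟨kp * k * kp, kp_norm' hk, ?_⟩
  rw [← mul_assoc, ← mul_assoc, kp_kp, one_mul]

theorem K2_mul_rh {k : MulAut F2} (hk : k ∈ K2) : ∃ k' ∈ K2, k * rh = rh * k' := by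
  refine ⟨rh⁻¹ * k * rh, rhi_norm hk, ?_⟩
  group

theorem inCosets_kp {φ : MulAut F2} (h : inCosets φ) : inCosets (kp * φ) := by
  rcases h with h | ⟨k, hk, rfl⟩ | ⟨k, hk, rfl⟩ | ⟨k, hk, rfl⟩ | ⟨k, hk, rfl⟩ | ⟨k, hk, rfl⟩
  · exact Or.inr (Or.inl ⟨φ, h, rfl⟩)
  · left
    rw [← mul_assoc, kp_kp, one_mul]; exact hk
  · exact Or.inr (Or.inr (Or.inr (Or.inl ⟨k, hk, by group⟩)))
  · refine Or.inr (Or.inr (Or.inl ⟨k, hk, ?_⟩))
    rw [mul_assoc kp rh k, ← mul_assoc, kp_kp, one_mul]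
  · exact Or.inr (Or.inr (Or.inr (Or.inr (Or.inr ⟨k, hk, by group⟩))))
  · refine Or.inr (Or.inr (Or.inr (Or.inr (Or.inl ⟨k, hk, ?_⟩))))
    have : kp * (kp * rh * kp * k) = (kp * kp) * rh * kp * k := by group
    rw [this, kp_kp, one_mul]

theorem inCosets_rh {φ : MulAut F2} (h : inCosets φ) : inCosets (rh * φ) := by
  rcases h with h | ⟨k, hk, rfl⟩ | ⟨k, hk, rfl⟩ | ⟨k, hk, rfl⟩ | ⟨k, hk, rfl⟩ | ⟨k, hk, rfl⟩
  · exact Or.inr (Or.inr (Or.inl ⟨φ, h, rfl⟩))
  · exact Or.inr (Or.inr (Or.inr (Or.inr (Or.inl ⟨k, hk, by group⟩))))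
  · left
    rw [← mul_assoc, rel9]
    exact mul_mem (inv_mem tu_mem_K2) hk
  · -- rh kp rh k
    refine Or.inr (Or.inr (Or.inr (Or.inr (Or.inr
      ⟨(MulAut.conj (X * Y⁻¹ * Y⁻¹) * tu * ix) * k, ?_, ?_⟩))))
    · exact mul_mem (mul_mem (mul_mem (conj_mem_K2 _) tu_mem_K2) ix_mem_K2) hk
    · have : rh * (kp * rh * k) = (rh * kp * rh) * k := by group
      rw [this, rel10]; group
  · -- rh rh kp k
    obtain ⟨k', hk', h1⟩ := K2_mul_kp (inv_mem tu_mem_K2)
    refine Or.inr (Or.inl ⟨k' * k, mul_mem hk' hk, ?_⟩)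
    have : rh * (rh * kp * k) = (rh * rh) * kp * k := by group
    rw [this, rel9, h1, mul_assoc]
  · -- rh kp rh kp k
    obtain ⟨k', hk', h1⟩ := K2_mul_kp (k := MulAut.conj (X * Y⁻¹ * Y⁻¹) * tu * ix)
      (mul_mem (mul_mem (conj_mem_K2 _) tu_mem_K2) ix_mem_K2)
    refine Or.inr (Or.inr (Or.inr (Or.inl ⟨k' * k, mul_mem hk' hk, ?_⟩)))
    have : rh * (kp * rh * kp * k) = (rh * kp * rh) * kp * k := by group
    rw [this, rel10, mul_assoc (kp * rh * kp) _ kp, h1]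
    have h2 : kp * rh * kp * (kp * k') * k = kp * rh * (kp * kp) * (k' * k) := by group
    rw [h2, kp_kp, mul_one]

theorem inCosets_K2 {φ k : MulAut F2} (hk : k ∈ K2) (h : inCosets φ) : inCosets (k * φ) := by
  have key : ∀ k ∈ K2, ∀ t ψ : MulAut F2, (∀ k ∈ K2, ∃ k' ∈ K2, k * t = t * k') → ψ ∈ K2 →
      ∃ k' ∈ K2, k * (t * ψ) = t * k' := by
    intro k hk t ψ ht hψ
    obtain ⟨k', hk', h1⟩ := ht k hk
    exact ⟨k' * ψ, mul_mem hk' hψ, by rw [← mul_assoc, h1, mul_assoc]⟩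
  have t1 : ∀ k ∈ K2, ∃ k' ∈ K2, k * kp = kp * k' := fun k hk => K2_mul_kp hk
  have t2 : ∀ k ∈ K2, ∃ k' ∈ K2, k * rh = rh * k' := fun k hk => K2_mul_rh hk
  have comb : ∀ s t : MulAut F2, (∀ k ∈ K2, ∃ k' ∈ K2, k * s = s * k') →
      (∀ k ∈ K2, ∃ k' ∈ K2, k * t = t * k') → ∀ k ∈ K2, ∃ k' ∈ K2, k * (s * t) = s * t * k' := by
    intro s t hs ht k hk
    obtain ⟨k1, hk1, h1⟩ := hs k hk
    obtain ⟨k2, hk2, h2⟩ := ht k1 hk1
    exact ⟨k2, hk2, by rw [← mul_assoc, h1, mul_assoc, h2, mul_assoc]⟩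
  rcases h with h | ⟨ψ, hψ, rfl⟩ | ⟨ψ, hψ, rfl⟩ | ⟨ψ, hψ, rfl⟩ | ⟨ψ, hψ, rfl⟩ | ⟨ψ, hψ, rfl⟩
  · exact Or.inl (mul_mem hk h)
  · exact Or.inr (Or.inl (key k hk kp ψ t1 hψ))
  · exact Or.inr (Or.inr (Or.inl (key k hk rh ψ t2 hψ)))
  · exact Or.inr (Or.inr (Or.inr (Or.inl (key k hk (kp * rh) ψ (comb _ _ t1 t2) hψ))))
  · exact Or.inr (Or.inr (Or.inr (Or.inr (Or.inl (key k hk (rh * kp) ψ (comb _ _ t2 t1) hψ)))))
  · exact Or.inr (Or.inr (Or.inr (Or.inr (Or.inr
      (key k hk (kp * rh * kp) ψ (comb _ _ (comb _ _ t1 t2) t1) hψ)))))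

theorem inCosets_rhi {φ : MulAut F2} (h : inCosets φ) : inCosets (rh⁻¹ * φ) := by
  have h1 : rh⁻¹ = tu * rh := by
    have h2 : tu = (rh * rh)⁻¹ := by rw [rel9, inv_inv]
    rw [h2]; group
  rw [h1, mul_assoc]
  exact inCosets_K2 tu_mem_K2 (inCosets_rh h)

/-- The subgroup generated by the Nielsen automorphisms. -/
def Nl : Subgroup (MulAut F2) := Subgroup.closure (Set.range MulAut.conj ∪ {kp, rh, ix})

theorem conj_mem_Nl (g : F2) : MulAut.conj g ∈ Nl := Subgroup.subset_closure (Or.inl ⟨g, rfl⟩)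
theorem kp_mem_Nl : kp ∈ Nl := Subgroup.subset_closure (Or.inr (by simp))
theorem rh_mem_Nl : rh ∈ Nl := Subgroup.subset_closure (Or.inr (by simp))
theorem ix_mem_Nl : ix ∈ Nl := Subgroup.subset_closure (Or.inr (by simp))
theorem iy_mem_Nl : iy ∈ Nl := by
  rw [← rel7]
  exact mul_mem (mul_mem kp_mem_Nl ix_mem_Nl) (inv_mem kp_mem_Nl)

theorem inCosets_of_mem_Nl {φ : MulAut F2} (h : φ ∈ Nl) : inCosets φ := by
  induction h using Subgroup.closure_induction_left with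
  | one => exact Or.inl (one_mem _)
  | mul_left s hs ψ _ ih =>
    rcases hs with ⟨g, rfl⟩ | hs
    · exact inCosets_K2 (conj_mem_K2 g) ih
    · simp only [Set.mem_insert_iff, Set.mem_singleton_iff] at hs
      rcases hs with rfl | rfl | rfl
      · exact inCosets_kp ih
      · exact inCosets_rh ih
      · exact inCosets_K2 ix_mem_K2 ih
  | inv_mul_cancel s hs ψ _ ih =>
    rcases hs with ⟨g, rfl⟩ | hs
    · exact inCosets_K2 (inv_mem (conj_mem_K2 g)) ih
    · simp only [Set.mem_insert_iff, Set.mem_singleton_iff] at hs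
      rcases hs with rfl | rfl | rfl
      · rw [kp_inv]; exact inCosets_kp ih
      · exact inCosets_rhi ih
      · exact inCosets_K2 (inv_mem ix_mem_K2) ih

/-- signed permutations -/
theorem perm_mem_Nl (φ : MulAut F2) (h : ∀ i, ∃ a : Fin 2 × Bool, φ (FreeGroup.of i) =
    FreeGroup.mk [a]) : φ ∈ Nl := by
  obtain ⟨⟨i, b⟩, h0⟩ := h 0
  obtain ⟨⟨j, c⟩, h1⟩ := h 1
  have hX : φ X = FreeGroup.mk [(i, b)] := h0
  have hY : φ Y = FreeGroup.mk [(j, c)] := h1
  have m00 : (FreeGroup.mk [((0 : Fin 2), true)] : F2) = X := rfl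
  have m10 : (FreeGroup.mk [((1 : Fin 2), true)] : F2) = Y := rfl
  have m01 : (FreeGroup.mk [((0 : Fin 2), false)] : F2) = X⁻¹ := by
    rw [← m00]; exact Nielsen.mk_letter_inv 0 true
  have m11 : (FreeGroup.mk [((1 : Fin 2), false)] : F2) = Y⁻¹ := by
    rw [← m10]; exact Nielsen.mk_letter_inv 1 true
  have hij : i ≠ j := by
    intro hij
    subst hij
    have hne : ∀ s : F2, s = φ X ∨ s = (φ X)⁻¹ → s ≠ φ Y := by
      intro s hs hsY
      have hdeg : deg2 (0 : Fin 2) X ≠ deg2 (0 : Fin 2) Y := by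
        have h1 : deg2 (0 : Fin 2) X = Multiplicative.ofAdd 1 := deg2_self 0
        have h2 : deg2 (0 : Fin 2) Y = 1 := by simp [deg2, Y]
        rw [h1, h2]
        decide
      apply hdeg
      rcases hs with hs | hs
      · have : φ X = φ Y := hs ▸ hsY
        rw [φ.injective this]
      · have h3 : φ X⁻¹ = φ Y := by rw [map_inv]; exact hs ▸ hsY
        have h4 := φ.injective h3
        rw [← h4, map_inv]
        have h1 : deg2 (0 : Fin 2) X = Multiplicative.ofAdd 1 := deg2_self 0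
        rw [h1]; decide
    cases b <;> cases c
    · exact hne _ (Or.inl rfl) (hX.trans hY.symm)
    · refine hne _ (Or.inr rfl) ?_
      rw [hX, hY, ← Nielsen.mk_letter_inv]; rfl
    · refine hne _ (Or.inr rfl) ?_
      rw [hX, hY, ← Nielsen.mk_letter_inv]; rfl
    · exact hne _ (Or.inl rfl) (hX.trans hY.symm)
  fin_cases i <;> fin_cases j
  · exact absurd rfl hij
  · cases b <;> cases c
    · have : φ = ix * iy := aut_ext (by rw [hX]; simp [m01]) (by rw [hY]; simp [m11])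
      rw [this]; exact mul_mem ix_mem_Nl iy_mem_Nl
    · have : φ = ix := aut_ext (by rw [hX]; simp [m01]) (by rw [hY]; simp [m10])
      rw [this]; exact ix_mem_Nl
    · have : φ = iy := aut_ext (by rw [hX]; simp [m00]) (by rw [hY]; simp [m11])
      rw [this]; exact iy_mem_Nl
    · have : φ = 1 := aut_ext (by rw [hX]; simp [m00]) (by rw [hY]; simp [m10])
      rw [this]; exact one_mem _
  · cases b <;> cases c
    · have : φ = kp * (ix * iy) := aut_ext (by rw [hX]; simp [m11]) (by rw [hY]; simp [m01])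
      rw [this]; exact mul_mem kp_mem_Nl (mul_mem ix_mem_Nl iy_mem_Nl)
    · have : φ = kp * ix := aut_ext (by rw [hX]; simp [m11]) (by rw [hY]; simp [m00])
      rw [this]; exact mul_mem kp_mem_Nl ix_mem_Nl
    · have : φ = kp * iy := aut_ext (by rw [hX]; simp [m10]) (by rw [hY]; simp [m01])
      rw [this]; exact mul_mem kp_mem_Nl iy_mem_Nl
    · have : φ = kp := aut_ext (by rw [hX]; simp [m10]) (by rw [hY]; simp [m00])
      rw [this]; exact kp_mem_Nl
  · exact absurd rfl hij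

theorem exists_perm (a b : Fin 2 × Bool) (hab : a.1 ≠ b.1) :
    ∃ s ∈ Nl, s X = FreeGroup.mk [a] ∧ s Y = FreeGroup.mk [b] := by
  obtain ⟨i, c⟩ := a
  obtain ⟨j, d⟩ := b
  simp only at hab
  have m00 : (FreeGroup.mk [((0 : Fin 2), true)] : F2) = X := rfl
  have m10 : (FreeGroup.mk [((1 : Fin 2), true)] : F2) = Y := rfl
  have m01 : (FreeGroup.mk [((0 : Fin 2), false)] : F2) = X⁻¹ := by
    rw [← m00]; exact Nielsen.mk_letter_inv 0 true
  have m11 : (FreeGroup.mk [((1 : Fin 2), false)] : F2) = Y⁻¹ := by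
    rw [← m10]; exact Nielsen.mk_letter_inv 1 true
  fin_cases i <;> fin_cases j
  · exact absurd rfl hab
  · cases c <;> cases d
    · exact ⟨ix * iy, mul_mem ix_mem_Nl iy_mem_Nl, by simp [m01], by simp [m11]⟩
    · exact ⟨ix, ix_mem_Nl, by simp [m01], by simp [m10]⟩
    · exact ⟨iy, iy_mem_Nl, by simp [m00], by simp [m11]⟩
    · exact ⟨1, one_mem _, by simp [m00], by simp [m10]⟩
  · cases c <;> cases d
    · exact ⟨kp * (ix * iy), mul_mem kp_mem_Nl (mul_mem ix_mem_Nl iy_mem_Nl), by simp [m11],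
        by simp [m01]⟩
    · exact ⟨kp * ix, mul_mem kp_mem_Nl ix_mem_Nl, by simp [m11], by simp [m00]⟩
    · exact ⟨kp * iy, mul_mem kp_mem_Nl iy_mem_Nl, by simp [m10], by simp [m01]⟩
    · exact ⟨kp, kp_mem_Nl, by simp [m10], by simp [m00]⟩
  · exact absurd rfl hab

/-- **Nielsen's theorem.** -/
theorem Nl_eq_top (φ : MulAut F2) : φ ∈ Nl := by
  refine Nielsen.nielsen Nl conj_mem_Nl ?_ perm_mem_Nl φ
  intro a b hab
  obtain ⟨s, hs, hsX, hsY⟩ := exists_perm a b hab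
  refine ⟨s * rh * s⁻¹, mul_mem (mul_mem hs rh_mem_Nl) (inv_mem hs), ?_, ?_⟩
  · rw [← hsX, ← hsY, MulAut.mul_apply, MulAut.mul_apply, MulAut.inv_apply_self, rh_X, map_mul]
  · rw [← hsY, MulAut.mul_apply, MulAut.mul_apply, MulAut.inv_apply_self, rh_Y]

theorem mem_cosets (φ : MulAut F2) : inCosets φ := inCosets_of_mem_Nl (Nl_eq_top φ)

/-! ### Exponent sums modulo four -/

/-- exponent sums -/
def ab4 : F2 →* Multiplicative (ZMod 4 × ZMod 4) :=
  FreeGroup.lift ![Multiplicative.ofAdd (1, 0), Multiplicative.ofAdd (0, 1)]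

/-- exponent sum of `x` -/
def ax (w : F2) : ZMod 4 := (Multiplicative.toAdd (ab4 w)).1
/-- exponent sum of `y` -/
def ay (w : F2) : ZMod 4 := (Multiplicative.toAdd (ab4 w)).2

@[simp] theorem ax_mul (v w : F2) : ax (v * w) = ax v + ax w := by simp [ax]
@[simp] theorem ay_mul (v w : F2) : ay (v * w) = ay v + ay w := by simp [ay]
@[simp] theorem ax_inv (v : F2) : ax v⁻¹ = - ax v := by simp [ax]
@[simp] theorem ay_inv (v : F2) : ay v⁻¹ = - ay v := by simp [ay]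
@[simp] theorem ax_one : ax 1 = 0 := by simp [ax]
@[simp] theorem ay_one : ay 1 = 0 := by simp [ay]
@[simp] theorem ax_X : ax X = 1 := by simp [ax, ab4, X]
@[simp] theorem ay_X : ay X = 0 := by simp [ay, ab4, X]
@[simp] theorem ax_Y : ax Y = 0 := by simp [ax, ab4, Y]
@[simp] theorem ay_Y : ay Y = 1 := by simp [ay, ab4, Y]

theorem lin_of_gens (φ : MulAut F2) (p q r s : ZMod 4) (h1 : ax (φ X) = p) (h2 : ax (φ Y) = q)
    (h3 : ay (φ X) = r) (h4 : ay (φ Y) = s) (w : F2) :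
    ax (φ w) = p * ax w + q * ay w ∧ ay (φ w) = r * ax w + s * ay w := by
  induction w using FreeGroup.induction_on with
  | C1 => simp
  | of i =>
    fin_cases i
    · change ax (φ X) = p * ax X + q * ay X ∧ ay (φ X) = r * ax X + s * ay X
      simp [h1, h3]
    · change ax (φ Y) = p * ax Y + q * ay Y ∧ ay (φ Y) = r * ax Y + s * ay Y
      simp [h2, h4]
  | inv_of i ih =>
    rw [map_inv, ax_inv, ay_inv, ax_inv, ay_inv, ih.1, ih.2]
    constructor <;> ring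
  | mul v w hv hw =>
    rw [map_mul, ax_mul, ay_mul, ax_mul, ay_mul, hv.1, hv.2, hw.1, hw.2]
    constructor <;> ring

/-- The automorphisms in `R` are unipotent modulo two with diagonal entries `1` modulo four. -/
theorem R_shape {φ : MulAut F2} (h : φ ∈ R) : ∃ c d : ZMod 4, ∀ w : F2,
    ax (φ w) = ax w + 2 * c * ay w ∧ ay (φ w) = ay w + 2 * d * ax w := by
  have h4 : (4 : ZMod 4) = 0 := by decide
  induction h using Subgroup.closure_induction with
  | mem s hs =>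
    rcases hs with ⟨g, rfl⟩ | hs
    · exact ⟨0, 0, fun w => by rw [MulAut.conj_apply]; simp⟩
    · simp only [Set.mem_insert_iff, Set.mem_singleton_iff] at hs
      rcases hs with rfl | rfl
      · refine ⟨1, 0, fun w => ?_⟩
        have := lin_of_gens sg 1 2 0 1 (by simp) (by simp; decide) (by simp) (by simp) w
        rw [this.1, this.2]
        constructor <;> ring
      · refine ⟨0, 1, fun w => ?_⟩
        have := lin_of_gens tu 1 0 2 1 (by simp) (by simp) (by simp; decide) (by simp) w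
        rw [this.1, this.2]
        constructor <;> ring
  | one => exact ⟨0, 0, fun w => by simp⟩
  | mul φ ψ _ _ hφ hψ =>
    obtain ⟨c, d, h1⟩ := hφ
    obtain ⟨c', d', h2⟩ := hψ
    refine ⟨c + c', d + d', fun w => ?_⟩
    rw [MulAut.mul_apply, (h1 _).1, (h1 _).2, (h2 _).1, (h2 _).2]
    constructor
    · linear_combination c * d' * ax w * h4
    · linear_combination d * c' * ay w * h4
  | inv φ _ hφ =>
    obtain ⟨c, d, h1⟩ := hφ
    refine ⟨-c, -d, fun w => ?_⟩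
    have h2 := h1 (φ⁻¹ w)
    rw [MulAut.apply_inv_self] at h2
    obtain ⟨h2, h3⟩ := h2
    constructor
    · linear_combination -h2 + 2 * c * h3 + c * d * ax (φ⁻¹ w) * h4
    · linear_combination -h3 + 2 * d * h2 + d * c * ay (φ⁻¹ w) * h4

theorem ix_norm {k : MulAut F2} (hk : k ∈ R) : ix * k * ix⁻¹ ∈ R := by
  refine normalizes_of_gens _ _ ?_ hk
  rintro s (⟨g, rfl⟩ | hs)
  · rw [conj_aut]; exact conj_mem_R _
  · simp only [Set.mem_insert_iff, Set.mem_singleton_iff] at hs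
    rcases hs with rfl | rfl
    · rw [rel11]; exact inv_mem sg_mem_R
    · rw [rel12]; exact mul_mem (conj_mem_R _) (inv_mem tu_mem_R)

theorem iy_norm {k : MulAut F2} (hk : k ∈ R) : iy * k * iy⁻¹ ∈ R := by
  refine normalizes_of_gens _ _ ?_ hk
  rintro s (⟨g, rfl⟩ | hs)
  · rw [conj_aut]; exact conj_mem_R _
  · simp only [Set.mem_insert_iff, Set.mem_singleton_iff] at hs
    rcases hs with rfl | rfl
    · rw [rel13]; exact mul_mem (conj_mem_R _) (inv_mem sg_mem_R)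
    · rw [rel14]; exact inv_mem tu_mem_R

theorem ix_iy : ix * iy = iy * ix := aut_ext (by simp) (by simp)

theorem K2_cosets {φ : MulAut F2} (h : φ ∈ K2) : φ ∈ R ∨ (∃ r ∈ R, φ = r * ix) ∨
    (∃ r ∈ R, φ = r * iy) ∨ (∃ r ∈ R, φ = r * (ix * iy)) := by
  have hRmul : ∀ s ∈ R, ∀ ψ : MulAut F2, (ψ ∈ R ∨ (∃ r ∈ R, ψ = r * ix) ∨
      (∃ r ∈ R, ψ = r * iy) ∨ (∃ r ∈ R, ψ = r * (ix * iy))) → (s * ψ ∈ R ∨
      (∃ r ∈ R, s * ψ = r * ix) ∨ (∃ r ∈ R, s * ψ = r * iy) ∨
      (∃ r ∈ R, s * ψ = r * (ix * iy))) := by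
    intro s hs ψ hψ
    rcases hψ with h | ⟨r, hr, rfl⟩ | ⟨r, hr, rfl⟩ | ⟨r, hr, rfl⟩
    · exact Or.inl (mul_mem hs h)
    · exact Or.inr (Or.inl ⟨s * r, mul_mem hs hr, (mul_assoc _ _ _).symm⟩)
    · exact Or.inr (Or.inr (Or.inl ⟨s * r, mul_mem hs hr, (mul_assoc _ _ _).symm⟩))
    · exact Or.inr (Or.inr (Or.inr ⟨s * r, mul_mem hs hr, (mul_assoc _ _ _).symm⟩))
  have hix : ∀ ψ : MulAut F2, (ψ ∈ R ∨ (∃ r ∈ R, ψ = r * ix) ∨
      (∃ r ∈ R, ψ = r * iy) ∨ (∃ r ∈ R, ψ = r * (ix * iy))) → (ix * ψ ∈ R ∨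
      (∃ r ∈ R, ix * ψ = r * ix) ∨ (∃ r ∈ R, ix * ψ = r * iy) ∨
      (∃ r ∈ R, ix * ψ = r * (ix * iy))) := by
    intro ψ hψ
    rcases hψ with h | ⟨r, hr, rfl⟩ | ⟨r, hr, rfl⟩ | ⟨r, hr, rfl⟩
    · exact Or.inr (Or.inl ⟨_, ix_norm h, by group⟩)
    · refine Or.inl ?_
      have := ix_norm hr
      rwa [ix_inv, mul_assoc] at this
    · exact Or.inr (Or.inr (Or.inr ⟨_, ix_norm hr, by group⟩))
    · refine Or.inr (Or.inr (Or.inl ⟨_, ix_norm hr, ?_⟩))
      have : ix * r * ix⁻¹ * iy = ix * r * (ix * iy) := by rw [ix_inv]; group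
      rw [this]; group
  have hiy : ∀ ψ : MulAut F2, (ψ ∈ R ∨ (∃ r ∈ R, ψ = r * ix) ∨
      (∃ r ∈ R, ψ = r * iy) ∨ (∃ r ∈ R, ψ = r * (ix * iy))) → (iy * ψ ∈ R ∨
      (∃ r ∈ R, iy * ψ = r * ix) ∨ (∃ r ∈ R, iy * ψ = r * iy) ∨
      (∃ r ∈ R, iy * ψ = r * (ix * iy))) := by
    intro ψ hψ
    rcases hψ with h | ⟨r, hr, rfl⟩ | ⟨r, hr, rfl⟩ | ⟨r, hr, rfl⟩
    · exact Or.inr (Or.inr (Or.inl ⟨_, iy_norm h, by group⟩))
    · refine Or.inr (Or.inr (Or.inr ⟨_, iy_norm hr, ?_⟩))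
      rw [ix_iy]; group
    · refine Or.inl ?_
      have := iy_norm hr
      rwa [iy_inv, mul_assoc] at this
    · refine Or.inr (Or.inl ⟨_, iy_norm hr, ?_⟩)
      have : iy * r * iy⁻¹ * ix = iy * r * (iy * ix) := by rw [iy_inv]; group
      rw [this, ix_iy]; group
  induction h using Subgroup.closure_induction_left with
  | one => exact Or.inl (one_mem _)
  | mul_left s hs ψ _ ih =>
    rcases hs with ⟨g, rfl⟩ | hs
    · exact hRmul _ (conj_mem_R g) _ ih
    · simp only [Set.mem_insert_iff, Set.mem_singleton_iff] at hs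
      rcases hs with rfl | rfl | rfl | rfl
      · exact hRmul _ sg_mem_R _ ih
      · exact hRmul _ tu_mem_R _ ih
      · exact hix _ ih
      · exact hiy _ ih
  | inv_mul_cancel s hs ψ _ ih =>
    rcases hs with ⟨g, rfl⟩ | hs
    · exact hRmul _ (inv_mem (conj_mem_R g)) _ ih
    · simp only [Set.mem_insert_iff, Set.mem_singleton_iff] at hs
      rcases hs with rfl | rfl | rfl | rfl
      · exact hRmul _ (inv_mem sg_mem_R) _ ih
      · exact hRmul _ (inv_mem tu_mem_R) _ ih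
      · rw [ix_inv]; exact hix _ ih
      · rw [iy_inv]; exact hiy _ ih

theorem mem_R_of_mem_K2 {φ : MulAut F2} (h : φ ∈ K2) (hx : ax (φ X) = 1) (hy : ay (φ Y) = 1) :
    φ ∈ R := by
  have h2 : ∀ c : ZMod 4, -(1 : ZMod 4) ≠ 1 := by decide
  rcases K2_cosets h with h | ⟨r, hr, rfl⟩ | ⟨r, hr, rfl⟩ | ⟨r, hr, rfl⟩
  · exact h
  · exfalso
    obtain ⟨c, d, h1⟩ := R_shape hr
    rw [MulAut.mul_apply, ix_X, map_inv, ax_inv, (h1 X).1] at hx
    simp at hx
    exact h2 0 hx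
  · exfalso
    obtain ⟨c, d, h1⟩ := R_shape hr
    rw [MulAut.mul_apply, iy_Y, map_inv, ay_inv, (h1 Y).2] at hy
    simp at hy
    exact h2 0 hy
  · exfalso
    obtain ⟨c, d, h1⟩ := R_shape hr
    rw [MulAut.mul_apply, MulAut.mul_apply, iy_X, ix_X, map_inv, ax_inv, (h1 X).1] at hx
    simp at hx
    exact h2 0 hx

/-- Elements of `K2` preserve exponent sums modulo two. -/
theorem K2_shape {φ : MulAut F2} (h : φ ∈ K2) : ∀ w : F2,
    2 * ax (φ w) = 2 * ax w ∧ 2 * ay (φ w) = 2 * ay w := by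
  have h4 : (4 : ZMod 4) = 0 := by decide
  have key : ∀ r ∈ R, ∀ w : F2, 2 * ax (r w) = 2 * ax w ∧ 2 * ay (r w) = 2 * ay w := by
    intro r hr w
    obtain ⟨c, d, h1⟩ := R_shape hr
    rw [(h1 w).1, (h1 w).2]
    constructor
    · linear_combination c * ay w * h4
    · linear_combination d * ax w * h4
  have kx : ∀ w : F2, 2 * ax (ix w) = 2 * ax w ∧ 2 * ay (ix w) = 2 * ay w := by
    intro w
    have := lin_of_gens ix (-1) 0 0 1 (by simp) (by simp) (by simp) (by simp) w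
    rw [this.1, this.2]
    constructor
    · linear_combination (-ax w) * h4
    · ring
  have ky : ∀ w : F2, 2 * ax (iy w) = 2 * ax w ∧ 2 * ay (iy w) = 2 * ay w := by
    intro w
    have := lin_of_gens iy 1 0 0 (-1) (by simp) (by simp) (by simp) (by simp) w
    rw [this.1, this.2]
    constructor
    · ring
    · linear_combination (-ay w) * h4
  rcases K2_cosets h with h | ⟨r, hr, rfl⟩ | ⟨r, hr, rfl⟩ | ⟨r, hr, rfl⟩
  · exact key _ h
  · intro w
    rw [MulAut.mul_apply, (key r hr _).1, (key r hr _).2]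
    exact kx w
  · intro w
    rw [MulAut.mul_apply, (key r hr _).1, (key r hr _).2]
    exact ky w
  · intro w
    rw [MulAut.mul_apply, MulAut.mul_apply, (key r hr _).1, (key r hr _).2, (kx _).1, (kx _).2]
    exact ky w

/-- If `φ = t k` with `k ∈ K2` and `φ` preserves exponent sums modulo four then `t` preserves
exponent sums modulo two. -/
theorem t_shape {φ t k : MulAut F2} (hk : k ∈ K2) (h : φ = t * k)
    (hφ : ∀ w, ax (φ w) = ax w ∧ ay (φ w) = ay w) (w : F2) :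
    2 * ax (t w) = 2 * ax w ∧ 2 * ay (t w) = 2 * ay w := by
  have h1 : t w = φ (k⁻¹ w) := by
    rw [h, MulAut.mul_apply, MulAut.apply_inv_self]
  have h2 := K2_shape (inv_mem hk) w
  rw [h1, (hφ _).1, (hφ _).2]
  exact h2

/-- An automorphism preserving exponent sums modulo four is in `⟨Inn, σ, τ⟩`. -/
theorem mem_R_of_trivial {φ : MulAut F2} (hφ : ∀ w, ax (φ w) = ax w ∧ ay (φ w) = ay w) :
    φ ∈ R := by
  have hK2 : φ ∈ K2 := by
    rcases mem_cosets φ with h | ⟨k, hk, h⟩ | ⟨k, hk, h⟩ | ⟨k, hk, h⟩ | ⟨k, hk, h⟩ | ⟨k, hk, h⟩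
    · exact h
    · exfalso
      have := (t_shape hk h hφ X).1
      simp at this
      revert this; decide
    · exfalso
      have := (t_shape hk h hφ X).2
      simp at this
      revert this; decide
    · exfalso
      have := (t_shape hk h hφ Y).1
      simp [MulAut.mul_apply] at this
      revert this; decide
    · exfalso
      have := (t_shape hk h hφ X).1
      simp [MulAut.mul_apply] at this
      revert this; decide
    · exfalso
      have := (t_shape hk h hφ Y).1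
      simp [MulAut.mul_apply] at this
      revert this; decide
  refine mem_R_of_mem_K2 hK2 ?_ ?_
  · rw [(hφ X).1, ax_X]
  · rw [(hφ Y).2, ay_Y]

end Pool.Agent.CSPHier
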