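import Mathlib
import Pool.Agent.CSPHier.Levels
import Pool.Agent.CSPHier.Rank2

set_option autoImplicit false

/-! The congruence subgroup property for the automorphism group of the free group of rank two. -/

namespace Pool.Agent.CSPHier

/-! ### The centralizer of the boundary word modulo levels -/

/-- The boundary word. -/
def bw : F2 := X * Y⁻¹ * X⁻¹ * Y

section centralizer

variable (M : Subgroup F2) [M.Normal]

open Classical in
/-- The permutations attached to the basis elements. -/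
noncomputable def foxX : Equiv.Perm ((F2 ⧸ M) × ZMod 3) where
  toFun a := ((X : F2 ⧸ M) * a.1, a.2 + if a.1 = 1 then 1 else 0)
  invFun a := ((X : F2 ⧸ M)⁻¹ * a.1, a.2 - if (X : F2 ⧸ M)⁻¹ * a.1 = 1 then 1 else 0)
  left_inv := by intro a; simp
  right_inv := by intro a; simp

/-- The permutations attached to the basis elements. -/
def foxY : Equiv.Perm ((F2 ⧸ M) × ZMod 3) where
  toFun a := ((Y : F2 ⧸ M) * a.1, a.2)
  invFun a := ((Y : F2 ⧸ M)⁻¹ * a.1, a.2)
  left_inv := by intro a; simp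
  right_inv := by intro a; simp

/-- The Fox representation. -/
noncomputable def fox : F2 →* Equiv.Perm ((F2 ⧸ M) × ZMod 3) :=
  FreeGroup.lift ![foxX M, foxY M]

theorem fox_X : fox M X = foxX M := by simp [fox, X]
theorem fox_Y : fox M Y = foxY M := by simp [fox, Y]

theorem fox_form (w : F2) : ∃ m : F2 ⧸ M → ZMod 3, ∀ a : (F2 ⧸ M) × ZMod 3,
    fox M w a = ((w : F2 ⧸ M) * a.1, a.2 + m a.1) := by
  classical
  have hinv : ∀ w : F2, (∃ m : F2 ⧸ M → ZMod 3, ∀ a : (F2 ⧸ M) × ZMod 3,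
      fox M w a = ((w : F2 ⧸ M) * a.1, a.2 + m a.1)) →
      ∃ m : F2 ⧸ M → ZMod 3, ∀ a : (F2 ⧸ M) × ZMod 3,
      fox M w⁻¹ a = (((w⁻¹ : F2) : F2 ⧸ M) * a.1, a.2 + m a.1) := by
    rintro w ⟨m, hm⟩
    refine ⟨fun h => - m ((w : F2 ⧸ M)⁻¹ * h), fun a => ?_⟩
    rw [map_inv, Equiv.Perm.inv_eq_iff_eq, hm]
    refine Prod.ext ?_ ?_
    · simp
    · simp
  induction w using FreeGroup.induction_on with
  | C1 => exact ⟨0, fun a => by simp⟩
  | of j =>
    fin_cases j
    · refine ⟨fun h => if h = 1 then 1 else 0, fun a => ?_⟩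
      change fox M X a = _
      rw [fox_X]
      rfl
    · refine ⟨0, fun a => ?_⟩
      change fox M Y a = _
      rw [fox_Y]
      simp [foxY, Y]
  | inv_of j ih => exact hinv _ ih
  | mul x y hx hy =>
    obtain ⟨m, hm⟩ := hx
    obtain ⟨m', hm'⟩ := hy
    refine ⟨fun h => m' h + m ((y : F2 ⧸ M) * h), fun a => ?_⟩
    rw [map_mul, Equiv.Perm.mul_apply, hm', hm]
    refine Prod.ext ?_ ?_
    · simp [mul_assoc]
    · simp [add_assoc]

open Classical in
theorem fox_bw (a : (F2 ⧸ M) × ZMod 3) : fox M bw a =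
    ((bw : F2 ⧸ M) * a.1, a.2 + ((if a.1 = ((Y⁻¹ * X * Y : F2) : F2 ⧸ M) then 1 else 0) -
      (if a.1 = ((Y⁻¹ * X : F2) : F2 ⧸ M) then 1 else 0))) := by
  have e1 : (X : F2 ⧸ M)⁻¹ * ((Y : F2 ⧸ M) * a.1) = 1 ↔ a.1 = ((Y⁻¹ * X : F2) : F2 ⧸ M) := by
    rw [QuotientGroup.mk_mul, QuotientGroup.mk_inv]
    constructor
    · intro h
      have h2 : a.1 = (Y : F2 ⧸ M)⁻¹ * (X : F2 ⧸ M) *
        ((X : F2 ⧸ M)⁻¹ * ((Y : F2 ⧸ M) * a.1)) := by group
      rw [h2, h, mul_one]
    · intro h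
      rw [h]; group
  have e2 : (Y : F2 ⧸ M)⁻¹ * ((X : F2 ⧸ M)⁻¹ * ((Y : F2 ⧸ M) * a.1)) = 1 ↔
      a.1 = ((Y⁻¹ * X * Y : F2) : F2 ⧸ M) := by
    rw [QuotientGroup.mk_mul, QuotientGroup.mk_mul, QuotientGroup.mk_inv]
    constructor
    · intro h
      have h2 : a.1 = (Y : F2 ⧸ M)⁻¹ * (X : F2 ⧸ M) * (Y : F2 ⧸ M) *
        ((Y : F2 ⧸ M)⁻¹ * ((X : F2 ⧸ M)⁻¹ * ((Y : F2 ⧸ M) * a.1))) := by group
      rw [h2, h, mul_one]
    · intro h
      rw [h]; group
  have h1 : fox M bw = foxX M * (foxY M)⁻¹ * (foxX M)⁻¹ * foxY M := by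
    rw [bw, map_mul, map_mul, map_mul, map_inv, map_inv, fox_X, fox_Y]
  rw [h1, Equiv.Perm.mul_apply, Equiv.Perm.mul_apply, Equiv.Perm.mul_apply]
  refine Prod.ext ?_ ?_
  · simp [foxX, foxY, bw, Equiv.Perm.inv_def, mul_assoc]
  · simp only [foxX, foxY, Equiv.Perm.inv_def, Equiv.coe_fn_mk, Equiv.coe_fn_symm_mk]
    simp only [e1, e2]
    ring

/-- Modulo a deep level, the centralizer of the boundary word is generated by it. -/
theorem centralizer_bw (hM : M.FiniteIndex) (hMy : ∀ w ∈ M, ay w = 0) :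
    ∃ m : ℕ, ∀ g : F2, g * bw * g⁻¹ * bw⁻¹ ∈ L F2 m → ∃ i : ℤ, (bw ^ i)⁻¹ * g ∈ M := by
  classical
  obtain ⟨m0, hm0⟩ := L_le_ker_perm ((F2 ⧸ M) × ZMod 3)
  refine ⟨m0, fun g hg => ?_⟩
  have h1 := hm0 (fox M) hg
  rw [MonoidHom.mem_ker, map_mul, map_inv] at h1
  have h2 := mul_inv_eq_one.mp h1
  have h3 : fox M g * fox M bw = fox M bw * fox M g := by
    calc fox M g * fox M bw = fox M (g * bw * g⁻¹) * fox M g := by
          rw [map_mul, map_mul, map_inv, inv_mul_cancel_right]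
      _ = fox M bw * fox M g := by rw [h2]
  obtain ⟨μ, hμ⟩ := fox_form M g
  obtain ⟨c, hc⟩ : ∃ c, c = (bw : F2 ⧸ M) := ⟨_, rfl⟩
  obtain ⟨γ, hγ⟩ : ∃ γ, γ = (g : F2 ⧸ M) := ⟨_, rfl⟩
  obtain ⟨A1, hA1⟩ : ∃ A, A = ((Y⁻¹ * X * Y : F2) : F2 ⧸ M) := ⟨_, rfl⟩
  obtain ⟨A2, hA2⟩ : ∃ A, A = ((Y⁻¹ * X : F2) : F2 ⧸ M) := ⟨_, rfl⟩
  obtain ⟨κ, hκ⟩ : ∃ κ : F2 ⧸ M → ZMod 3, κ = fun h => (if h = A1 then 1 else 0) -
      (if h = A2 then 1 else 0) := ⟨_, rfl⟩
  have hbw : ∀ a, fox M bw a = (c * a.1, a.2 + κ a.1) := by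
    intro a
    rw [fox_bw, hκ, hA1, hA2, hc]
  have key : ∀ h : F2 ⧸ M, γ * (c * h) = c * (γ * h) ∧ κ h + μ (c * h) = μ h + κ (γ * h) := by
    intro h
    have h4 := congrArg (fun e : Equiv.Perm ((F2 ⧸ M) × ZMod 3) => e (h, 0)) h3
    simp only [Equiv.Perm.mul_apply, hbw, hμ, zero_add, Prod.mk.injEq, ← hγ] at h4
    exact h4
  have hcomm : ∀ i : ℕ, ∀ h : F2 ⧸ M, γ * (c ^ i * h) = c ^ i * (γ * h) := by
    intro i
    induction i with
    | zero => intro h; simp
    | succ i ih =>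
      intro h
      rw [pow_succ', mul_assoc, (key _).1, ih, mul_assoc]
  obtain ⟨N, hN⟩ : ∃ N, N = orderOf c := ⟨_, rfl⟩
  have hNpos : 0 < N := by rw [hN]; exact orderOf_pos c
  have hcN : c ^ N = 1 := by rw [hN]; exact pow_orderOf_eq_one c
  have hsum : ∀ h : F2 ⧸ M, ∑ i ∈ Finset.range N, κ (c ^ i * h) =
      ∑ i ∈ Finset.range N, κ (c ^ i * (γ * h)) := by
    intro h
    have h5 : ∑ i ∈ Finset.range N, (μ (c ^ (i + 1) * h) - μ (c ^ i * h)) = 0 := by
      rw [Finset.sum_range_sub (fun i => μ (c ^ i * h)) N, hcN]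
      simp
    have h6 : ∀ i ∈ Finset.range N, κ (c ^ i * h) = κ (c ^ i * (γ * h)) -
        (μ (c ^ (i + 1) * h) - μ (c ^ i * h)) := by
      intro i _
      have h7 := (key (c ^ i * h)).2
      rw [hcomm, ← mul_assoc c, ← pow_succ'] at h7
      linear_combination h7
    rw [Finset.sum_congr rfl h6, Finset.sum_sub_distrib, h5, sub_zero]
  by_contra hcon
  push Not at hcon
  have hcon' : ∀ i : ℕ, c ^ i * γ ≠ 1 := by
    intro i h
    apply hcon (-(i : ℤ))
    rw [← QuotientGroup.eq_one_iff]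
    rw [QuotientGroup.mk_mul, QuotientGroup.mk_inv, QuotientGroup.mk_zpow, ← hc, ← hγ, zpow_neg,
      inv_inv, zpow_natCast]
    exact h
  have hay : ∀ v w : F2, (v : F2 ⧸ M) = (w : F2 ⧸ M) → ay v = ay w := by
    intro v w h
    rw [QuotientGroup.eq] at h
    have := hMy _ h
    rw [ay_mul, ay_inv] at this
    linear_combination -this
  have hA12 : ∀ i : ℕ, c ^ i * A1 ≠ A2 := by
    intro i h
    rw [hc, hA1, hA2, ← QuotientGroup.mk_pow, ← QuotientGroup.mk_mul] at h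
    have h5 := hay _ _ h
    have h6 : ∀ i : ℕ, ay (bw ^ i) = 0 := by
      intro i
      induction i with
      | zero => simp
      | succ i ih => rw [pow_succ, ay_mul, ih]; simp [bw]
    rw [ay_mul, h6] at h5
    simp at h5
    revert h5; decide
  have hl : ∑ i ∈ Finset.range N, κ (c ^ i * A1) = 1 := by
    rw [Finset.sum_eq_single_of_mem 0 (Finset.mem_range.mpr hNpos)]
    · have := hA12 0
      rw [pow_zero, one_mul] at this
      simp [hκ, this]
    · intro i hi hi0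
      have h5 : c ^ i * A1 ≠ A1 := by
        intro h
        have h6 : c ^ i = 1 := mul_eq_right.mp h
        have h7 := orderOf_dvd_of_pow_eq_one h6
        rw [← hN] at h7
        have := Nat.le_of_dvd (Nat.pos_of_ne_zero hi0) h7
        have := Finset.mem_range.mp hi
        omega
      simp [hκ, h5, hA12 i]
  have hr : ∀ i : ℕ, κ (c ^ i * (γ * A1)) = - (if c ^ i * (γ * A1) = A2 then 1 else 0) := by
    intro i
    have h5 : c ^ i * (γ * A1) ≠ A1 := by
      intro h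
      rw [← mul_assoc] at h
      exact hcon' i (mul_eq_right.mp h)
    simp [hκ, h5]
  have h8 := hsum A1
  rw [hl, Finset.sum_congr rfl (fun i _ => hr i)] at h8
  by_cases hex : ∃ i ∈ Finset.range N, c ^ i * (γ * A1) = A2
  · obtain ⟨i, hi, h9⟩ := hex
    rw [Finset.sum_eq_single_of_mem i hi] at h8
    · rw [if_pos h9] at h8
      revert h8; decide
    · intro j hj hji
      rw [if_neg, neg_zero]
      intro h10
      rw [← h9] at h10
      have h11 := mul_right_cancel h10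
      apply hji
      refine pow_injOn_Iio_orderOf ?_ ?_ h11
      · rw [Set.mem_Iio, ← hN]; exact Finset.mem_range.mp hj
      · rw [Set.mem_Iio, ← hN]; exact Finset.mem_range.mp hi
  · push Not at hex
    rw [Finset.sum_eq_zero] at h8
    · exact one_ne_zero h8
    · intro i hi
      rw [if_neg (hex i hi), neg_zero]

end centralizer

/-! ### The center modulo levels -/

theorem center_level (m' : ℕ) : ∃ m : ℕ, ∀ z : F2, z * X * z⁻¹ * X⁻¹ ∈ L F2 m →
    z * Y * z⁻¹ * Y⁻¹ ∈ L F2 m → z ∈ L F2 m' := by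
  have hfin : ∀ S : Set (Fin 2), (fac S ⊔ L F2 m').FiniteIndex := fun S =>
    Subgroup.finiteIndex_of_le (H := L F2 m') le_sup_right
  obtain ⟨m1, hm1⟩ := malnormal (fac {(0 : Fin 2)} ⊔ L F2 m') (hfin _) {(0 : Fin 2)} le_sup_left 0
    (Set.mem_singleton _)
  obtain ⟨m2, hm2⟩ := malnormal (fac {(1 : Fin 2)} ⊔ L F2 m') (hfin _) {(1 : Fin 2)} le_sup_left 1
    (Set.mem_singleton _)
  refine ⟨max m1 m2, fun z h1 h2 => ?_⟩
  refine mem_L_of_mem_sup (S := {(0 : Fin 2)}) (T := {(1 : Fin 2)}) (by simp) ?_ ?_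
  · exact hm1 z X (of_mem_fac (Set.mem_singleton _)) (L_anti (le_max_left _ _) h1)
  · exact hm2 z Y (of_mem_fac (Set.mem_singleton _)) (L_anti (le_max_right _ _) h2)

/-! ### The four-sheeted representation -/

section psi

variable {S : Type} [Group S] (a b : S)

/-- permutation of the sheets -/
def px : Fin 4 → Fin 4 := ![3, 2, 1, 0]
/-- permutation of the sheets -/
def py : Fin 4 → Fin 4 := ![1, 0, 3, 2]
/-- cocycle -/
def mx : Fin 4 → S := ![a, a⁻¹, 1, 1]
/-- cocycle -/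
def my : Fin 4 → S := ![1, b, b⁻¹, 1]

theorem px_px (v : Fin 4) : px (px v) = v := by fin_cases v <;> rfl
theorem py_py (v : Fin 4) : py (py v) = v := by fin_cases v <;> rfl

/-- image of `x` -/
def psiX : Equiv.Perm (Fin 4 × S) where
  toFun p := (px p.1, mx a p.1 * p.2)
  invFun p := (px p.1, (mx a (px p.1))⁻¹ * p.2)
  left_inv := by intro p; simp [px_px]
  right_inv := by intro p; simp [px_px]

/-- image of `y` -/
def psiY : Equiv.Perm (Fin 4 × S) where
  toFun p := (py p.1, my b p.1 * p.2)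
  invFun p := (py p.1, (my b (py p.1))⁻¹ * p.2)
  left_inv := by intro p; simp [py_py]
  right_inv := by intro p; simp [py_py]

/-- The four-sheeted representation. -/
def psi : F2 →* Equiv.Perm (Fin 4 × S) := FreeGroup.lift ![psiX a, psiY b]

theorem psi_X : psi a b X = psiX a := by simp [psi, X]
theorem psi_Y : psi a b Y = psiY b := by simp [psi, Y]

/-- The diagonal permutations. -/
def dia (d : Fin 4 → S) : Equiv.Perm (Fin 4 × S) where
  toFun p := (p.1, d p.1 * p.2)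
  invFun p := (p.1, (d p.1)⁻¹ * p.2)
  left_inv := by intro p; simp
  right_inv := by intro p; simp

/-- The conjugating permutations. -/
def cj : F2 →* Equiv.Perm (Fin 4 × S) := FreeGroup.lift ![dia ![a, 1, 1, a], dia ![b, b, 1, 1]]

theorem cj_X : cj a b X = dia ![a, 1, 1, a] := by simp [cj, X]
theorem cj_Y : cj a b Y = dia ![b, b, 1, 1] := by simp [cj, Y]

/-- The section. -/
def sec : F2 →* MulAut F2 := FreeGroup.lift ![sg, tu]

theorem sec_X : sec X = sg := by simp [sec, X]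
theorem sec_Y : sec Y = tu := by simp [sec, Y]

theorem psi_sg (w : F2) : psi a b (sg w) = cj a b X * psi a b w * (cj a b X)⁻¹ := by
  have h : (psi a b).comp (sg : MulAut F2).toMonoidHom =
      (MulAut.conj (cj a b X)).toMonoidHom.comp (psi a b) := by
    refine hom_ext ?_ ?_
    · change psi a b (sg X) = cj a b X * psi a b X * (cj a b X)⁻¹
      rw [sg_X, eq_mul_inv_iff_mul_eq, psi_X, cj_X]
      ext1 ⟨v, e⟩
      rw [Equiv.Perm.mul_apply, Equiv.Perm.mul_apply]
      fin_cases v <;> simp [psiX, dia, px, mx]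
    · change psi a b (sg Y) = cj a b X * psi a b Y * (cj a b X)⁻¹
      rw [sg_Y, eq_mul_inv_iff_mul_eq, map_mul, map_mul, psi_X, psi_Y, cj_X]
      ext1 ⟨v, e⟩
      simp only [Equiv.Perm.mul_apply]
      fin_cases v <;> simp [psiX, psiY, dia, px, py, mx, my]
  exact DFunLike.congr_fun h w

theorem psi_tu (w : F2) : psi a b (tu w) = cj a b Y * psi a b w * (cj a b Y)⁻¹ := by
  have h : (psi a b).comp (tu : MulAut F2).toMonoidHom =
      (MulAut.conj (cj a b Y)).toMonoidHom.comp (psi a b) := by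
    refine hom_ext ?_ ?_
    · change psi a b (tu X) = cj a b Y * psi a b X * (cj a b Y)⁻¹
      rw [tu_X, eq_mul_inv_iff_mul_eq, map_mul, map_mul, map_inv, psi_X, psi_Y, cj_Y]
      ext1 ⟨v, e⟩
      simp only [Equiv.Perm.mul_apply, Equiv.Perm.inv_def]
      fin_cases v <;> simp [psiX, psiY, dia, px, py, mx, my]
    · change psi a b (tu Y) = cj a b Y * psi a b Y * (cj a b Y)⁻¹
      rw [tu_Y, eq_mul_inv_iff_mul_eq, psi_Y, cj_Y]
      ext1 ⟨v, e⟩
      simp only [Equiv.Perm.mul_apply]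
      fin_cases v <;> simp [psiY, dia, py, my]
  exact DFunLike.congr_fun h w

theorem psi_sec (e w : F2) : psi a b (sec e w) = cj a b e * psi a b w * (cj a b e)⁻¹ := by
  have hinv : ∀ e : F2, (∀ w, psi a b (sec e w) = cj a b e * psi a b w * (cj a b e)⁻¹) →
      ∀ w, psi a b (sec e⁻¹ w) = cj a b e⁻¹ * psi a b w * (cj a b e⁻¹)⁻¹ := by
    intro e he w
    have h1 := he (sec e⁻¹ w)
    rw [← MulAut.mul_apply, ← map_mul, mul_inv_cancel, map_one, MulAut.one_apply] at h1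
    have h2 : cj a b e⁻¹ = (cj a b e)⁻¹ := map_inv _ _
    rw [h1, h2]
    simp [mul_assoc]
  induction e using FreeGroup.induction_on generalizing w with
  | C1 => simp
  | of i =>
    fin_cases i
    · change psi a b (sec X w) = cj a b X * psi a b w * (cj a b X)⁻¹
      rw [sec_X]; exact psi_sg a b w
    · change psi a b (sec Y w) = cj a b Y * psi a b w * (cj a b Y)⁻¹
      rw [sec_Y]; exact psi_tu a b w
  | inv_of i ih => exact hinv _ ih w
  | mul u v hu hv =>
    rw [map_mul, MulAut.mul_apply, hu, hv, map_mul]; group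

/-- The homomorphism with given values. -/
def toS : F2 →* S := FreeGroup.lift ![a, b]

theorem toS_X : toS a b X = a := by simp [toS, X]
theorem toS_Y : toS a b Y = b := by simp [toS, Y]

theorem cj_zero (e : F2) (h : S) : cj a b e (0, h) = (0, toS a b e * h) := by
  have hinv : ∀ e : F2, (∀ h, cj a b e (0, h) = (0, toS a b e * h)) →
      ∀ h, cj a b e⁻¹ (0, h) = (0, toS a b e⁻¹ * h) := by
    intro e he h
    rw [map_inv, Equiv.Perm.inv_eq_iff_eq, he, map_inv, mul_inv_cancel_left]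
  induction e using FreeGroup.induction_on generalizing h with
  | C1 => simp
  | of i =>
    fin_cases i
    · change cj a b X (0, h) = (0, toS a b X * h)
      rw [cj_X, toS_X]; rfl
    · change cj a b Y (0, h) = (0, toS a b Y * h)
      rw [cj_Y, toS_Y]; rfl
  | inv_of i ih => exact hinv _ ih h
  | mul u v hu hv =>
    rw [map_mul, Equiv.Perm.mul_apply, hv, hu, map_mul, mul_assoc]

theorem psi_right (w : F2) (v : Fin 4) (e h : S) :
    psi a b w (v, e * h) = ((psi a b w (v, e)).1, (psi a b w (v, e)).2 * h) := by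
  have hinv : ∀ w : F2, (∀ v e h, psi a b w (v, e * h) =
      ((psi a b w (v, e)).1, (psi a b w (v, e)).2 * h)) → ∀ v e h, psi a b w⁻¹ (v, e * h) =
      ((psi a b w⁻¹ (v, e)).1, (psi a b w⁻¹ (v, e)).2 * h) := by
    intro w hw v e h
    have h1 : psi a b w (psi a b w⁻¹ (v, e)) = (v, e) := by
      rw [← Equiv.Perm.mul_apply, ← map_mul, mul_inv_cancel, map_one, Equiv.Perm.one_apply]
    have h2 := hw (psi a b w⁻¹ (v, e)).1 (psi a b w⁻¹ (v, e)).2 h
    rw [Prod.mk.eta, h1] at h2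
    have h3 : psi a b w⁻¹ (v, e * h) = psi a b w⁻¹ (psi a b w ((psi a b w⁻¹ (v, e)).1,
        (psi a b w⁻¹ (v, e)).2 * h)) := by rw [h2]
    rw [h3, ← Equiv.Perm.mul_apply, ← map_mul, inv_mul_cancel, map_one, Equiv.Perm.one_apply]
  induction w using FreeGroup.induction_on generalizing v e h with
  | C1 => simp
  | of i =>
    fin_cases i
    · change psi a b X (v, e * h) = ((psi a b X (v, e)).1, (psi a b X (v, e)).2 * h)
      rw [psi_X]; simp [psiX, mul_assoc]
    · change psi a b Y (v, e * h) = ((psi a b Y (v, e)).1, (psi a b Y (v, e)).2 * h)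
      rw [psi_Y]; simp [psiY, mul_assoc]
  | inv_of i ih => exact hinv _ ih v e h
  | mul u w hu hw =>
    rw [map_mul, Equiv.Perm.mul_apply, Equiv.Perm.mul_apply, hw, hu]

theorem psi_map {T : Type} [Group T] (f : S →* T) (w : F2) (v : Fin 4) (e : S) :
    psi (f a) (f b) w (v, f e) = ((psi a b w (v, e)).1, f (psi a b w (v, e)).2) := by
  have hinv : ∀ w : F2, (∀ v e, psi (f a) (f b) w (v, f e) =
      ((psi a b w (v, e)).1, f (psi a b w (v, e)).2)) → ∀ v e, psi (f a) (f b) w⁻¹ (v, f e) =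
      ((psi a b w⁻¹ (v, e)).1, f (psi a b w⁻¹ (v, e)).2) := by
    intro w hw v e
    have h1 : psi a b w (psi a b w⁻¹ (v, e)) = (v, e) := by
      rw [← Equiv.Perm.mul_apply, ← map_mul, mul_inv_cancel, map_one, Equiv.Perm.one_apply]
    have h2 := hw (psi a b w⁻¹ (v, e)).1 (psi a b w⁻¹ (v, e)).2
    rw [Prod.mk.eta, h1] at h2
    have h3 : psi (f a) (f b) w⁻¹ (v, f e) = psi (f a) (f b) w⁻¹
        (psi (f a) (f b) w ((psi a b w⁻¹ (v, e)).1, f (psi a b w⁻¹ (v, e)).2)) := by rw [h2]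
    rw [h3, ← Equiv.Perm.mul_apply, ← map_mul, inv_mul_cancel, map_one, Equiv.Perm.one_apply]
  induction w using FreeGroup.induction_on generalizing v e with
  | C1 => simp
  | of i =>
    fin_cases i
    · change psi (f a) (f b) X (v, f e) = ((psi a b X (v, e)).1, f (psi a b X (v, e)).2)
      rw [psi_X, psi_X]
      fin_cases v <;> simp [psiX, mx]
    · change psi (f a) (f b) Y (v, f e) = ((psi a b Y (v, e)).1, f (psi a b Y (v, e)).2)
      rw [psi_Y, psi_Y]
      fin_cases v <;> simp [psiY, my]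
  | inv_of i ih => exact hinv _ ih v e
  | mul u w hu hw =>
    rw [map_mul, Equiv.Perm.mul_apply, hw, hu, map_mul, Equiv.Perm.mul_apply, Prod.mk.eta]

theorem psi_XX (e : S) : psi a b (X * X) (0, e) = (0, a * e) := by
  rw [map_mul, Equiv.Perm.mul_apply, psi_X]
  simp [psiX, px, mx]

theorem psi_YY (e : S) : psi a b (Y * Y) (0, e) = (0, b * e) := by
  rw [map_mul, Equiv.Perm.mul_apply, psi_Y]
  simp [psiY, py, my]

theorem psi_bw (e : S) : psi a b bw (0, e) = (0, e) := by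
  rw [bw, map_mul, map_mul, map_mul, map_inv, map_inv, Equiv.Perm.mul_apply, Equiv.Perm.mul_apply,
    Equiv.Perm.mul_apply, psi_X, psi_Y]
  simp [psiY, py, my, psiX, px, mx, Equiv.Perm.inv_def]

theorem psi_bw_zpow (i : ℤ) (e : S) : psi a b (bw ^ i) (0, e) = (0, e) := by
  rw [map_zpow]
  exact Equiv.Perm.zpow_apply_eq_self_of_apply_eq_self (psi_bw a b e) i

end psi

theorem sec_bw (e : F2) : sec e bw = bw := by
  have h1 : sg bw = bw := by
    rw [bw]; simp only [map_mul, map_inv, sg_X, sg_Y]; group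
  have h2 : tu bw = bw := by
    rw [bw]; simp only [map_mul, map_inv, tu_X, tu_Y]; group
  have hinv : ∀ e : F2, sec e bw = bw → sec e⁻¹ bw = bw := by
    intro e he
    rw [map_inv]
    conv_lhs => rw [← he]
    exact MulAut.inv_apply_self _ _ _
  induction e using FreeGroup.induction_on with
  | C1 => simp
  | of i =>
    fin_cases i
    · change sec X bw = bw
      rw [sec_X, h1]
    · change sec Y bw = bw
      rw [sec_Y, h2]
  | inv_of i ih => exact hinv _ ih
  | mul u v hu hv => rw [map_mul, MulAut.mul_apply, hv, hu]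

/-- The heart of the congruence subgroup property in rank two. -/
theorem asada_core (J : Subgroup F2) (hJ : J.FiniteIndex) : ∃ m : ℕ, ∀ e g : F2,
    (∀ w : F2, sec e w * (g * w * g⁻¹)⁻¹ ∈ L F2 m) → e ∈ J := by
  have := hJ
  obtain ⟨m', hm'⟩ := exists_L_le J.normalCore inferInstance
  obtain ⟨mD, hmD⟩ := center_level m'
  -- the two quotients
  let q' : F2 →* F2 ⧸ L F2 m' := QuotientGroup.mk' _
  let q : F2 →* F2 ⧸ L F2 mD := QuotientGroup.mk' _
  let ab : F2 →* Multiplicative (ZMod 4 × ZMod 4) := ab4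
  let M : Subgroup F2 := (psi (q' X) (q' Y)).ker ⊓ ab.ker
  have hMfin : M.FiniteIndex := inferInstance
  obtain ⟨m1, hm1⟩ := centralizer_bw M hMfin (by
    intro w hw
    have h1 : ab4 w = 1 := hw.2
    rw [ay, h1]; rfl)
  obtain ⟨m2, hm2⟩ := L_le_ker_perm (Fin 4 × (F2 ⧸ L F2 mD))
  refine ⟨max m1 m2, fun e g h => ?_⟩
  -- the centralizer
  obtain ⟨i, hi⟩ := hm1 g (by
    have h1 := h bw
    rw [sec_bw] at h1
    have h2 : g * bw * g⁻¹ * bw⁻¹ = (bw * (g * bw * g⁻¹)⁻¹)⁻¹ := by group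
    rw [h2]
    exact inv_mem (L_anti (le_max_left _ _) h1))
  have hpsi' : psi (q' X) (q' Y) g (0, 1) = (0, 1) := by
    have h1 : psi (q' X) (q' Y) ((bw ^ i)⁻¹ * g) = 1 := hi.1
    rw [map_mul, map_inv] at h1
    have h2 := inv_mul_eq_one.mp h1
    rw [← h2]
    exact psi_bw_zpow _ _ i 1
  obtain ⟨qg, hqg⟩ : ∃ qg, qg = (psi X Y g ((0 : Fin 4), (1 : F2))).2 := ⟨_, rfl⟩
  have hA := psi_map X Y q' g 0 1
  rw [map_one, hpsi', Prod.mk.injEq] at hA
  obtain ⟨hv, hq'⟩ := hA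
  rw [← hqg] at hq'
  have hqgJ : qg ∈ L F2 m' := by
    rw [← QuotientGroup.eq_one_iff]
    exact hq'.symm
  have hB := psi_map X Y q g 0 1
  rw [map_one, ← hv, ← hqg] at hB
  -- the central element
  have hcomm : ∀ w : F2, (cj (q X) (q Y) e)⁻¹ * psi (q X) (q Y) g * psi (q X) (q Y) w =
      psi (q X) (q Y) w * ((cj (q X) (q Y) e)⁻¹ * psi (q X) (q Y) g) := by
    intro w
    have h1 := hm2 (psi (q X) (q Y)) (L_anti (le_max_right _ _) (h w))
    rw [MonoidHom.mem_ker, map_mul, map_inv] at h1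
    have h2 := mul_inv_eq_one.mp h1
    rw [psi_sec, map_mul, map_mul, map_inv] at h2
    have h3 : psi (q X) (q Y) g * psi (q X) (q Y) w = cj (q X) (q Y) e * psi (q X) (q Y) w *
        (cj (q X) (q Y) e)⁻¹ * psi (q X) (q Y) g := by
      rw [h2]; group
    rw [mul_assoc, h3]; group
  have hgh : ∀ s : F2 ⧸ L F2 mD, ((cj (q X) (q Y) e)⁻¹ * psi (q X) (q Y) g) (0, s) =
      (0, (q e)⁻¹ * q qg * s) := by
    intro s
    have h1 : psi (q X) (q Y) g (0, s) = (0, q qg * s) := by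
      have h2 := psi_right (q X) (q Y) g 0 1 s
      rw [one_mul, hB] at h2
      exact h2
    rw [Equiv.Perm.mul_apply, h1, Equiv.Perm.inv_eq_iff_eq, cj_zero]
    have h2 : toS (q X) (q Y) e = q e := by
      have h3 : toS (q X) (q Y) = q := hom_ext (toS_X _ _) (toS_Y _ _)
      rw [h3]
    rw [h2]
    refine Prod.ext rfl ?_
    simp only
    group
  have hz : e⁻¹ * qg ∈ L F2 m' := by
    have hgen : ∀ (w : F2) (t : F2), (∀ s, psi (q X) (q Y) w (0, s) = (0, q t * s)) →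
        e⁻¹ * qg * t * (e⁻¹ * qg)⁻¹ * t⁻¹ ∈ L F2 mD := by
      intro w t ht
      have h1 := congrArg (fun f : Equiv.Perm (Fin 4 × (F2 ⧸ L F2 mD)) => f (0, 1)) (hcomm w)
      rw [Equiv.Perm.mul_apply, ht, hgh, Equiv.Perm.mul_apply (psi (q X) (q Y) w), hgh, ht,
        Prod.mk.injEq] at h1
      have h2 := h1.2
      rw [mul_one, mul_one] at h2
      rw [← QuotientGroup.eq_one_iff]
      change q (e⁻¹ * qg * t * (e⁻¹ * qg)⁻¹ * t⁻¹) = 1
      rw [map_mul, map_mul, map_mul, map_inv, map_inv, map_mul, map_inv, h2]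
      group
    refine hmD _ (hgen (X * X) X ?_) (hgen (Y * Y) Y ?_)
    · intro s; exact psi_XX _ _ s
    · intro s; exact psi_YY _ _ s
  have hfin : e ∈ L F2 m' := by
    have h1 : e = qg * (e⁻¹ * qg)⁻¹ := by group
    rw [h1]
    exact mul_mem hqgJ (inv_mem hz)
  exact J.normalCore_le (hm' hfin)

theorem R_decomp {φ : MulAut F2} (h : φ ∈ R) : ∃ f e : F2, φ = MulAut.conj f * sec e := by
  have h1 : R ≤ Inn ⊔ sec.range := by
    refine (Subgroup.closure_le _).mpr ?_
    rintro s (⟨g, rfl⟩ | hs)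
    · exact (le_sup_left : Inn ≤ Inn ⊔ sec.range) (conj_mem_Inn g)
    · simp only [Set.mem_insert_iff, Set.mem_singleton_iff] at hs
      rcases hs with rfl | rfl
      · exact (le_sup_right : sec.range ≤ Inn ⊔ sec.range) ⟨X, sec_X⟩
      · exact (le_sup_right : sec.range ≤ Inn ⊔ sec.range) ⟨Y, sec_Y⟩
  have h2 := h1 h
  rw [Subgroup.mem_sup_of_normal_left] at h2
  obtain ⟨_, ⟨f, rfl⟩, _, ⟨e, rfl⟩, h3⟩ := h2
  exact ⟨f, e, h3.symm⟩

/-- **The congruence subgroup property for the free group of rank two** (Asada). -/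
theorem csp_two (N : Subgroup (MulAut F2)) (hN : N.FiniteIndex) : ∃ m : ℕ, cong F2 m ≤ N := by
  have := hN
  obtain ⟨mc, hmc⟩ := exists_L_le (N.comap (MulAut.conj : F2 →* MulAut F2))
    (comap_finiteIndex _ _ hN)
  obtain ⟨mD, hmD⟩ := center_level mc
  let N' : Subgroup (MulAut F2) := N ⊓ cong F2 mD
  have hN' : N'.FiniteIndex := inferInstance
  have hsup : (N' ⊔ Inn).FiniteIndex := Subgroup.finiteIndex_of_le (H := N') le_sup_left
  obtain ⟨m1, hm1⟩ := asada_core ((N' ⊔ Inn).comap sec) (comap_finiteIndex _ _ hsup)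
  obtain ⟨m4, hm4⟩ := L_le_ker (Multiplicative (ZMod 4 × ZMod 4))
  refine ⟨max m1 (max mD m4), fun φ hφ => ?_⟩
  rw [mem_cong] at hφ
  have hR : φ ∈ R := by
    apply mem_R_of_trivial
    intro w
    have h1 := hm4 ab4 (L_anti ((le_max_right _ _).trans (le_max_right _ _)) (hφ w))
    rw [MonoidHom.mem_ker, map_mul, map_inv] at h1
    have h2 := mul_inv_eq_one.mp h1
    exact ⟨by rw [ax, ax, h2], by rw [ay, ay, h2]⟩
  obtain ⟨f, e, hfe⟩ := R_decomp hR
  have he : e ∈ (N' ⊔ Inn).comap sec := by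
    apply hm1 e f⁻¹
    intro w
    have h1 : sec e w = f⁻¹ * φ w * f := by
      rw [hfe, MulAut.mul_apply, MulAut.conj_apply]; group
    rw [h1]
    have h2 : f⁻¹ * φ w * f * (f⁻¹ * w * f⁻¹⁻¹)⁻¹ = f⁻¹ * (φ w * w⁻¹) * f⁻¹⁻¹ := by group
    rw [h2]
    exact (L_normal _).conj_mem _ (L_anti (le_max_left _ _) (hφ w)) _
  rw [Subgroup.mem_comap, Subgroup.mem_sup_of_normal_right] at he
  obtain ⟨ν, hν, _, ⟨h, rfl⟩, hνh⟩ := he
  have hφν : φ = ν * MulAut.conj (ν⁻¹ f * h) := by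
    rw [hfe, ← hνh, map_mul, ← conj_aut ν⁻¹ f]
    group
  have hk : MulAut.conj (ν⁻¹ f * h) ∈ cong F2 mD := by
    have h1 : MulAut.conj (ν⁻¹ f * h) = ν⁻¹ * φ := by rw [hφν]; group
    rw [h1]
    refine mul_mem (inv_mem hν.2) ?_
    exact cong_anti ((le_max_left _ _).trans (le_max_right _ _)) (mem_cong.mpr hφ)
  rw [mem_cong] at hk
  have hk2 : ν⁻¹ f * h ∈ L F2 mc := by
    apply hmD
    · have := hk X
      rwa [MulAut.conj_apply] at this
    · have := hk Y
      rwa [MulAut.conj_apply] at this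
  have hk3 : MulAut.conj (ν⁻¹ f * h) ∈ N := hmc hk2
  rw [hφν]
  exact mul_mem hν.1 hk3

end Pool.Agent.CSPHier
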