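import Mathlib
import Pool.Agent.CSPHier.Split
import Pool.Agent.CSPHier.Asada

set_option autoImplicit false

/-! The congruence subgroup property for stabilisers of free splittings. -/

namespace Pool.Agent.CSPHier

/-- The congruence subgroup property of a group `P` of automorphisms of a free group: every
subgroup of finite index in `P` contains the elements of `P` which are trivial modulo a deep
level. -/
def Csp (X : Type) (P : Subgroup (MulAut (FreeGroup X))) : Prop :=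
  ∀ N : Subgroup (MulAut (FreeGroup X)), N.relIndex P ≠ 0 →
    ∃ m : ℕ, ∀ α ∈ P, α ∈ cong (FreeGroup X) m → α ∈ N

theorem comap_relIndex {G H : Type*} [Group G] [Group H] (f : G →* H) (P : Subgroup G)
    (Q N : Subgroup H) (hf : ∀ x ∈ P, f x ∈ Q) (h : N.relIndex Q ≠ 0) :
    (N.comap f).relIndex P ≠ 0 := by
  rw [Subgroup.relIndex_comap]
  intro h0
  refine h (Subgroup.relIndex_eq_zero_of_le_right ?_ h0)
  rw [Subgroup.map_le_iff_le_comap]
  exact fun x hx => hf x hx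

theorem comap_finiteIndex' {G H : Type*} [Group G] [Group H] (f : G →* H)
    (Q N : Subgroup H) (hf : ∀ x, f x ∈ Q) (h : N.relIndex Q ≠ 0) :
    (N.comap f).FiniteIndex := by
  refine ⟨?_⟩
  rw [← Subgroup.relIndex_top_right]
  exact comap_relIndex f ⊤ Q N (fun x _ => hf x) h

section sum

variable {X Y : Type}

/-- **Congruence property for free products.** -/
theorem csp_split [Finite X] [Finite Y] [Nonempty X] [Nonempty Y]
    (A : Subgroup (MulAut (FreeGroup X))) (B : Subgroup (MulAut (FreeGroup Y)))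
    (hA : Csp X A) (hB : Csp Y B) (P : Subgroup (MulAut (FreeGroup (X ⊕ Y))))
    (hP : ∀ φ, φ ∈ P ↔ ∃ α ∈ A, ∃ β ∈ B, ∃ g,
      (∀ w, φ (FreeGroup.map Sum.inl w) = g * FreeGroup.map Sum.inl (α w) * g⁻¹) ∧
      (∀ w, φ (FreeGroup.map Sum.inr w) = g * FreeGroup.map Sum.inr (β w) * g⁻¹)) :
    Csp (X ⊕ Y) P := by
  intro N hN
  obtain ⟨x0⟩ := ‹Nonempty X›
  obtain ⟨y0⟩ := ‹Nonempty Y›
  have hboth : ∀ α ∈ A, ∀ β ∈ B, both (α, β) ∈ P := by
    intro α hα β hβ
    rw [hP]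
    exact ⟨α, hα, β, hβ, 1, fun w => by rw [both_inl]; simp, fun w => by rw [both_inr]; simp⟩
  have hconj : ∀ g, MulAut.conj g ∈ P := by
    intro g
    rw [hP]
    exact ⟨1, one_mem _, 1, one_mem _, g, fun w => rfl, fun w => rfl⟩
  obtain ⟨mX, hmX⟩ := hA (N.comap (both.comp (MonoidHom.inl _ _)))
    (comap_relIndex _ _ P _ (fun α hα => hboth α hα 1 (one_mem _)) hN)
  obtain ⟨mY, hmY⟩ := hB (N.comap (both.comp (MonoidHom.inr _ _)))
    (comap_relIndex _ _ P _ (fun β hβ => hboth 1 (one_mem _) β hβ) hN)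
  obtain ⟨mc, hmc⟩ := exists_L_le (N.comap (MulAut.conj : FreeGroup (X ⊕ Y) →* _))
    (comap_finiteIndex' _ P _ hconj hN)
  obtain ⟨m1, hm1⟩ : ∃ m1, m1 = max mX (max mY mc) := ⟨_, rfl⟩
  have h1X : mX ≤ m1 := by rw [hm1]; exact le_max_left _ _
  have h1Y : mY ≤ m1 := by rw [hm1]; exact (le_max_left _ _).trans (le_max_right _ _)
  have h1c : mc ≤ m1 := by rw [hm1]; exact (le_max_right _ _).trans (le_max_right _ _)
  obtain ⟨m2, hm2⟩ := malnormal (fac (Set.range (Sum.inl : X → X ⊕ Y)) ⊔ L _ m1)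
    (fac_sup_finiteIndex _ _) (Set.range Sum.inl) le_sup_left (Sum.inl x0) ⟨x0, rfl⟩
  obtain ⟨m3, hm3⟩ := malnormal (fac (Set.range (Sum.inr : Y → X ⊕ Y)) ⊔ L _ m1)
    (fac_sup_finiteIndex _ _) (Set.range Sum.inr) le_sup_left (Sum.inr y0) ⟨y0, rfl⟩
  refine ⟨max m1 (max m2 m3), ?_⟩
  intro φ hφP hφ
  obtain ⟨α, hα, β, hβ, g, hφX, hφY⟩ := (hP φ).mp hφP
  have hφ1 : φ ∈ cong _ m1 := cong_anti (le_max_left _ _) hφ
  have hφ2 : φ ∈ cong _ m2 := cong_anti ((le_max_left _ _).trans (le_max_right _ _)) hφ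
  have hφ3 : φ ∈ cong _ m3 := cong_anti ((le_max_right _ _).trans (le_max_right _ _)) hφ
  have e1 : φ (FreeGroup.of (Sum.inl x0)) =
      g * FreeGroup.map Sum.inl (α (FreeGroup.of x0)) * g⁻¹ := by
    rw [← hφX, FreeGroup.map.of]
  have e2 : φ (FreeGroup.of (Sum.inr y0)) =
      g * FreeGroup.map Sum.inr (β (FreeGroup.of y0)) * g⁻¹ := by
    rw [← hφY, FreeGroup.map.of]
  have g1 := hm2 g⁻¹ _ (map_mem_fac _ _) (conj_trick hφ2 e1)
  have g2 := hm3 g⁻¹ _ (map_mem_fac _ _) (conj_trick hφ3 e2)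
  have g3 := mem_L_of_mem_sup disjoint_ranges g1 g2
  have g4 : g ∈ L (FreeGroup (X ⊕ Y)) m1 := (inv_mem_iff (x := g)).mp g3
  have hφeq : φ = MulAut.conj g * both (α, β) := by
    apply sum_aut_ext
    · intro w; rw [MulAut.mul_apply, both_inl, MulAut.conj_apply, hφX]
    · intro w; rw [MulAut.mul_apply, both_inr, MulAut.conj_apply, hφY]
  have hb : both (α, β) ∈ cong (FreeGroup (X ⊕ Y)) m1 := by
    have : both (α, β) = (MulAut.conj g)⁻¹ * φ := by rw [hφeq]; group
    rw [this]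
    exact mul_mem (inv_mem (conj_mem_cong g4)) hφ1
  rw [mem_cong] at hb
  have hα' : α ∈ cong (FreeGroup X) m1 := by
    rw [mem_cong]
    intro w
    have h1 := hb (FreeGroup.map Sum.inl w)
    rw [both_inl, ← map_inv, ← map_mul] at h1
    exact mem_L_inl h1
  have hβ' : β ∈ cong (FreeGroup Y) m1 := by
    rw [mem_cong]
    intro w
    have h1 := hb (FreeGroup.map Sum.inr w)
    rw [both_inr, ← map_inv, ← map_mul] at h1
    exact mem_L_inr h1
  have hαN := hmX α hα (cong_anti h1X hα')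
  have hβN := hmY β hβ (cong_anti h1Y hβ')
  have hcN : MulAut.conj g ∈ N := hmc (L_anti h1c g4)
  have hprod : both (α, β) = both (α, 1) * both (1, β) := by
    rw [← map_mul]; simp
  rw [hφeq, hprod]
  exact mul_mem hcN (mul_mem hαN hβN)

end sum

section loop

variable {X : Type}

/-- **Congruence property for HNN extensions.** -/
theorem csp_loop [Finite X] [Nonempty X] (A : Subgroup (MulAut (FreeGroup X)))
    (hA : Csp X A) (hinn : ∀ a, MulAut.conj a ∈ A) (P : Subgroup (MulAut (FreeGroup (Option X))))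
    (hP : ∀ φ, φ ∈ P ↔ ∃ α ∈ A, ∃ g u v,
      (∀ w, φ (FreeGroup.map some w) = g * FreeGroup.map some (α w) * g⁻¹) ∧
      (φ (FreeGroup.of none) =
        g * (FreeGroup.map some u * FreeGroup.of none * FreeGroup.map some v) * g⁻¹ ∨
      φ (FreeGroup.of none) =
        g * (FreeGroup.map some u * (FreeGroup.of none)⁻¹ * FreeGroup.map some v) * g⁻¹)) :
    Csp (Option X) P := by
  intro N hN
  obtain ⟨x0⟩ := ‹Nonempty X›
  have hloop : ∀ α ∈ A, ∀ u v, loopAut α u v ∈ P := by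
    intro α hα u v
    rw [hP]
    exact ⟨α, hα, 1, u, v, fun w => by rw [loopAut_some]; simp,
      Or.inl (by rw [loopAut_none]; simp)⟩
  have hconj : ∀ g, MulAut.conj g ∈ P := by
    intro g
    rw [hP]
    exact ⟨1, one_mem _, g, 1, 1, fun w => rfl, Or.inl (by simp)⟩
  obtain ⟨mX, hmX⟩ := hA (N.comap extO)
    (comap_relIndex _ _ P _ (fun α hα => hloop α hα 1 1) hN)
  obtain ⟨mr, hmr⟩ := exists_L_le (N.comap (rO : FreeGroup X →* _))
    (comap_finiteIndex' _ P _ (fun v => hloop 1 (one_mem _) 1 v) hN)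
  obtain ⟨ml, hml⟩ := exists_L_le (N.comap (lO : FreeGroup X →* _))
    (comap_finiteIndex' _ P _ (fun u => hloop 1 (one_mem _) u⁻¹ 1) hN)
  obtain ⟨mc, hmc⟩ := exists_L_le (N.comap (MulAut.conj : FreeGroup (Option X) →* _))
    (comap_finiteIndex' _ P _ hconj hN)
  obtain ⟨m3, hm3⟩ := L_le_ker (Multiplicative (ZMod 3))
  obtain ⟨ms, hms⟩ := sandwich (L (FreeGroup (Option X)) (max mr ml)) inferInstance inferInstance
    (Set.range some) none (by rintro ⟨x, h⟩; cases h)
  obtain ⟨m4, hm4⟩ : ∃ m4, m4 = max (max mX mc) (max m3 ms) := ⟨_, rfl⟩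
  have l1 : mX ≤ m4 := by rw [hm4]; exact (le_max_left _ _).trans (le_max_left _ _)
  have l2 : mc ≤ m4 := by rw [hm4]; exact (le_max_right _ _).trans (le_max_left _ _)
  have l3 : m3 ≤ m4 := by rw [hm4]; exact (le_max_left _ _).trans (le_max_right _ _)
  have l4 : ms ≤ m4 := by rw [hm4]; exact (le_max_right _ _).trans (le_max_right _ _)
  obtain ⟨m5, hm5⟩ := malnormal (fac (Set.range (some : X → Option X)) ⊔ L _ m4)
    (fac_sup_finiteIndex _ _) (Set.range some) le_sup_left (some x0) ⟨x0, rfl⟩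
  refine ⟨max m4 m5, ?_⟩
  intro φ hφP hφ
  obtain ⟨α, hα, g, u, v, hφX, hφt⟩ := (hP φ).mp hφP
  have hφ4 : φ ∈ cong _ m4 := cong_anti (le_max_left _ _) hφ
  have hφ5 : φ ∈ cong _ m5 := cong_anti (le_max_right _ _) hφ
  have e1 : φ (FreeGroup.of (some x0)) =
      g * FreeGroup.map some (α (FreeGroup.of x0)) * g⁻¹ := by
    rw [← hφX, FreeGroup.map.of]
  have g1 := hm5 g⁻¹ _ (map_mem_fac _ _) (conj_trick hφ5 e1)
  rw [Subgroup.mem_sup_of_normal_right] at g1
  obtain ⟨a, ha, k, hk, hak⟩ := g1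
  obtain ⟨a0, rfl⟩ := exists_of_mem_fac _ ha
  have hg : g = k⁻¹ * (FreeGroup.map some a0)⁻¹ := by
    rw [← mul_inv_rev, hak, inv_inv]
  -- the corrected automorphism
  obtain ⟨φ', hφ'⟩ : ∃ φ' : MulAut (FreeGroup (Option X)), φ' = MulAut.conj k * φ := ⟨_, rfl⟩
  have hφ'4 : φ' ∈ cong _ m4 := by rw [hφ']; exact mul_mem (conj_mem_cong hk) hφ4
  obtain ⟨α', hα'⟩ : ∃ α' : MulAut (FreeGroup X), α' = MulAut.conj a0⁻¹ * α := ⟨_, rfl⟩
  have hAα' : α' ∈ A := by rw [hα']; exact mul_mem (hinn _) hα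
  have hX : ∀ w, φ' (FreeGroup.map some w) = FreeGroup.map some (α' w) := by
    intro w
    rw [hφ', MulAut.mul_apply, hφX, MulAut.conj_apply, hg, hα', MulAut.mul_apply,
      MulAut.conj_apply, map_mul, map_mul, inv_inv, map_inv]
    group
  have htt : φ' (FreeGroup.of none) = FreeGroup.map some (a0⁻¹ * u) * FreeGroup.of none *
      FreeGroup.map some (v * a0) := by
    rcases hφt with ht | ht
    · rw [hφ', MulAut.mul_apply, ht, MulAut.conj_apply, hg, map_mul, map_mul, map_inv]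
      group
    · exfalso
      have h1 : φ' (FreeGroup.of none) = FreeGroup.map some (a0⁻¹ * u) * (FreeGroup.of none)⁻¹ *
          FreeGroup.map some (v * a0) := by
        rw [hφ', MulAut.mul_apply, ht, MulAut.conj_apply, hg, map_mul, map_mul, map_inv]
        group
      have h2 := hm3 (deg3 (X := X)) (L_anti l3 (mem_cong.mp hφ'4 (FreeGroup.of none)))
      rw [h1, MonoidHom.mem_ker, map_mul, map_mul, map_mul, map_inv, deg3_some,
        deg3_some, deg3_none] at h2
      revert h2; decide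
  have hα'4 : α' ∈ cong (FreeGroup X) m4 := by
    rw [mem_cong]
    intro w
    have h1 := mem_cong.mp hφ'4 (FreeGroup.map some w)
    rw [hX, ← map_inv, ← map_mul] at h1
    exact mem_L_some h1
  have n1 : extO α' ∈ N := hmX α' hAα' (cong_anti l1 hα'4)
  have h1 := mem_cong.mp hφ'4 (FreeGroup.of none)
  rw [htt] at h1
  obtain ⟨h2, h3⟩ := hms _ (map_mem_fac _ _) _ (map_mem_fac _ _) (L_anti l4 h1)
  have n2 : rO (v * a0) ∈ N := hmr (L_anti (le_max_left _ _) (mem_L_some h3))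
  have n3 : lO (a0⁻¹ * u)⁻¹ ∈ N :=
    hml (L_anti (le_max_right _ _) (inv_mem (mem_L_some h2)))
  have n4 : MulAut.conj k⁻¹ ∈ N := hmc (L_anti l2 (inv_mem hk))
  have hfin : φ = MulAut.conj k⁻¹ * (rO (v * a0) * lO (a0⁻¹ * u)⁻¹ * extO α') := by
    have h4 : φ' = rO (v * a0) * lO (a0⁻¹ * u)⁻¹ * extO α' := by
      apply opt_aut_ext
      · intro w
        rw [hX, MulAut.mul_apply, MulAut.mul_apply]
        change _ = loopAut 1 1 _ (loopAut 1 _ 1 (loopAut α' 1 1 _))
        rw [loopAut_some, loopAut_some, loopAut_some]; rfl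
      · rw [htt, MulAut.mul_apply, MulAut.mul_apply]
        change _ = loopAut 1 1 _ (loopAut 1 _ 1 (loopAut α' 1 1 _))
        rw [loopAut_none, map_one, one_mul, mul_one, loopAut_none, map_one, mul_one, inv_inv,
          map_mul (loopAut 1 1 (v * a0)), loopAut_none, loopAut_some, MulAut.one_apply, map_one,
          one_mul, mul_assoc]
    rw [← h4, hφ', ← mul_assoc, ← map_mul, inv_mul_cancel, map_one, one_mul]
  rw [hfin]
  exact mul_mem n4 (mul_mem (mul_mem n2 n3) n1)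

end loop

/-- Transport of the congruence property. -/
theorem csp_transport {Z Z' : Type} (ψ : FreeGroup Z ≃* FreeGroup Z')
    (P : Subgroup (MulAut (FreeGroup Z))) (P' : Subgroup (MulAut (FreeGroup Z')))
    (hPP' : ∀ φ, φ ∈ P ↔ MulAut.congr ψ φ ∈ P') (h : Csp Z P) : Csp Z' P' := by
  intro N hN
  obtain ⟨m, hm⟩ := h (N.comap (MulAut.congr ψ).toMonoidHom)
    (comap_relIndex _ _ P' _ (fun φ hφ => (hPP' φ).mp hφ) hN)
  refine ⟨m, fun φ hφ hφm => ?_⟩
  have h3 : MulAut.congr ψ (MulAut.congr ψ.symm φ) = φ := by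
    ext1 w
    change ψ (ψ.symm (φ (ψ (ψ.symm w)))) = φ w
    rw [MulEquiv.apply_symm_apply, MulEquiv.apply_symm_apply]
  have h1 := hm (MulAut.congr ψ.symm φ) ((hPP' _).mpr (by rwa [h3]))
    (congr_mem_cong ψ.symm hφm)
  have h2 : MulAut.congr ψ (MulAut.congr ψ.symm φ) ∈ N := h1
  rwa [h3] at h2

theorem csp_top_of_good {X : Type} (h : Good X fun _ => True) : Csp X ⊤ := by
  intro N hN
  rw [Subgroup.relIndex_top_right] at hN
  obtain ⟨m, hm⟩ := h N ⟨hN⟩
  exact ⟨m, fun α _ hα => hm α trivial hα⟩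

theorem csp_small {Z : Type} [Finite Z] (hZ : Nat.card Z ≤ 2) : Csp Z ⊤ := by
  have key : ∀ n : ℕ, n ≤ 2 → Csp (Fin n) ⊤ := by
    intro n hn
    interval_cases n
    · exact csp_top_of_good (good_zero (Fin 0))
    · exact csp_top_of_good (good_one (Fin 1))
    · apply csp_top_of_good
      intro N hN
      obtain ⟨m, hm⟩ := csp_two N hN
      exact ⟨m, fun φ _ h => hm h⟩
  exact csp_transport (FreeGroup.freeGroupCongr (Finite.equivFin Z).symm) ⊤ ⊤
    (fun _ => by simp) (key _ hZ)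

end Pool.Agent.CSPHier
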