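import Mathlib
import Pool.Agent.CSPHier.Levels

set_option autoImplicit false

/-! Centralizers of powers of basis elements modulo deep levels. -/

namespace Pool.Agent.CSPHier

variable {Z : Type}

section malq

variable (M : Subgroup (FreeGroup Z)) (S : Set Z) (hS : fac S ≤ M) (z0 : Z) (q : ℕ)

open Classical in
/-- The permutations attached to the basis elements, with a counter modulo `q`. -/
noncomputable def malqSig (hS : fac S ≤ M) (z : Z) : Equiv.Perm ((FreeGroup Z ⧸ M) × ZMod q) where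
  toFun a := (FreeGroup.of z • a.1,
    a.2 + if z ∈ S ∧ z = z0 ∧ a.1 ≠ ((1 : FreeGroup Z) : FreeGroup Z ⧸ M) then 1 else 0)
  invFun a := ((FreeGroup.of z)⁻¹ • a.1,
    a.2 - if z ∈ S ∧ z = z0 ∧ a.1 ≠ ((1 : FreeGroup Z) : FreeGroup Z ⧸ M) then 1 else 0)
  left_inv := by
    intro a
    refine Prod.ext (by simp) ?_
    by_cases hz : z ∈ S
    · have := smul_base M S hS hz a.1
      simp [hz, this]
    · simp [hz]
  right_inv := by
    intro a
    refine Prod.ext (by simp) ?_
    by_cases hz : z ∈ S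
    · have := smul_base M S hS hz ((FreeGroup.of z)⁻¹ • a.1)
      rw [smul_inv_smul] at this
      simp [hz, this]
    · simp [hz]

/-- The permutation representation. -/
noncomputable def malq (hS : fac S ≤ M) :
    FreeGroup Z →* Equiv.Perm ((FreeGroup Z ⧸ M) × ZMod q) :=
  FreeGroup.lift (malqSig M S z0 q hS)

theorem malq_fst (w : FreeGroup Z) (a : (FreeGroup Z ⧸ M) × ZMod q) :
    (malq M S z0 q hS w a).1 = w • a.1 := by
  induction w using FreeGroup.induction_on generalizing a with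
  | C1 => simp
  | of j => simp [malq, malqSig]
  | inv_of j _ => simp [malq, malqSig, Equiv.Perm.inv_def]
  | mul x y hx hy => rw [map_mul, Equiv.Perm.mul_apply, hx, hy, mul_smul]

open Classical in
/-- The exponent sum of `z0` modulo `q`. -/
noncomputable def degq (z0 : Z) (q : ℕ) : FreeGroup Z →* Multiplicative (ZMod q) :=
  FreeGroup.lift fun z => if z = z0 then Multiplicative.ofAdd 1 else 1

theorem degq_self : degq z0 q (FreeGroup.of z0) = Multiplicative.ofAdd 1 := by
  simp [degq]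

theorem malq_base {w : FreeGroup Z} (hw : w ∈ fac S) (c : ZMod q) :
    malq M S z0 q hS w (((1 : FreeGroup Z) : FreeGroup Z ⧸ M), c) =
      (((1 : FreeGroup Z) : FreeGroup Z ⧸ M), c) := by
  induction hw using Subgroup.closure_induction generalizing c with
  | mem x hx =>
    obtain ⟨z, hz, rfl⟩ := hx
    refine Prod.ext ?_ ?_
    · rw [malq_fst]
      exact (smul_base M S hS hz _).mpr rfl
    · simp [malq, malqSig]
  | one => simp
  | mul x y _ _ hx hy => rw [map_mul, Equiv.Perm.mul_apply, hy, hx]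
  | inv x _ hx => rw [map_inv, Equiv.Perm.inv_eq_iff_eq, hx]

theorem malq_other {w : FreeGroup Z} (hw : w ∈ fac S) (a : (FreeGroup Z ⧸ M) × ZMod q)
    (ha : a.1 ≠ ((1 : FreeGroup Z) : FreeGroup Z ⧸ M)) :
    (malq M S z0 q hS w a).2 = a.2 + Multiplicative.toAdd (degq z0 q w) := by
  classical
  have key : ∀ w ∈ fac S, ∀ a : (FreeGroup Z ⧸ M) × ZMod q,
      a.1 ≠ ((1 : FreeGroup Z) : FreeGroup Z ⧸ M) →
      (malq M S z0 q hS w a).1 ≠ ((1 : FreeGroup Z) : FreeGroup Z ⧸ M) ∧
      (malq M S z0 q hS w a).2 = a.2 + Multiplicative.toAdd (degq z0 q w) := by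
    intro w hw
    induction hw using Subgroup.closure_induction with
    | mem x hx =>
      obtain ⟨z, hz, rfl⟩ := hx
      intro a ha
      refine ⟨?_, ?_⟩
      · rw [malq_fst]
        exact fun h => ha ((smul_base M S hS hz _).mp h)
      · by_cases hz0 : z = z0
        · subst hz0
          simp [malq, malqSig, hz, ha, degq]
        · simp [malq, malqSig, hz0, degq]
    | one => intro a ha; simp [ha]
    | mul x y _ _ hx hy =>
      intro a ha
      rw [map_mul, Equiv.Perm.mul_apply]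
      obtain ⟨h1, h2⟩ := hy a ha
      obtain ⟨h3, h4⟩ := hx _ h1
      refine ⟨h3, ?_⟩
      rw [h4, h2, map_mul, toAdd_mul]
      ring
    | inv x _ hx =>
      intro a ha
      set b := malq M S z0 q hS x⁻¹ a with hb
      have hab : malq M S z0 q hS x b = a := by
        rw [hb, ← Equiv.Perm.mul_apply, ← map_mul, mul_inv_cancel, map_one, Equiv.Perm.one_apply]
      have hb1 : b.1 ≠ ((1 : FreeGroup Z) : FreeGroup Z ⧸ M) := by
        intro h
        have h1 : x • ((1 : FreeGroup Z) : FreeGroup Z ⧸ M) = a.1 := by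
          rw [← hab, malq_fst, h]
        apply ha
        rw [← h1]
        have : b = (((1 : FreeGroup Z) : FreeGroup Z ⧸ M), b.2) := Prod.ext h rfl
        have h2 : malq M S z0 q hS x b = b := by
          rw [this]
          exact malq_base M S hS z0 q (by assumption) b.2
        have h3 := congrArg Prod.fst h2
        rw [malq_fst, h] at h3
        exact h3
      obtain ⟨h1, h2⟩ := hx b hb1
      refine ⟨hb1, ?_⟩
      rw [hab] at h2
      rw [h2, map_inv, toAdd_inv]
      ring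
  exact (key w hw a ha).2

end malq

/-- **Malnormality, for powers.** Let `M` be a subgroup of finite index containing the free factor
`A`. Modulo a deep level, `g z0 ^ k g⁻¹ ∈ A` with `k > 0` implies `g ∈ M`. -/
theorem malnormal_pow [Finite Z] (M : Subgroup (FreeGroup Z)) (hM : M.FiniteIndex) (S : Set Z)
    (hS : fac S ≤ M) (z0 : Z) (hz0 : z0 ∈ S) (k : ℕ) (hk : 0 < k) :
    ∃ m : ℕ, ∀ g : FreeGroup Z, ∀ a ∈ fac S,
      g * FreeGroup.of z0 ^ k * g⁻¹ * a⁻¹ ∈ L (FreeGroup Z) m → g ∈ M := by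
  have := hM
  obtain ⟨m1, hm1⟩ := L_le_ker_perm ((FreeGroup Z ⧸ M) × ZMod (k + 1))
  obtain ⟨m2, hm2⟩ := L_le_ker (Multiplicative (ZMod (k + 1)))
  refine ⟨max m1 m2, fun g a ha h => ?_⟩
  have h1 := hm1 (malq M S z0 (k + 1) hS) (L_anti (le_max_left _ _) h)
  have h2 := hm2 (degq z0 (k + 1)) (L_anti (le_max_right _ _) h)
  rw [MonoidHom.mem_ker, map_mul, map_inv] at h1 h2
  have h3 := mul_inv_eq_one.mp h1
  have h4 := mul_inv_eq_one.mp h2
  rw [map_mul, map_mul, map_inv, mul_comm, inv_mul_cancel_left, map_pow, degq_self] at h4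
  set ω : FreeGroup Z ⧸ M := ((1 : FreeGroup Z) : FreeGroup Z ⧸ M) with hω
  have h5 : malq M S z0 (k + 1) hS (g * FreeGroup.of z0 ^ k) (ω, 0) =
      malq M S z0 (k + 1) hS (a * g) (ω, 0) := by
    have h6 : malq M S z0 (k + 1) hS (g * FreeGroup.of z0 ^ k) = malq M S z0 (k + 1) hS (a * g) := by
      rw [map_mul _ a g, ← h3, map_mul, map_mul, map_mul, map_inv, inv_mul_cancel_right]
    rw [h6]
  rw [map_mul, map_mul, Equiv.Perm.mul_apply, Equiv.Perm.mul_apply,
    malq_base M S hS z0 (k + 1) (pow_mem (of_mem_fac hz0) k)] at h5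
  by_contra hg
  have hg1 : (malq M S z0 (k + 1) hS g (ω, 0)).1 ≠ ω := by
    rw [malq_fst]
    intro h6
    apply hg
    have h7 : ((g * 1 : FreeGroup Z) : FreeGroup Z ⧸ M) = ((1 : FreeGroup Z) : FreeGroup Z ⧸ M) := h6
    rw [QuotientGroup.eq, mul_one, mul_one] at h7
    exact (inv_mem_iff (x := g)).mp h7
  have h6 := malq_other M S hS z0 (k + 1) ha _ hg1
  rw [← h5, ← h4] at h6
  have h7 : ((k : ℕ) : ZMod (k + 1)) = 0 := by
    have h8 : (malq M S z0 (k + 1) hS g (ω, 0)).2 + 0 =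
        (malq M S z0 (k + 1) hS g (ω, 0)).2 + ((k : ℕ) : ZMod (k + 1)) := by
      rw [add_zero]
      conv_lhs => rw [h6]
      congr 1
      rw [toAdd_pow, toAdd_ofAdd, nsmul_eq_mul, mul_one]
    exact (add_left_cancel h8).symm
  rw [ZMod.natCast_eq_zero_iff] at h7
  have := Nat.le_of_dvd hk h7
  omega

/-- Modulo a deep level, an element commuting with `k`-th powers of two basis elements is
trivial. -/
theorem center_pow [Finite Z] (y₁ y₂ : Z) (hy : y₁ ≠ y₂) (k : ℕ) (hk : 0 < k) (m' : ℕ) :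
    ∃ m : ℕ, ∀ z : FreeGroup Z,
      z * FreeGroup.of y₁ ^ k * z⁻¹ * (FreeGroup.of y₁ ^ k)⁻¹ ∈ L (FreeGroup Z) m →
      z * FreeGroup.of y₂ ^ k * z⁻¹ * (FreeGroup.of y₂ ^ k)⁻¹ ∈ L (FreeGroup Z) m →
      z ∈ L (FreeGroup Z) m' := by
  have hfin : ∀ S : Set Z, (fac S ⊔ L (FreeGroup Z) m').FiniteIndex := fun S =>
    Subgroup.finiteIndex_of_le (H := L (FreeGroup Z) m') le_sup_right
  obtain ⟨m1, hm1⟩ := malnormal_pow (fac {y₁} ⊔ L (FreeGroup Z) m') (hfin _) {y₁} le_sup_left y₁
    (Set.mem_singleton _) k hk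
  obtain ⟨m2, hm2⟩ := malnormal_pow (fac {y₂} ⊔ L (FreeGroup Z) m') (hfin _) {y₂} le_sup_left y₂
    (Set.mem_singleton _) k hk
  refine ⟨max m1 m2, fun z h1 h2 => ?_⟩
  refine mem_L_of_mem_sup (S := {y₁}) (T := {y₂}) (by simpa using hy) ?_ ?_
  · exact hm1 z _ (pow_mem (of_mem_fac (Set.mem_singleton _)) k) (L_anti (le_max_left _ _) h1)
  · exact hm2 z _ (pow_mem (of_mem_fac (Set.mem_singleton _)) k) (L_anti (le_max_right _ _) h2)

end Pool.Agent.CSPHier
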