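import Mathlib
import Pool.Agent.CSPHier.Split
import Pool.Agent.CSPHier.Central

set_option autoImplicit false

/-! The congruence property passes to the restrictions of automorphisms to an invariant subgroup of
finite index. -/

namespace Pool.Agent.CSPHier

variable {X Z : Type}

/-- The automorphisms leaving `E` invariant. -/
def stabE (E : Subgroup (FreeGroup X)) : Subgroup (MulAut (FreeGroup X)) where
  carrier := {α | ∀ w, α w ∈ E ↔ w ∈ E}
  one_mem' := fun w => Iff.rfl
  mul_mem' := by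
    intro a b ha hb w
    rw [MulAut.mul_apply, ha, hb]
  inv_mem' := by
    intro a ha w
    have h := ha (a⁻¹ w)
    rw [MulAut.apply_inv_self] at h
    exact h.symm

theorem mem_stabE {E : Subgroup (FreeGroup X)} {α : MulAut (FreeGroup X)} :
    α ∈ stabE E ↔ ∀ w, α w ∈ E ↔ w ∈ E := Iff.rfl

theorem stabE_finiteIndex [Finite X] (E : Subgroup (FreeGroup X)) (hE : E.FiniteIndex) :
    (stabE E).FiniteIndex := by
  obtain ⟨m, hm⟩ := exists_L_le E hE
  refine Subgroup.finiteIndex_of_le (H := cong (FreeGroup X) m) ?_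
  intro α hα w
  have h := hm (mem_cong.mp hα w)
  constructor
  · intro h1
    have h2 := mul_mem (inv_mem h) h1
    simpa [mul_assoc] using h2
  · intro h1
    have h2 := mul_mem h h1
    simpa [mul_assoc] using h2

/-- Restriction to `E`. -/
def resE (E : Subgroup (FreeGroup X)) : stabE E →* MulAut E where
  toFun α :=
    { toFun := fun w => ⟨α.1 w, (α.2 w).2 w.2⟩
      invFun := fun w => ⟨α.1⁻¹ w, ((stabE E).inv_mem α.2 w).2 w.2⟩
      left_inv := fun w => Subtype.ext (MulAut.inv_apply_self _ _ _)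
      right_inv := fun w => Subtype.ext (MulAut.apply_inv_self _ _ _)
      map_mul' := fun v w => Subtype.ext (map_mul α.1 _ _) }
  map_one' := rfl
  map_mul' := fun _ _ => rfl

theorem resE_apply (E : Subgroup (FreeGroup X)) (α : stabE E) (w : E) :
    ((resE E α w : E) : FreeGroup X) = α.1 w := rfl

/-- An automorphism which is deep on a subgroup of finite index is deep. -/
theorem deep_of_res [Finite X] {y₁ y₂ : X} (hy : y₁ ≠ y₂) (E : Subgroup (FreeGroup X))
    (hE : E.FiniteIndex) (m' : ℕ) : ∃ m : ℕ, ∀ α : MulAut (FreeGroup X),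
      (∀ w : E, α w * (w : FreeGroup X)⁻¹ ∈ L (FreeGroup X) m) → α ∈ cong (FreeGroup X) m' := by
  have hK : E.normalCore.FiniteIndex := inferInstance
  have hk : 0 < E.normalCore.index := Nat.pos_of_ne_zero hK.index_ne_zero
  obtain ⟨m, hm⟩ := center_pow y₁ y₂ hy E.normalCore.index hk m'
  refine ⟨m, fun α' h1 => ?_⟩
  rw [mem_cong]
  intro z
  let q := QuotientGroup.mk' (L (FreeGroup X) m)
  have hq : ∀ w : E, q (α' w) = q w := by
    intro w
    rw [← mul_inv_eq_one, ← map_inv, ← map_mul, ← MonoidHom.mem_ker, QuotientGroup.ker_mk']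
    exact h1 w
  have key : ∀ y : X, z⁻¹ * α' z * FreeGroup.of y ^ E.normalCore.index * (z⁻¹ * α' z)⁻¹ *
      (FreeGroup.of y ^ E.normalCore.index)⁻¹ ∈ L (FreeGroup X) m := by
    intro y
    have h3 : FreeGroup.of y ^ E.normalCore.index ∈ E.normalCore :=
      E.normalCore.pow_index_mem _
    have h4 : z * FreeGroup.of y ^ E.normalCore.index * z⁻¹ ∈ E.normalCore :=
      (Subgroup.normalCore_normal E).conj_mem _ h3 z
    have h5 := hq ⟨_, E.normalCore_le h3⟩
    have h6 := hq ⟨_, E.normalCore_le h4⟩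
    change q (α' (FreeGroup.of y ^ E.normalCore.index)) =
      q (FreeGroup.of y ^ E.normalCore.index) at h5
    change q (α' (z * FreeGroup.of y ^ E.normalCore.index * z⁻¹)) =
      q (z * FreeGroup.of y ^ E.normalCore.index * z⁻¹) at h6
    rw [map_mul α', map_mul α', map_inv α', map_mul, map_mul, h5, map_mul, map_mul] at h6
    rw [← QuotientGroup.ker_mk' (L (FreeGroup X) m), MonoidHom.mem_ker]
    change q _ = 1
    rw [map_mul, map_mul, map_mul, map_mul, map_inv, map_inv, map_mul, map_inv q z]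
    have h7 : (q z)⁻¹ * q (α' z) * q (FreeGroup.of y ^ E.normalCore.index) *
        ((q z)⁻¹ * q (α' z))⁻¹ = (q z)⁻¹ *
        (q (α' z) * q (FreeGroup.of y ^ E.normalCore.index) * q (α' z)⁻¹) * q z := by
      rw [map_inv]; group
    rw [h7, h6]
    simp only [map_inv]
    generalize q (FreeGroup.of y ^ E.normalCore.index) = b
    group
  have h8 := hm _ (key y₁) (key y₂)
  have h9 := (L_normal m').conj_mem _ h8 z
  have h10 : z * (z⁻¹ * α' z) * z⁻¹ = α' z * z⁻¹ := by group
  rwa [h10] at h9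

/-- The induced homomorphism to the automorphism group of the model of `E`. -/
def resZ (E : Subgroup (FreeGroup X)) (θ : E ≃* FreeGroup Z) : stabE E →* MulAut (FreeGroup Z) :=
  (MulAut.congr θ).toMonoidHom.comp (resE E)

theorem resZ_apply (E : Subgroup (FreeGroup X)) (θ : E ≃* FreeGroup Z) (α : stabE E) (w : E) :
    resZ E θ α (θ w) = θ (resE E α w) := by
  change θ (resE E α (θ.symm (θ w))) = _
  rw [MulEquiv.symm_apply_apply]

theorem conj_mem_stabE {E : Subgroup (FreeGroup X)} (e : E) :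
    MulAut.conj (e : FreeGroup X) ∈ stabE E := by
  intro w
  rw [MulAut.conj_apply]
  constructor
  · intro h1
    have h2 := mul_mem (mul_mem (inv_mem e.2) h1) e.2
    simpa [mul_assoc] using h2
  · intro h1
    exact mul_mem (mul_mem e.2 h1) (inv_mem e.2)

/-- Absorb the conjugation. -/
theorem absorb {E : Subgroup (FreeGroup X)} (θ : E ≃* FreeGroup Z) {α : MulAut (FreeGroup X)}
    (hα : α ∈ stabE E) {g : FreeGroup Z} {φ : MulAut (FreeGroup Z)}
    (hφ : ∀ w : E, φ (θ w) = g * θ ⟨α w, (hα w).2 w.2⟩ * g⁻¹) :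
    φ = resZ E θ ⟨MulAut.conj (θ.symm g : FreeGroup X) * α, mul_mem (conj_mem_stabE _) hα⟩ := by
  ext1 v
  obtain ⟨w, rfl⟩ := θ.surjective v
  rw [hφ, resZ_apply]
  have h1 : resE E ⟨MulAut.conj (θ.symm g : FreeGroup X) * α, mul_mem (conj_mem_stabE _) hα⟩ w =
      θ.symm g * ⟨α w, (hα w).2 w.2⟩ * (θ.symm g)⁻¹ := by
    refine Subtype.ext ?_
    rw [resE_apply]
    rfl
  rw [h1, map_mul, map_mul, map_inv, MulEquiv.apply_symm_apply]

theorem res_deep {E : Subgroup (FreeGroup X)} (θ : E ≃* FreeGroup Z) {σ : stabE E} {m : ℕ}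
    (h : resZ E θ σ ∈ cong (FreeGroup Z) m) (w : E) :
    σ.1 w * (w : FreeGroup X)⁻¹ ∈ L (FreeGroup X) m := by
  have h2 := mem_cong.mp h (θ w)
  rw [resZ_apply, ← map_inv, ← map_mul, L_apply_iff] at h2
  exact L_map E.subtype h2

/-- **Congruence property for restrictions.** -/
theorem good_down [Finite X] {y₁ y₂ : X} (hy : y₁ ≠ y₂) (E : Subgroup (FreeGroup X))
    (hE : E.FiniteIndex) (θ : E ≃* FreeGroup Z) (A : MulAut (FreeGroup X) → Prop)
    (hA : Good X A) (hAc : ∀ a α, A α → A (MulAut.conj a * α)) :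
    Good Z (fun φ => ∃ (α : MulAut (FreeGroup X)) (hα : α ∈ stabE E) (g : FreeGroup Z), A α ∧
      ∀ w : E, φ (θ w) = g * θ ⟨α w, (hα w).2 w.2⟩ * g⁻¹) := by
  intro N hN
  have hst := stabE_finiteIndex E hE
  let N' : Subgroup (MulAut (FreeGroup X)) := (N.comap (resZ E θ)).map (stabE E).subtype
  have hN' : N'.FiniteIndex := by
    refine ⟨?_⟩
    rw [Subgroup.index_map_subtype]
    exact mul_ne_zero (comap_finiteIndex (resZ E θ) N hN).index_ne_zero hst.index_ne_zero
  obtain ⟨m', hm'⟩ := hA N' hN'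
  obtain ⟨m, hm⟩ := deep_of_res hy E hE m'
  refine ⟨m, ?_⟩
  rintro φ ⟨α, hα, g, hAα, hφ⟩ hφm
  rw [absorb θ hα hφ] at hφm ⊢
  obtain ⟨σ, hσ, hσ'⟩ := hm' _ (hAc _ _ hAα) (hm _ (res_deep θ hφm))
  have h3 : σ = ⟨_, mul_mem (conj_mem_stabE (θ.symm g)) hα⟩ := Subtype.ext hσ'
  rw [← h3]
  exact hσ

end Pool.Agent.CSPHier
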