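import Mathlib
import Pool.Agent.CSPHier.Levels

set_option autoImplicit false

/-! A bound for the index and the rank of a subgroup of a free group by its rank (a weak form of
Schreier's formula), by counting homomorphisms to the group of order two. -/

namespace Pool.Agent.CSPHier

variable {X Z : Type}

section coc

variable (E : Subgroup (FreeGroup X)) (c : X → FreeGroup X ⧸ E → ZMod 2)

/-- The permutations attached to the basis elements. -/
def cocSig (x : X) : Equiv.Perm ((FreeGroup X ⧸ E) × ZMod 2) where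
  toFun a := (FreeGroup.of x • a.1, a.2 + c x a.1)
  invFun a := ((FreeGroup.of x)⁻¹ • a.1, a.2 - c x ((FreeGroup.of x)⁻¹ • a.1))
  left_inv := by
    intro a
    refine Prod.ext (by simp) ?_
    simp
  right_inv := by
    intro a
    refine Prod.ext (by simp) ?_
    simp

/-- The permutation representation. -/
def cocRep : FreeGroup X →* Equiv.Perm ((FreeGroup X ⧸ E) × ZMod 2) :=
  FreeGroup.lift (cocSig E c)

theorem cocRep_apply (w : FreeGroup X) (a : FreeGroup X ⧸ E) (s : ZMod 2) :
    cocRep E c w (a, s) = (w • a, s + (cocRep E c w (a, 0)).2) := by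
  induction w using FreeGroup.induction_on generalizing a s with
  | C1 => simp
  | of j => simp [cocRep, cocSig]
  | inv_of j _ =>
    simp [cocRep, cocSig, Equiv.Perm.inv_def, sub_eq_add_neg]
  | mul x y hx hy =>
    rw [map_mul, Equiv.Perm.mul_apply, Equiv.Perm.mul_apply, hy, hx, hy a 0, hx _ (0 + _)]
    refine Prod.ext ?_ ?_
    · exact (mul_smul x y a).symm
    · change s + _ + _ = s + (0 + _ + _)
      ring

/-- The cocycle. -/
def coc (w : FreeGroup X) (a : FreeGroup X ⧸ E) : ZMod 2 := (cocRep E c w (a, 0)).2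

theorem coc_mul (v w : FreeGroup X) (a : FreeGroup X ⧸ E) :
    coc E c (v * w) a = coc E c v (w • a) + coc E c w a := by
  unfold coc
  rw [map_mul, Equiv.Perm.mul_apply, cocRep_apply E c w a 0, cocRep_apply E c v _ (0 + _)]
  change 0 + _ + _ = _
  ring

theorem coc_of (x : X) (a : FreeGroup X ⧸ E) : coc E c (FreeGroup.of x) a = c x a := by
  simp [coc, cocRep, cocSig]

theorem smul_base_E (w : E) : (w : FreeGroup X) • ((1 : FreeGroup X) : FreeGroup X ⧸ E) =
    ((1 : FreeGroup X) : FreeGroup X ⧸ E) := by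
  change (((w : FreeGroup X) * 1 : FreeGroup X) : FreeGroup X ⧸ E) = _
  rw [QuotientGroup.eq]
  simp

/-- The homomorphism on the subgroup. -/
def cocHom : E →* Multiplicative (ZMod 2) where
  toFun w := Multiplicative.ofAdd (coc E c w ((1 : FreeGroup X) : FreeGroup X ⧸ E))
  map_one' := by simp [coc]
  map_mul' := by
    intro v w
    rw [Subgroup.coe_mul, coc_mul, smul_base_E]
    rfl

end coc

/-- The data determine the cocycle. -/
theorem coc_injective (E : Subgroup (FreeGroup X)) (θ : E ≃* FreeGroup Z) :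
    Function.Injective (fun c : X → FreeGroup X ⧸ E → ZMod 2 =>
      ((fun a => coc E c a.out ((1 : FreeGroup X) : FreeGroup X ⧸ E) :
          FreeGroup X ⧸ E → ZMod 2),
        (fun z => coc E c (θ.symm (FreeGroup.of z)) ((1 : FreeGroup X) : FreeGroup X ⧸ E) :
          Z → ZMod 2))) := by
  intro c c' h
  simp only [Prod.mk.injEq] at h
  obtain ⟨h1, h2⟩ := h
  have h3 : cocHom E c = cocHom E c' := by
    have h4 : (cocHom E c).comp θ.symm.toMonoidHom = (cocHom E c').comp θ.symm.toMonoidHom := by
      refine FreeGroup.ext_hom _ _ fun z => ?_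
      exact congrArg Multiplicative.ofAdd (congrFun h2 z)
    ext w
    have h5 := DFunLike.congr_fun h4 (θ w)
    change cocHom E c (θ.symm (θ w)) = cocHom E c' (θ.symm (θ w)) at h5
    rw [MulEquiv.symm_apply_apply] at h5
    rw [h5]
  have h6 : ∀ w : E, coc E c w ((1 : FreeGroup X) : FreeGroup X ⧸ E) =
      coc E c' w ((1 : FreeGroup X) : FreeGroup X ⧸ E) := fun w =>
    congrArg Multiplicative.toAdd (DFunLike.congr_fun h3 w)
  have hout : ∀ a : FreeGroup X ⧸ E, a.out • ((1 : FreeGroup X) : FreeGroup X ⧸ E) = a := by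
    intro a
    change ((a.out * 1 : FreeGroup X) : FreeGroup X ⧸ E) = a
    rw [mul_one]
    exact a.out_eq'
  funext x a
  have hw : ((FreeGroup.of x • a).out)⁻¹ * (FreeGroup.of x * a.out) ∈ E := by
    rw [← QuotientGroup.eq]
    rw [QuotientGroup.out_eq']
    have h7 : ((FreeGroup.of x * a.out : FreeGroup X) : FreeGroup X ⧸ E) =
        FreeGroup.of x • ((a.out : FreeGroup X) : FreeGroup X ⧸ E) := rfl
    rw [h7, QuotientGroup.out_eq']
  have key : ∀ d : X → FreeGroup X ⧸ E → ZMod 2,
      d x a = coc E d (FreeGroup.of x • a).out ((1 : FreeGroup X) : FreeGroup X ⧸ E) +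
        coc E d (((FreeGroup.of x • a).out)⁻¹ * (FreeGroup.of x * a.out))
          ((1 : FreeGroup X) : FreeGroup X ⧸ E) -
        coc E d a.out ((1 : FreeGroup X) : FreeGroup X ⧸ E) := by
    intro d
    have h8 : coc E d (FreeGroup.of x * a.out) ((1 : FreeGroup X) : FreeGroup X ⧸ E) =
        d x a + coc E d a.out ((1 : FreeGroup X) : FreeGroup X ⧸ E) := by
      rw [coc_mul, coc_of, hout]
    have h9 : coc E d (FreeGroup.of x * a.out) ((1 : FreeGroup X) : FreeGroup X ⧸ E) =
        coc E d (FreeGroup.of x • a).out ((1 : FreeGroup X) : FreeGroup X ⧸ E) +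
        coc E d (((FreeGroup.of x • a).out)⁻¹ * (FreeGroup.of x * a.out))
          ((1 : FreeGroup X) : FreeGroup X ⧸ E) := by
      conv_lhs => rw [← mul_inv_cancel_left (FreeGroup.of x • a).out (FreeGroup.of x * a.out)]
      rw [coc_mul]
      congr 2
      exact smul_base_E E ⟨_, hw⟩
    rw [← h9, h8]
    ring
  rw [key c, key c', h6 ⟨_, hw⟩, congrFun h1 a, congrFun h1 (FreeGroup.of x • a)]

/-- **Weak Schreier formula.** -/
theorem rank_bound [Finite X] [Finite Z] (E : Subgroup (FreeGroup X)) (hE : E.FiniteIndex)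
    (θ : E ≃* FreeGroup Z) : E.index * Nat.card X ≤ E.index + Nat.card Z := by
  have h := Nat.card_le_card_of_injective _ (coc_injective E θ)
  have hQ : Nat.card (FreeGroup X ⧸ E) = E.index := rfl
  rw [Nat.card_prod, Nat.card_fun, Nat.card_fun, Nat.card_fun, hQ, Nat.card_zmod, ← pow_mul,
    ← pow_add] at h
  exact (Nat.pow_le_pow_iff_right (by norm_num)).mp h

end Pool.Agent.CSPHier
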