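import Mathlib
import Pool.Agent.CSPHier.Down
import Pool.Agent.CSPHier.RankBound

set_option autoImplicit false

/-! One level for the restrictions to all subgroups of finite index isomorphic to a given free
group. -/

namespace Pool.Agent.CSPHier

theorem L_le_of_index {G : Type} [Group G] (M : Subgroup G) (hM : M.FiniteIndex) :
    L G M.index ≤ M := by
  have := hM
  have : Finite (G ⧸ M) := inferInstance
  intro x hx
  let e : G ⧸ M ≃ Fin M.index := Finite.equivFinOfCardEq rfl
  have h1 := mem_L.mp hx (e.permCongrHom.toMonoidHom.comp (MulAction.toPermHom G (G ⧸ M)))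
  have h2 : e.permCongrHom (MulAction.toPermHom G (G ⧸ M) x) = 1 := h1
  have h3 := (map_eq_one_iff _ e.permCongrHom.injective).mp h2
  have h4 : x • ((1 : G) : G ⧸ M) = ((1 : G) : G ⧸ M) := by
    have := congrArg (fun e : Equiv.Perm (G ⧸ M) => e ((1 : G) : G ⧸ M)) h3
    exact this
  have h5 : ((x * 1 : G) : G ⧸ M) = ((1 : G) : G ⧸ M) := h4
  rw [QuotientGroup.eq, mul_one, mul_one] at h5
  exact (inv_mem_iff (x := x)).mp h5

theorem finite_ge_L {X : Type} [Finite X] (n : ℕ) :
    {E : Subgroup (FreeGroup X) | L (FreeGroup X) n ≤ E}.Finite := by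
  have h1 : Finite (FreeGroup X ⧸ L (FreeGroup X) n) := inferInstance
  have h2 : Finite (Subgroup (FreeGroup X ⧸ L (FreeGroup X) n)) := inferInstance
  refine (Set.finite_range fun F : Subgroup (FreeGroup X ⧸ L (FreeGroup X) n) =>
    F.comap (QuotientGroup.mk' (L (FreeGroup X) n))).subset ?_
  intro E hE
  refine ⟨E.map (QuotientGroup.mk' (L (FreeGroup X) n)), ?_⟩
  change Subgroup.comap _ (Subgroup.map _ _) = E
  rw [Subgroup.comap_map_eq, QuotientGroup.ker_mk']
  exact sup_eq_left.mpr hE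

/-- A nontrivial finite index subgroup relation makes the rank grow. -/
theorem rank_lt {X : Type} [Finite X] {n : ℕ} (hn : 3 ≤ n) (E : Subgroup (FreeGroup X))
    (hE : E.FiniteIndex) (hE1 : E ≠ ⊤) (θ : E ≃* FreeGroup (Fin n)) :
    Nat.card X < n ∧ E.index ≤ n ∧ 2 ≤ Nat.card X := by
  have hb := rank_bound E hE θ
  rw [Nat.card_eq_fintype_card (α := Fin n), Fintype.card_fin] at hb
  have h0 : E.index ≠ 0 := hE.index_ne_zero
  have h1 : E.index ≠ 1 := fun h => hE1 (Subgroup.index_eq_one.mp h)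
  have h2 : 2 ≤ E.index := by omega
  have h3 : 2 ≤ Nat.card X := by
    by_contra h
    -- the group is commutative
    have hsub : Subsingleton X := by
      rw [← Finite.card_le_one_iff_subsingleton]
      omega
    have hc : ∀ a b : FreeGroup X, a * b = b * a := by
      intro a b
      rcases isEmpty_or_nonempty X with hX | ⟨⟨x⟩⟩
      · exact Subsingleton.elim _ _
      · have : Unique X := ⟨⟨x⟩, fun y => Subsingleton.elim _ _⟩
        have key : ∀ a : FreeGroup X, ∃ i : ℤ, a = FreeGroup.of x ^ i := by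
          intro a
          induction a using FreeGroup.induction_on with
          | C1 => exact ⟨0, by simp⟩
          | of y => exact ⟨1, by rw [Subsingleton.elim y x, zpow_one]⟩
          | inv_of y _ => exact ⟨-1, by rw [Subsingleton.elim y x, zpow_neg_one]⟩
          | mul a b ha hb =>
            obtain ⟨i, rfl⟩ := ha
            obtain ⟨j, rfl⟩ := hb
            exact ⟨i + j, by rw [zpow_add]⟩
        obtain ⟨i, rfl⟩ := key a
        obtain ⟨j, rfl⟩ := key b
        rw [← zpow_add, ← zpow_add, add_comm]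
    have hc' : ∀ a b : FreeGroup (Fin n), a * b = b * a := by
      intro a b
      have h4 : θ.symm a * θ.symm b = θ.symm b * θ.symm a := Subtype.ext (hc _ _)
      rw [← map_mul, ← map_mul] at h4
      exact θ.symm.injective h4
    have h5 := hc' (FreeGroup.of ⟨0, by omega⟩) (FreeGroup.of ⟨1, by omega⟩)
    have h6 := congrArg (FreeGroup.lift fun i : Fin n =>
      if i.val = 0 then Equiv.swap (0 : Fin 3) 1 else Equiv.swap (1 : Fin 3) 2) h5
    simp only [map_mul, FreeGroup.lift_apply_of, if_true, one_ne_zero, if_false] at h6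
    have h7 := congrArg (fun e : Equiv.Perm (Fin 3) => e 0) h6
    revert h7
    decide
  have h4 : E.index * (Nat.card X - 1) ≤ n := by
    have : E.index * (Nat.card X - 1) + E.index = E.index * Nat.card X := by
      rw [← Nat.mul_succ]
      congr 1
      omega
    omega
  refine ⟨?_, ?_, h3⟩
  · have h5 : 2 * (Nat.card X - 1) ≤ E.index * (Nat.card X - 1) := Nat.mul_le_mul_right _ h2
    omega
  · have h5 : E.index * 1 ≤ E.index * (Nat.card X - 1) := Nat.mul_le_mul_left _ (by omega)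
    omega

/-- **One level for all restrictions.** -/
theorem good_downs (H : (Z : Type) → MulAut (FreeGroup Z) → Prop)
    (hHt : ∀ {Z Z' : Type} (ψ : FreeGroup Z ≃* FreeGroup Z') {φ : MulAut (FreeGroup Z)},
      H Z φ → H Z' (MulAut.congr ψ φ))
    (hHc : ∀ {Z : Type} {φ : MulAut (FreeGroup Z)} (a : FreeGroup Z),
      H Z φ → H Z (MulAut.conj a * φ))
    (n : ℕ) (hn : 3 ≤ n) (ih : ∀ r < n, Good (Fin r) (H (Fin r)))
    (N : Subgroup (MulAut (FreeGroup (Fin n)))) (hN : N.FiniteIndex) (hNn : N.Normal) :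
    ∃ m : ℕ, ∀ (X : Type) (_ : Finite X) (E : Subgroup (FreeGroup X)) (_ : E.FiniteIndex)
      (_ : E ≠ ⊤) (θ : E ≃* FreeGroup (Fin n)) (α : MulAut (FreeGroup X)) (hα : α ∈ stabE E)
      (g : FreeGroup (Fin n)) (φ : MulAut (FreeGroup (Fin n))), H X α →
      (∀ w : E, φ (θ w) = g * θ ⟨α w, (hα w).2 w.2⟩ * g⁻¹) →
      φ ∈ cong (FreeGroup (Fin n)) m → φ ∈ N := by
  classical
  -- one subgroup
  have h1 : ∀ (r : ℕ) (E : Subgroup (FreeGroup (Fin r))), ∃ m : ℕ, E.FiniteIndex → E ≠ ⊤ →
      ∀ (θ : E ≃* FreeGroup (Fin n)) (α : MulAut (FreeGroup (Fin r))) (hα : α ∈ stabE E)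
      (g : FreeGroup (Fin n)) (φ : MulAut (FreeGroup (Fin n))), H (Fin r) α →
      (∀ w : E, φ (θ w) = g * θ ⟨α w, (hα w).2 w.2⟩ * g⁻¹) →
      φ ∈ cong (FreeGroup (Fin n)) m → φ ∈ N := by
    intro r E
    by_cases h : E.FiniteIndex ∧ E ≠ ⊤ ∧ Nonempty (E ≃* FreeGroup (Fin n))
    · obtain ⟨hE, hE1, ⟨θ₀⟩⟩ := h
      obtain ⟨h2, _, h3⟩ := rank_lt hn E hE hE1 θ₀
      rw [Nat.card_eq_fintype_card (α := Fin r), Fintype.card_fin] at h2 h3
      have hy : (⟨0, by omega⟩ : Fin r) ≠ ⟨1, by omega⟩ := by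
        intro h
        exact absurd (congrArg Fin.val h) (by simp)
      obtain ⟨m, hm⟩ := good_down hy E hE θ₀ (H (Fin r)) (ih r h2) (fun a α => hHc a) N hN
      refine ⟨m, fun _ _ θ α hα g φ hHα hφ hφm => ?_⟩
      let χ : MulAut (FreeGroup (Fin n)) := θ.symm.trans θ₀
      have hχ : ∀ w : E, χ (θ w) = θ₀ w := by
        intro w
        change θ₀ (θ.symm (θ w)) = θ₀ w
        rw [MulEquiv.symm_apply_apply]
      have h4 : χ * φ * χ⁻¹ ∈ N := by
        refine hm _ ⟨α, hα, χ g, hHα, fun w => ?_⟩ ((cong_normal m).conj_mem _ hφm χ)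
        rw [MulAut.mul_apply, MulAut.mul_apply, ← hχ w, MulAut.inv_apply_self, hφ, map_mul, map_mul,
          map_inv, hχ]
      have h5 := hNn.conj_mem _ h4 χ⁻¹
      have h6 : χ⁻¹ * (χ * φ * χ⁻¹) * χ⁻¹⁻¹ = φ := by group
      rwa [h6] at h5
    · exact ⟨0, fun hE hE1 θ => absurd ⟨hE, hE1, ⟨θ⟩⟩ h⟩
  choose M hM using h1
  -- finitely many subgroups
  let T : (r : ℕ) → Finset (Subgroup (FreeGroup (Fin r))) := fun r =>
    (finite_ge_L (X := Fin r) n).toFinset
  refine ⟨(Finset.range n).sup fun r => (T r).sup (M r), ?_⟩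
  intro X hX E hE hE1 θ α hα g φ hHα hφ hφm
  obtain ⟨h2, h3, h4⟩ := rank_lt hn E hE hE1 θ
  -- transport to `Fin r`
  let e : X ≃ Fin (Nat.card X) := Finite.equivFin X
  let ε : FreeGroup X ≃* FreeGroup (Fin (Nat.card X)) := FreeGroup.freeGroupCongr e
  let E' : Subgroup (FreeGroup (Fin (Nat.card X))) := E.map (ε : FreeGroup X →* _)
  have hidx : E'.index = E.index := Subgroup.index_map_equiv _ _
  have hE' : E'.FiniteIndex := ⟨by rw [hidx]; exact hE.index_ne_zero⟩
  have hE1' : E' ≠ ⊤ := by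
    intro h
    apply hE1
    rw [← Subgroup.index_eq_one, ← hidx, h, Subgroup.index_top]
  let ε' : E ≃* E' := ε.subgroupMap E
  have hE'T : E' ∈ T (Nat.card X) := by
    rw [Set.Finite.mem_toFinset]
    change L _ n ≤ E'
    refine le_trans (L_anti ?_) (L_le_of_index E' hE')
    rw [hidx]
    exact h3
  have hmem : ∀ w : FreeGroup (Fin (Nat.card X)), w ∈ E' ↔ ε.symm w ∈ E := by
    intro w
    constructor
    · rintro ⟨v, hv, rfl⟩
      have : ε.symm ((ε : FreeGroup X →* _) v) = v := ε.symm_apply_apply v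
      rw [this]
      exact hv
    · intro h
      exact ⟨ε.symm w, h, ε.apply_symm_apply w⟩
  have hα' : MulAut.congr ε α ∈ stabE E' := by
    intro w
    rw [hmem, hmem]
    change ε.symm (ε (α (ε.symm w))) ∈ E ↔ _
    rw [MulEquiv.symm_apply_apply]
    exact hα _
  refine hM (Nat.card X) E' hE' hE1' (ε'.symm.trans θ) (MulAut.congr ε α) hα' g φ (hHt ε hHα) ?_
    (cong_anti ?_ hφm)
  · intro w
    obtain ⟨v, rfl⟩ := ε'.surjective w
    have h5 : (ε'.symm.trans θ) (ε' v) = θ v := by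
      change θ (ε'.symm (ε' v)) = θ v
      rw [MulEquiv.symm_apply_apply]
    rw [h5, hφ v]
    congr 2
    change _ = θ (ε'.symm _)
    congr 1
    rw [MulEquiv.eq_symm_apply]
    refine Subtype.ext ?_
    change ε (α v) = ε (α (ε.symm (ε v)))
    rw [MulEquiv.symm_apply_apply]
  · refine le_trans ?_ (Finset.le_sup (f := fun r => (T r).sup (M r)) (Finset.mem_range.mpr h2))
    exact Finset.le_sup (f := M (Nat.card X)) hE'T

end Pool.Agent.CSPHier
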