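import Mathlib
import Pool.Agent.CSPHier.Split

set_option autoImplicit false

/-! The congruence property passes through the Birman operation (pushing a puncture). -/

namespace Pool.Agent.CSPHier

variable {X : Type}

/-- The boundary word of the free group with one more basis element, `d` being the boundary word of
the old one. -/
def bd (d : FreeGroup X) : FreeGroup (Option X) := FreeGroup.map some d * FreeGroup.of none

/-- `p` is a homomorphism pushing the new puncture (whose loop is the new basis element `t`) inside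
the old surface (with fundamental group `FreeGroup X` and boundary word `d`): `p c` fixes the new
boundary word `d t`, sends `t` to a conjugate `g t g⁻¹` with `g` projecting to `c⁻¹`, induces the
identity after filling the puncture, and `p d` is the push along the boundary, which is, up to the
inner automorphism by `d t`, the conjugation by `d` on the old group. -/
structure IsPush (d : FreeGroup X) (p : FreeGroup X →* MulAut (FreeGroup (Option X))) : Prop where
  fix : ∀ c, p c (bd d) = bd d
  push : ∀ c, ∃ g : FreeGroup (Option X),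
    p c (FreeGroup.of none) = g * FreeGroup.of none * g⁻¹ ∧ retO g = c⁻¹
  proj : ∀ c w, retO (p c w) = retO w
  boundary : p d = (MulAut.conj (bd d))⁻¹ * extO (MulAut.conj d)

theorem extO_some (α : MulAut (FreeGroup X)) (w : FreeGroup X) :
    extO α (FreeGroup.map some w) = FreeGroup.map some (α w) := loopAut_some _ _ _ _

theorem extO_none (α : MulAut (FreeGroup X)) :
    extO α (FreeGroup.of none) = FreeGroup.of none := by
  change loopAut α 1 1 _ = _
  rw [loopAut_none]
  simp

theorem extO_bd {α : MulAut (FreeGroup X)} {d : FreeGroup X} (h : α d = d) :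
    extO α (bd d) = bd d := by
  unfold bd
  rw [map_mul, extO_some, extO_none, h]

theorem loopAut_bd (d : FreeGroup X) : loopAut 1 d 1 (FreeGroup.of none) = bd d := by
  rw [loopAut_none]
  simp [bd]

theorem mem_fac_none {w : FreeGroup (Option X)} (hw : w ∈ fac {(none : Option X)}) :
    ∃ i : ℤ, w = FreeGroup.of none ^ i := by
  unfold fac at hw
  rw [Set.image_singleton, ← Subgroup.zpowers_eq_closure] at hw
  obtain ⟨i, hi⟩ := hw
  exact ⟨i, hi.symm⟩

theorem mem_fac_none_sup {w : FreeGroup (Option X)} {m : ℕ}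
    (hw : w ∈ fac {(none : Option X)} ⊔ L (FreeGroup (Option X)) m) :
    ∃ i : ℤ, ∃ k ∈ L (FreeGroup (Option X)) m, w = FreeGroup.of none ^ i * k := by
  rw [Subgroup.mem_sup_of_normal_right] at hw
  obtain ⟨a, ha, k, hk, rfl⟩ := hw
  obtain ⟨i, rfl⟩ := mem_fac_none ha
  exact ⟨i, k, hk, rfl⟩

/-- **Congruence property for the Birman operation.** One level serves for all boundary words and
all pushing homomorphisms. -/
theorem good_push [Finite X] (A : MulAut (FreeGroup X) → Prop)
    (hA : Good X A) (hinn : ∀ a α, A α → A (MulAut.conj a * α)) :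
    Good (Option X) (fun φ => ∃ (d : FreeGroup X) (p : FreeGroup X →* MulAut (FreeGroup (Option X)))
      (c : FreeGroup X) (β : MulAut (FreeGroup X)) (h : FreeGroup (Option X)),
      IsPush d p ∧ A β ∧ β d = d ∧ φ = MulAut.conj h * p c * extO β) := by
  intro N' hN'
  -- pass to the normal core
  let N : Subgroup (MulAut (FreeGroup (Option X))) := N'.normalCore
  have hN : N.FiniteIndex := inferInstance
  have hNn : N.Normal := Subgroup.normalCore_normal N'
  have hNle : N ≤ N' := N'.normalCore_le
  -- the levels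
  obtain ⟨mA, hmA⟩ := hA (N.comap extO) (comap_finiteIndex _ _ hN)
  obtain ⟨mC, hmC⟩ := exists_L_le (N.comap MulAut.conj) (comap_finiteIndex _ _ hN)
  have hp : ∀ p : FreeGroup X →* MulAut (FreeGroup (Option X)),
      ∀ l ∈ L (FreeGroup X) N.index, p l ∈ N := by
    intro p l hl
    have h1 : (N.comap p).FiniteIndex := comap_finiteIndex _ _ hN
    have h2 : (N.comap p).index ≤ N.index := by
      rw [Subgroup.index_comap]
      exact Nat.le_of_dvd (Nat.pos_of_ne_zero hN.index_ne_zero)
        (Subgroup.relIndex_dvd_index_of_normal _ _)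
    have h3 : L (FreeGroup X) (N.comap p).index ≤ N.comap p := by
      have := h1
      have : Finite (FreeGroup X ⧸ N.comap p) := inferInstance
      intro x hx
      let e : FreeGroup X ⧸ N.comap p ≃ Fin (N.comap p).index := Finite.equivFinOfCardEq rfl
      have h1 := mem_L.mp hx (e.permCongrHom.toMonoidHom.comp
        (MulAction.toPermHom (FreeGroup X) (FreeGroup X ⧸ N.comap p)))
      have h2 : e.permCongrHom (MulAction.toPermHom (FreeGroup X) (FreeGroup X ⧸ N.comap p) x) =
        1 := h1
      have h3 := (map_eq_one_iff _ e.permCongrHom.injective).mp h2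
      have h4 : x • ((1 : FreeGroup X) : FreeGroup X ⧸ N.comap p) =
          ((1 : FreeGroup X) : FreeGroup X ⧸ N.comap p) := by
        have := congrArg (fun e : Equiv.Perm (FreeGroup X ⧸ N.comap p) =>
          e ((1 : FreeGroup X) : FreeGroup X ⧸ N.comap p)) h3
        exact this
      have h5 : ((x * 1 : FreeGroup X) : FreeGroup X ⧸ N.comap p) =
          ((1 : FreeGroup X) : FreeGroup X ⧸ N.comap p) := h4
      rw [QuotientGroup.eq, mul_one, mul_one] at h5
      exact (inv_mem_iff (x := x)).mp h5
    exact h3 (L_anti h2 hl)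
  set m1 : ℕ := max mA (max mC N.index) with hm1
  obtain ⟨m2, hm2⟩ := malnormal (fac {(none : Option X)} ⊔ L (FreeGroup (Option X)) m1)
    (fac_sup_finiteIndex _ _) {none} le_sup_left none (Set.mem_singleton _)
  refine ⟨max m1 m2, ?_⟩
  rintro φ ⟨d, p, c, β, h, hP, hβ, hβd, rfl⟩ hφ
  apply hNle
  have hmem := mem_cong.mp hφ
  set z : FreeGroup (Option X) := bd d with hz
  set t : FreeGroup (Option X) := FreeGroup.of none with ht
  -- the conjugating element is a power of the boundary word
  have s1 : (MulAut.conj h * p c * extO β) z = h * z * h⁻¹ := by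
    rw [MulAut.mul_apply, MulAut.mul_apply, extO_bd hβd, hP.fix, MulAut.conj_apply]
  obtain ⟨i, k, hk, hhk⟩ : ∃ i : ℤ, ∃ k ∈ L (FreeGroup (Option X)) m1, h = z ^ i * k := by
    let τ : MulAut (FreeGroup (Option X)) := loopAut 1 d 1
    have hτ : τ t = z := loopAut_bd d
    have h1 : h * z * h⁻¹ * z⁻¹ ∈ L (FreeGroup (Option X)) m2 := by
      rw [← s1]
      exact L_anti (le_max_right _ _) (hmem z)
    have h2 : τ⁻¹ h * t * (τ⁻¹ h)⁻¹ * t⁻¹ ∈ L (FreeGroup (Option X)) m2 := by
      rw [← L_apply_iff τ, map_mul, map_mul, map_mul, map_inv, map_inv, hτ,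
        MulAut.apply_inv_self]
      exact h1
    have h3 := hm2 _ _ (of_mem_fac (Set.mem_singleton _)) h2
    obtain ⟨i, k, hk, h4⟩ := mem_fac_none_sup h3
    refine ⟨i, τ k, (L_apply_iff τ).mpr hk, ?_⟩
    rw [← hτ, ← map_zpow, ← map_mul, ← h4, MulAut.apply_inv_self]
  -- the pushing path is a power of the boundary word
  obtain ⟨g, hg, hgc⟩ := hP.push c
  obtain ⟨j, k2, hk2, hhg⟩ : ∃ j : ℤ, ∃ k2 ∈ L (FreeGroup (Option X)) m1, h * g = t ^ j * k2 := by
    have s2 : (MulAut.conj h * p c * extO β) t = h * g * t * (h * g)⁻¹ := by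
      rw [MulAut.mul_apply, MulAut.mul_apply, extO_none, hg, MulAut.conj_apply, ← ht]
      group
    have h1 : h * g * t * (h * g)⁻¹ * t⁻¹ ∈ L (FreeGroup (Option X)) m2 := by
      rw [← s2]
      exact L_anti (le_max_right _ _) (hmem t)
    exact mem_fac_none_sup (hm2 _ _ (of_mem_fac (Set.mem_singleton _)) h1)
  have hrt : retO t = (1 : FreeGroup X) := by
    rw [ht]
    simp [retO]
  have hrz : retO z = d := by
    rw [hz, bd, map_mul, retO_some]
    simp [retO]
  have s3 : retO h * c⁻¹ ∈ L (FreeGroup X) m1 := by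
    have h1 : retO (h * g) = retO k2 := by
      rw [hhg, map_mul, map_zpow, hrt, one_zpow, one_mul]
    rw [map_mul, hgc] at h1
    rw [h1]
    exact L_map _ hk2
  have hrk : retO k ∈ L (FreeGroup X) m1 := L_map _ hk
  have s4 : retO h = d ^ i * retO k := by rw [hhk, map_mul, map_zpow, hrz]
  set l : FreeGroup X := (d ^ i)⁻¹ * c with hl
  have hlL : l ∈ L (FreeGroup X) m1 := by
    have h1 : l = ((d ^ i)⁻¹ * (retO h * c⁻¹)⁻¹ * (d ^ i)⁻¹⁻¹) * retO k := by
      rw [hl, s4]
      group
    rw [h1]
    exact mul_mem ((L_normal m1).conj_mem _ (inv_mem s3) _) hrk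
  clear_value l
  -- the push along the power of the boundary word
  set e : MulAut (FreeGroup (Option X)) := extO (MulAut.conj d) with he
  have hez : e z = z := by
    rw [he, hz]
    apply extO_bd
    rw [MulAut.conj_apply]
    group
  have hcomm : Commute (MulAut.conj z)⁻¹ e := by
    apply Commute.inv_left
    change MulAut.conj z * e = e * MulAut.conj z
    ext1 w
    rw [MulAut.mul_apply, MulAut.mul_apply, MulAut.conj_apply, MulAut.conj_apply, map_mul, map_mul,
      map_inv, hez]
  have s5 : p c = (MulAut.conj z)⁻¹ ^ i * e ^ i * p l := by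
    have h1 : c = d ^ i * l := by rw [hl]; group
    conv_lhs => rw [h1]
    rw [map_mul, map_zpow, hP.boundary, hcomm.mul_zpow]
  have s6 : MulAut.conj h * p c * extO β =
      MulAut.conj (z ^ i * k * (z ^ i)⁻¹) * (e ^ i * p l * (e ^ i)⁻¹) *
        extO (MulAut.conj (d ^ i) * β) := by
    have a1 : MulAut.conj (z ^ i * k) = MulAut.conj z ^ i * MulAut.conj k := by
      rw [map_mul, map_zpow]
    have a2 : MulAut.conj (z ^ i * k * (z ^ i)⁻¹) =
        MulAut.conj z ^ i * MulAut.conj k * (MulAut.conj z ^ i)⁻¹ := by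
      rw [map_mul, map_mul, map_inv, map_zpow]
    have a3 : extO (MulAut.conj (d ^ i) * β) = e ^ i * extO β := by
      rw [map_mul, map_zpow, map_zpow]
    rw [s5, hhk, a1, a2, a3]
    group
  rw [s6]
  refine mul_mem (mul_mem ?_ ?_) ?_
  · have h1 : z ^ i * k * (z ^ i)⁻¹ ∈ L (FreeGroup (Option X)) mC :=
      L_anti ((le_max_left _ _).trans (le_max_right _ _)) ((L_normal m1).conj_mem _ hk _)
    exact hmC h1
  · exact hNn.conj_mem _ (hp p l (L_anti ((le_max_right _ _).trans (le_max_right _ _)) hlL)) _
  · refine hmA _ (hinn _ _ hβ) ?_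
    have h1 : MulAut.conj (retO h) * β ∈ cong (FreeGroup X) m1 := by
      rw [mem_cong]
      intro w
      have h2 := L_map retO (L_anti (le_max_left m1 m2) (hmem (FreeGroup.map some w)))
      rw [MulAut.mul_apply, MulAut.mul_apply, extO_some, MulAut.conj_apply, map_mul, map_mul,
        map_mul, map_inv, map_inv, hP.proj, retO_some, retO_some] at h2
      rw [MulAut.mul_apply, MulAut.conj_apply]
      exact h2
    have h2 : MulAut.conj (d ^ i) * β =
        (MulAut.conj (d ^ i * retO k * (d ^ i)⁻¹))⁻¹ * (MulAut.conj (retO h) * β) := by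
      have a1 : MulAut.conj (d ^ i * retO k) = MulAut.conj (d ^ i) * MulAut.conj (retO k) :=
        map_mul _ _ _
      have a2 : MulAut.conj (d ^ i * retO k * (d ^ i)⁻¹) =
          MulAut.conj (d ^ i) * MulAut.conj (retO k) * (MulAut.conj (d ^ i))⁻¹ := by
        rw [map_mul, map_mul, map_inv]
      rw [s4, a1, a2]
      group
    rw [h2]
    refine cong_anti (le_max_left _ _) (mul_mem (inv_mem (conj_mem_cong ?_)) h1)
    exact (L_normal m1).conj_mem _ hrk _

end Pool.Agent.CSPHier
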