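import Mathlib
import Pool.Agent.CSPHier.Push

set_option autoImplicit false

/-! Transport of pushing homomorphisms along bijections of the bases. -/

namespace Pool.Agent.CSPHier

variable {X X' : Type} (e : X ≃ X')

/-- the isomorphism of the larger free groups -/
abbrev oc : FreeGroup (Option X) ≃* FreeGroup (Option X') :=
  FreeGroup.freeGroupCongr (Equiv.optionCongr e)

theorem oc_some (w : FreeGroup X) :
    oc e (FreeGroup.map some w) = FreeGroup.map some (FreeGroup.freeGroupCongr e w) := by
  change FreeGroup.map (Equiv.optionCongr e) (FreeGroup.map some w) =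
    FreeGroup.map some (FreeGroup.map e w)
  rw [FreeGroup.map.comp, FreeGroup.map.comp]
  rfl

theorem oc_none : oc e (FreeGroup.of none) = FreeGroup.of none := by
  change FreeGroup.map (Equiv.optionCongr e) (FreeGroup.of none) = _
  rw [FreeGroup.map.of]
  rfl

theorem oc_bd (d : FreeGroup X) : oc e (bd d) = bd (FreeGroup.freeGroupCongr e d) := by
  rw [bd, map_mul, oc_some, oc_none, bd]

theorem ret_oc (w : FreeGroup (Option X)) :
    retO (oc e w) = FreeGroup.freeGroupCongr e (retO w) := by
  have h : (retO.comp (oc e).toMonoidHom) = (FreeGroup.freeGroupCongr e).toMonoidHom.comp retO := by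
    apply opt_hom_ext
    · intro w
      change retO (oc e (FreeGroup.map some w)) = FreeGroup.freeGroupCongr e (retO _)
      rw [oc_some, retO_some, retO_some]
    · change retO (oc e (FreeGroup.of none)) = FreeGroup.freeGroupCongr e (retO _)
      rw [oc_none]
      simp [retO]
  exact DFunLike.congr_fun h w

theorem congr_apply {G H : Type} [Group G] [Group H] (ψ : G ≃* H) (α : MulAut G) (w : G) :
    MulAut.congr ψ α (ψ w) = ψ (α w) := by
  change ψ (α (ψ.symm (ψ w))) = _
  rw [MulEquiv.symm_apply_apply]

theorem congr_extO (α : MulAut (FreeGroup X)) :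
    MulAut.congr (oc e) (extO α) = extO (MulAut.congr (FreeGroup.freeGroupCongr e) α) := by
  apply opt_aut_ext
  · intro w
    obtain ⟨v, rfl⟩ := (FreeGroup.freeGroupCongr e).surjective w
    rw [← oc_some, congr_apply, extO_some, oc_some, oc_some, extO_some, congr_apply]
  · rw [← oc_none e, congr_apply, extO_none, oc_none, extO_none]

theorem congr_conj {G H : Type} [Group G] [Group H] (ψ : G ≃* H) (a : G) :
    MulAut.congr ψ (MulAut.conj a) = MulAut.conj (ψ a) := by
  ext1 w
  obtain ⟨v, rfl⟩ := ψ.surjective w
  rw [congr_apply, MulAut.conj_apply, MulAut.conj_apply, map_mul, map_mul, map_inv]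

/-- The transported pushing homomorphism. -/
def pushT (p : FreeGroup X →* MulAut (FreeGroup (Option X))) :
    FreeGroup X' →* MulAut (FreeGroup (Option X')) :=
  ((MulAut.congr (oc e)).toMonoidHom.comp p).comp (FreeGroup.freeGroupCongr e).symm.toMonoidHom

theorem pushT_apply (p : FreeGroup X →* MulAut (FreeGroup (Option X))) (c : FreeGroup X) :
    pushT e p (FreeGroup.freeGroupCongr e c) = MulAut.congr (oc e) (p c) := by
  change MulAut.congr (oc e) (p ((FreeGroup.freeGroupCongr e).symm
    (FreeGroup.freeGroupCongr e c))) = _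
  rw [MulEquiv.symm_apply_apply]

theorem isPush_pushT {d : FreeGroup X} {p : FreeGroup X →* MulAut (FreeGroup (Option X))}
    (h : IsPush d p) : IsPush (FreeGroup.freeGroupCongr e d) (pushT e p) := by
  refine ⟨fun c => ?_, fun c => ?_, fun c w => ?_, ?_⟩
  · obtain ⟨c, rfl⟩ := (FreeGroup.freeGroupCongr e).surjective c
    rw [pushT_apply, ← oc_bd, congr_apply, h.fix]
  · obtain ⟨c, rfl⟩ := (FreeGroup.freeGroupCongr e).surjective c
    obtain ⟨g, hg, hc⟩ := h.push c
    refine ⟨oc e g, ?_, ?_⟩
    · conv_lhs => rw [← oc_none e]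
      rw [pushT_apply, congr_apply, hg, map_mul, map_mul, map_inv, oc_none]
    · rw [ret_oc, hc, map_inv]
  · obtain ⟨c, rfl⟩ := (FreeGroup.freeGroupCongr e).surjective c
    obtain ⟨w, rfl⟩ := (oc e).surjective w
    rw [pushT_apply, congr_apply, ret_oc, ret_oc, h.proj]
  · rw [pushT_apply, h.boundary, map_mul, map_inv, congr_conj, congr_extO, congr_conj, oc_bd]

end Pool.Agent.CSPHier
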