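import Mathlib
import Pool.Agent.CSPHier.Downs
import Pool.Agent.CSPHier.PushT
import Pool.Agent.CSPHier.Asada

set_option autoImplicit false

namespace Pool.Agent.CSPHier.Plus

open Pool.Agent.CSPHier

/-- The automorphisms of the free group that act on `F / K` as an inner automorphism
(for a characteristic subgroup `K` this is the preimage in `Aut F` of the kernel of
`Out F → Out (F / K)`). -/
def congr {n : ℕ} (K : Subgroup (FreeGroup (Fin n))) : Set (MulAut (FreeGroup (Fin n))) :=
  {ψ | ∃ g : FreeGroup (Fin n), ∀ x : FreeGroup (Fin n), ψ x * (g * x * g⁻¹)⁻¹ ∈ K}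

/-- The automorphisms of free groups that can be decomposed into automorphisms of free groups of
rank at most two by the following operations (everywhere up to an inner automorphism and up to an
arbitrary identification `θ`):
* `small`: every automorphism of a free group of rank at most two is allowed;
* `split`: the free product of allowed automorphisms `α` and `β` of the nontrivial free groups
  `FreeGroup X` and `FreeGroup Y`;
* `loop`: an allowed automorphism `α` on the factor `FreeGroup X` of the free product of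
  `FreeGroup X` and an infinite cyclic group (free on `Option X`, the generator `t` of the cyclic
  group being `none`), and `t ↦ u t v` or `u t⁻¹ v` with `u`, `v` in `FreeGroup X`;
* `down`: the restriction of an allowed automorphism `α` of `FreeGroup X` to an invariant proper
  subgroup `E` of finite index;
* `push`: the product of the push `p c` and of the extension by `t ↦ t` of an allowed automorphism
  `β` of `FreeGroup X` fixing the boundary word `d`, where `p` is a homomorphism pushing the new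
  puncture `t` (`IsPush d p`) and `c` is any element of `FreeGroup X`. -/
inductive Hierarchical : (Z : Type) → MulAut (FreeGroup Z) → Prop
  | small {Z : Type} [Finite Z] (hZ : Nat.card Z ≤ 2) (φ : MulAut (FreeGroup Z)) :
      Hierarchical Z φ
  | split {X Y Z : Type} [Nonempty X] [Nonempty Y] (θ : FreeGroup (X ⊕ Y) ≃* FreeGroup Z)
      (α : MulAut (FreeGroup X)) (β : MulAut (FreeGroup Y)) (φ : MulAut (FreeGroup Z))
      (g : FreeGroup Z) (hα : Hierarchical X α) (hβ : Hierarchical Y β)
      (hφX : ∀ w : FreeGroup X, φ (θ (FreeGroup.map Sum.inl w)) =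
        g * θ (FreeGroup.map Sum.inl (α w)) * g⁻¹)
      (hφY : ∀ w : FreeGroup Y, φ (θ (FreeGroup.map Sum.inr w)) =
        g * θ (FreeGroup.map Sum.inr (β w)) * g⁻¹) :
      Hierarchical Z φ
  | loop {X Z : Type} (θ : FreeGroup (Option X) ≃* FreeGroup Z)
      (α : MulAut (FreeGroup X)) (φ : MulAut (FreeGroup Z)) (g : FreeGroup Z)
      (u v : FreeGroup X) (hα : Hierarchical X α)
      (hφX : ∀ w : FreeGroup X, φ (θ (FreeGroup.map some w)) =
        g * θ (FreeGroup.map some (α w)) * g⁻¹)
      (hφt : φ (θ (FreeGroup.of none)) =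
          g * θ (FreeGroup.map some u * FreeGroup.of none * FreeGroup.map some v) * g⁻¹ ∨
        φ (θ (FreeGroup.of none)) =
          g * θ (FreeGroup.map some u * (FreeGroup.of none)⁻¹ * FreeGroup.map some v) * g⁻¹) :
      Hierarchical Z φ
  | down {X Z : Type} [Finite X] (E : Subgroup (FreeGroup X)) (hE : E.FiniteIndex) (hE1 : E ≠ ⊤)
      (θ : E ≃* FreeGroup Z) (α : MulAut (FreeGroup X)) (φ : MulAut (FreeGroup Z))
      (g : FreeGroup Z) (hα : Hierarchical X α) (hinv : ∀ w : FreeGroup X, α w ∈ E ↔ w ∈ E)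
      (hφ : ∀ w : E, φ (θ w) = g * θ ⟨α w, (hinv w).2 w.2⟩ * g⁻¹) :
      Hierarchical Z φ
  | push {X Z : Type} (θ : FreeGroup (Option X) ≃* FreeGroup Z) (d : FreeGroup X)
      (p : FreeGroup X →* MulAut (FreeGroup (Option X))) (hp : IsPush d p) (c : FreeGroup X)
      (β : MulAut (FreeGroup X)) (φ : MulAut (FreeGroup Z)) (g : FreeGroup Z)
      (hβ : Hierarchical X β) (hd : β d = d)
      (hφ : ∀ w : FreeGroup (Option X), φ (θ w) = g * θ (p c (extO β w)) * g⁻¹) :
      Hierarchical Z φ

theorem hierarchical_congr {Z Z' : Type} (ψ : FreeGroup Z ≃* FreeGroup Z')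
    {φ : MulAut (FreeGroup Z)} (h : Hierarchical Z φ) :
    Hierarchical Z' (MulAut.congr ψ φ) := by
  cases h with
  | small hZ =>
    have : Finite Z' := Finite.of_equiv _ (Equiv.ofFreeGroupEquiv ψ)
    exact .small (by rw [← Nat.card_congr (Equiv.ofFreeGroupEquiv ψ)]; exact hZ) _
  | split θ α β _ g hα hβ hφX hφY =>
    refine .split (θ.trans ψ) α β _ (ψ g) hα hβ ?_ ?_
    · intro w
      change ψ (φ (ψ.symm (ψ (θ _)))) = _
      rw [MulEquiv.symm_apply_apply, hφX, map_mul, map_mul, map_inv]
      rfl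
    · intro w
      change ψ (φ (ψ.symm (ψ (θ _)))) = _
      rw [MulEquiv.symm_apply_apply, hφY, map_mul, map_mul, map_inv]
      rfl
  | loop θ α _ g u v hα hφX hφt =>
    refine .loop (θ.trans ψ) α _ (ψ g) u v hα ?_ ?_
    · intro w
      change ψ (φ (ψ.symm (ψ (θ _)))) = _
      rw [MulEquiv.symm_apply_apply, hφX, map_mul, map_mul, map_inv]
      rfl
    · rcases hφt with hφt | hφt
      · left
        change ψ (φ (ψ.symm (ψ (θ _)))) = _
        rw [MulEquiv.symm_apply_apply, hφt, map_mul, map_mul, map_inv]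
        rfl
      · right
        change ψ (φ (ψ.symm (ψ (θ _)))) = _
        rw [MulEquiv.symm_apply_apply, hφt, map_mul, map_mul, map_inv]
        rfl
  | down E hE hE1 θ α _ g hα hinv hφ =>
    refine .down E hE hE1 (θ.trans ψ) α _ (ψ g) hα hinv ?_
    intro w
    change ψ (φ (ψ.symm (ψ (θ _)))) = _
    rw [MulEquiv.symm_apply_apply, hφ, map_mul, map_mul, map_inv]
    rfl
  | push θ d p hp c β _ g hβ hd hφ =>
    refine .push (θ.trans ψ) d p hp c β _ (ψ g) hβ hd ?_
    intro w
    change ψ (φ (ψ.symm (ψ (θ _)))) = _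
    rw [MulEquiv.symm_apply_apply, hφ, map_mul, map_mul, map_inv]
    rfl

theorem hierarchical_conj {Z : Type} {φ : MulAut (FreeGroup Z)} (a : FreeGroup Z)
    (h : Hierarchical Z φ) : Hierarchical Z (MulAut.conj a * φ) := by
  cases h with
  | small hZ => exact .small hZ _
  | split θ α β _ g hα hβ hφX hφY =>
    refine .split θ α β _ (a * g) hα hβ ?_ ?_
    · intro w
      rw [MulAut.mul_apply, hφX, MulAut.conj_apply]; group
    · intro w
      rw [MulAut.mul_apply, hφY, MulAut.conj_apply]; group
  | loop θ α _ g u v hα hφX hφt =>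
    refine .loop θ α _ (a * g) u v hα ?_ ?_
    · intro w
      rw [MulAut.mul_apply, hφX, MulAut.conj_apply]; group
    · rcases hφt with hφt | hφt
      · left
        rw [MulAut.mul_apply, hφt, MulAut.conj_apply]; group
      · right
        rw [MulAut.mul_apply, hφt, MulAut.conj_apply]; group
  | down E hE hE1 θ α _ g hα hinv hφ =>
    refine .down E hE hE1 θ α _ (a * g) hα hinv ?_
    intro w
    rw [MulAut.mul_apply, hφ, MulAut.conj_apply]; group
  | push θ d p hp c β _ g hβ hd hφ =>
    refine .push θ d p hp c β _ (a * g) hβ hd ?_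
    intro w
    rw [MulAut.mul_apply, hφ, MulAut.conj_apply]; group

/-- A bound for the level that works for all identifications. -/
theorem uniform {Z₀ Z : Type} (C : MulAut (FreeGroup Z₀) → Prop) (hC : Good Z₀ C)
    (N : Subgroup (MulAut (FreeGroup Z))) (hN : N.FiniteIndex) (hNn : N.Normal) :
    ∃ m : ℕ, ∀ θ : FreeGroup Z₀ ≃* FreeGroup Z, ∀ φ : MulAut (FreeGroup Z),
      C (MulAut.congr θ.symm φ) → φ ∈ cong (FreeGroup Z) m → φ ∈ N := by
  by_cases hex : Nonempty (FreeGroup Z₀ ≃* FreeGroup Z)
  swap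
  · exact ⟨0, fun θ => absurd ⟨θ⟩ hex⟩
  obtain ⟨θ₀⟩ := hex
  obtain ⟨m, hm⟩ := hC (N.comap (MulAut.congr θ₀).toMonoidHom) (comap_finiteIndex _ _ hN)
  refine ⟨m, fun θ φ hφ hφm => ?_⟩
  have h1 := hm _ hφ (congr_mem_cong θ.symm hφm)
  have h2 : MulAut.congr θ₀ (MulAut.congr θ.symm φ) ∈ N := h1
  let χ : MulAut (FreeGroup Z) := θ.symm.trans θ₀
  have h3 : MulAut.congr θ₀ (MulAut.congr θ.symm φ) = χ * φ * χ⁻¹ := by
    ext1 w
    rfl
  rw [h3] at h2
  have h4 := hNn.conj_mem _ h2 χ⁻¹
  have h5 : χ⁻¹ * (χ * φ * χ⁻¹) * χ⁻¹⁻¹ = φ := by group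
  rwa [h5] at h4

theorem good_congr {Z Z' : Type} (ψ : FreeGroup Z ≃* FreeGroup Z') (h : Good Z (Hierarchical Z)) :
    Good Z' (Hierarchical Z') := by
  intro N hN
  obtain ⟨m, hm⟩ := h (N.comap (MulAut.congr ψ).toMonoidHom) (comap_finiteIndex _ _ hN)
  refine ⟨m, fun φ hφ hφm => ?_⟩
  have h1 := hm _ (hierarchical_congr ψ.symm hφ) (congr_mem_cong ψ.symm hφm)
  have h2 : MulAut.congr ψ (MulAut.congr ψ.symm φ) ∈ N := h1
  have h3 : MulAut.congr ψ (MulAut.congr ψ.symm φ) = φ := by
    ext1 w
    change ψ (ψ.symm (φ (ψ (ψ.symm w)))) = φ w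
    rw [MulEquiv.apply_symm_apply, MulEquiv.apply_symm_apply]
  rwa [h3] at h2

theorem good_fin (n : ℕ) : Good (Fin n) (Hierarchical (Fin n)) := by
  induction n using Nat.strong_induction_on with
  | _ n ih =>
  rcases Nat.lt_or_ge n 3 with hn | hn
  · -- rank at most two
    interval_cases n
    · intro N hN
      obtain ⟨m, hm⟩ := good_zero (Fin 0) N hN
      exact ⟨m, fun φ _ h => hm φ trivial h⟩
    · intro N hN
      obtain ⟨m, hm⟩ := good_one (Fin 1) N hN
      exact ⟨m, fun φ _ h => hm φ trivial h⟩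
    · intro N hN
      obtain ⟨m, hm⟩ := csp_two N hN
      exact ⟨m, fun φ _ h => hm h⟩
  intro N hN
  have := hN
  let N₀ : Subgroup (MulAut (FreeGroup (Fin n))) := N.normalCore
  have hN₀ : N₀.FiniteIndex := inferInstance
  have hN₀n : N₀.Normal := inferInstance
  -- the classes
  let CS : (k : ℕ) → (l : ℕ) → MulAut (FreeGroup (Fin k ⊕ Fin l)) → Prop := fun k l φ =>
    ∃ (α : MulAut (FreeGroup (Fin k))) (β : MulAut (FreeGroup (Fin l)))
      (g : FreeGroup (Fin k ⊕ Fin l)), Hierarchical (Fin k) α ∧ Hierarchical (Fin l) β ∧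
      (∀ w, φ (FreeGroup.map Sum.inl w) = g * FreeGroup.map Sum.inl (α w) * g⁻¹) ∧
      (∀ w, φ (FreeGroup.map Sum.inr w) = g * FreeGroup.map Sum.inr (β w) * g⁻¹)
  have hCS : ∀ k l : ℕ, 0 < k → 0 < l → k + l = n → Good (Fin k ⊕ Fin l) (CS k l) := by
    intro k l hk hl hkl
    have : Nonempty (Fin k) := ⟨⟨0, hk⟩⟩
    have : Nonempty (Fin l) := ⟨⟨0, hl⟩⟩
    exact good_split _ _ (ih k (by omega)) (ih l (by omega))
  have hCS' : ∀ k l : ℕ, ∃ m : ℕ, 0 < k → 0 < l → k + l = n →
      ∀ θ : FreeGroup (Fin k ⊕ Fin l) ≃* FreeGroup (Fin n), ∀ φ : MulAut (FreeGroup (Fin n)),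
      CS k l (MulAut.congr θ.symm φ) → φ ∈ cong (FreeGroup (Fin n)) m → φ ∈ N₀ := by
    intro k l
    by_cases h : 0 < k ∧ 0 < l ∧ k + l = n
    · obtain ⟨m, hm⟩ := uniform (CS k l) (hCS k l h.1 h.2.1 h.2.2) N₀ hN₀ hN₀n
      exact ⟨m, fun _ _ _ => hm⟩
    · exact ⟨0, fun h1 h2 h3 => absurd ⟨h1, h2, h3⟩ h⟩
  choose M hM using hCS'
  let CL : MulAut (FreeGroup (Option (Fin (n - 1)))) → Prop := fun φ =>
    ∃ (α : MulAut (FreeGroup (Fin (n - 1)))) (g : FreeGroup (Option (Fin (n - 1))))
      (u v : FreeGroup (Fin (n - 1))), Hierarchical (Fin (n - 1)) α ∧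
      (∀ w, φ (FreeGroup.map some w) = g * FreeGroup.map some (α w) * g⁻¹) ∧
      (φ (FreeGroup.of none) =
        g * (FreeGroup.map some u * FreeGroup.of none * FreeGroup.map some v) * g⁻¹ ∨
      φ (FreeGroup.of none) =
        g * (FreeGroup.map some u * (FreeGroup.of none)⁻¹ * FreeGroup.map some v) * g⁻¹)
  have hCL : Good (Option (Fin (n - 1))) CL := by
    have : Nonempty (Fin (n - 1)) := ⟨⟨0, by omega⟩⟩
    exact good_loop _ (ih (n - 1) (by omega)) (fun a α hα => hierarchical_conj a hα)
  obtain ⟨mL, hmL⟩ := uniform CL hCL N₀ hN₀ hN₀n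
  let CP : MulAut (FreeGroup (Option (Fin (n - 1)))) → Prop := fun φ =>
    ∃ (d : FreeGroup (Fin (n - 1)))
      (p : FreeGroup (Fin (n - 1)) →* MulAut (FreeGroup (Option (Fin (n - 1)))))
      (c : FreeGroup (Fin (n - 1))) (β : MulAut (FreeGroup (Fin (n - 1))))
      (h : FreeGroup (Option (Fin (n - 1)))),
      IsPush d p ∧ Hierarchical (Fin (n - 1)) β ∧ β d = d ∧ φ = MulAut.conj h * p c * extO β
  have hCP : Good (Option (Fin (n - 1))) CP :=
    good_push _ (ih (n - 1) (by omega)) (fun a α hα => hierarchical_conj a hα)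
  obtain ⟨mP, hmP⟩ := uniform CP hCP N₀ hN₀ hN₀n
  obtain ⟨mD, hmD⟩ := good_downs Hierarchical (fun ψ _ h => hierarchical_congr ψ h)
    (fun a h => hierarchical_conj a h) n hn ih N₀ hN₀ hN₀n
  refine ⟨max (max mD mP)
    (max mL ((Finset.range n ×ˢ Finset.range n).sup fun p => M p.1 p.2)), ?_⟩
  intro φ hφ hφm
  refine N.normalCore_le ?_
  cases hφ with
  | small hZ =>
    exfalso
    rw [Nat.card_eq_fintype_card, Fintype.card_fin] at hZ
    omega
  | @split X Y _ hX hY θ α β _ g hα hβ hφX hφY =>
    have : Finite (X ⊕ Y) := Finite.of_equiv _ (Equiv.ofFreeGroupEquiv θ).symm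
    have : Finite X := Finite.sum_left Y
    have : Finite Y := Finite.sum_right X
    have hcard : Nat.card X + Nat.card Y = n := by
      have h1 := Nat.card_congr (Equiv.ofFreeGroupEquiv θ)
      rw [Nat.card_sum, Nat.card_eq_fintype_card (α := Fin n), Fintype.card_fin] at h1
      exact h1
    have hXpos : 0 < Nat.card X := Nat.card_pos
    have hYpos : 0 < Nat.card Y := Nat.card_pos
    let eX : X ≃ Fin (Nat.card X) := Finite.equivFin X
    let eY : Y ≃ Fin (Nat.card Y) := Finite.equivFin Y
    let θ' : FreeGroup (Fin (Nat.card X) ⊕ Fin (Nat.card Y)) ≃* FreeGroup (Fin n) :=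
      (FreeGroup.freeGroupCongr (Equiv.sumCongr eX eY)).symm.trans θ
    refine hM (Nat.card X) (Nat.card Y) hXpos hYpos hcard θ' φ ?_ ?_
    · refine ⟨MulAut.congr (FreeGroup.freeGroupCongr eX) α,
        MulAut.congr (FreeGroup.freeGroupCongr eY) β, θ'.symm g,
        hierarchical_congr _ hα, hierarchical_congr _ hβ, ?_, ?_⟩
      · intro w
        have h1 : ∀ w : FreeGroup (Fin (Nat.card X)), θ' (FreeGroup.map Sum.inl w) =
            θ (FreeGroup.map Sum.inl (FreeGroup.map eX.symm w)) := by
          intro w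
          change θ (FreeGroup.map (Equiv.sumCongr eX eY).symm (FreeGroup.map Sum.inl w)) = _
          rw [FreeGroup.map.comp, FreeGroup.map.comp]
          rfl
        change θ'.symm (φ (θ' (FreeGroup.map Sum.inl w))) = _
        rw [h1, hφX, map_mul, map_mul, map_inv]
        congr 2
        rw [MulEquiv.symm_apply_eq, h1]
        congr 2
        change _ = FreeGroup.map eX.symm (FreeGroup.map eX (α (FreeGroup.map eX.symm w)))
        rw [FreeGroup.map.comp]
        simp
      · intro w
        have h1 : ∀ w : FreeGroup (Fin (Nat.card Y)), θ' (FreeGroup.map Sum.inr w) =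
            θ (FreeGroup.map Sum.inr (FreeGroup.map eY.symm w)) := by
          intro w
          change θ (FreeGroup.map (Equiv.sumCongr eX eY).symm (FreeGroup.map Sum.inr w)) = _
          rw [FreeGroup.map.comp, FreeGroup.map.comp]
          rfl
        change θ'.symm (φ (θ' (FreeGroup.map Sum.inr w))) = _
        rw [h1, hφY, map_mul, map_mul, map_inv]
        congr 2
        rw [MulEquiv.symm_apply_eq, h1]
        congr 2
        change _ = FreeGroup.map eY.symm (FreeGroup.map eY (β (FreeGroup.map eY.symm w)))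
        rw [FreeGroup.map.comp]
        simp
    · refine cong_anti ?_ hφm
      refine le_trans (le_trans ?_ (le_max_right _ _)) (le_max_right _ _)
      exact Finset.le_sup (f := fun p : ℕ × ℕ => M p.1 p.2) (b := (Nat.card X, Nat.card Y))
        (by simp only [Finset.mem_product, Finset.mem_range]; omega)
  | @loop X _ θ α _ g u v hα hφX hφt =>
    have : Finite (Option X) := Finite.of_equiv _ (Equiv.ofFreeGroupEquiv θ).symm
    have : Finite X := Finite.of_injective some (Option.some_injective X)
    have hcard : Nat.card X = n - 1 := by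
      have h1 := Nat.card_congr (Equiv.ofFreeGroupEquiv θ)
      rw [Finite.card_option, Nat.card_eq_fintype_card (α := Fin n), Fintype.card_fin] at h1
      omega
    let eX : X ≃ Fin (n - 1) := Finite.equivFinOfCardEq hcard
    let θ' : FreeGroup (Option (Fin (n - 1))) ≃* FreeGroup (Fin n) :=
      (FreeGroup.freeGroupCongr (Equiv.optionCongr eX)).symm.trans θ
    have h1 : ∀ w : FreeGroup (Fin (n - 1)), θ' (FreeGroup.map some w) =
        θ (FreeGroup.map some (FreeGroup.map eX.symm w)) := by
      intro w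
      change θ (FreeGroup.map (Equiv.optionCongr eX).symm (FreeGroup.map some w)) = _
      rw [FreeGroup.map.comp, FreeGroup.map.comp]
      rfl
    have h2 : θ' (FreeGroup.of none) = θ (FreeGroup.of none) := rfl
    have h3 : ∀ w : FreeGroup X, θ (FreeGroup.map some w) =
        θ' (FreeGroup.map some (FreeGroup.map eX w)) := by
      intro w
      have h4 : FreeGroup.map eX.symm (FreeGroup.map eX w) = w := by
        rw [FreeGroup.map.comp]; simp
      rw [h1, h4]
    refine hmL θ' φ ?_ (cong_anti ((le_max_left _ _).trans (le_max_right _ _)) hφm)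
    refine ⟨MulAut.congr (FreeGroup.freeGroupCongr eX) α, θ'.symm g,
      FreeGroup.map eX u, FreeGroup.map eX v, hierarchical_congr _ hα, ?_, ?_⟩
    · intro w
      change θ'.symm (φ (θ' (FreeGroup.map some w))) = _
      rw [h1, hφX, map_mul, map_mul, map_inv]
      congr 2
      rw [MulEquiv.symm_apply_eq, h1]
      congr 2
      change _ = FreeGroup.map eX.symm (FreeGroup.map eX (α (FreeGroup.map eX.symm w)))
      rw [FreeGroup.map.comp]
      simp
    · rcases hφt with hφt | hφt
      · left
        change θ'.symm (φ (θ' (FreeGroup.of none))) = _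
        rw [h2, hφt, map_mul, map_mul, map_inv]
        congr 2
        rw [MulEquiv.symm_apply_eq, map_mul θ', map_mul θ', ← h3, ← h3, h2, map_mul, map_mul]
      · right
        change θ'.symm (φ (θ' (FreeGroup.of none))) = _
        rw [h2, hφt, map_mul, map_mul, map_inv]
        congr 2
        rw [MulEquiv.symm_apply_eq, map_mul θ', map_mul θ', ← h3, ← h3, map_inv, h2, map_mul,
          map_mul, map_inv]
  | @down X _ hX E hE hE1 θ α _ g hα hinv hφ =>
    exact hmD X hX E hE hE1 θ α hinv g φ hα hφ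
      (cong_anti ((le_max_left _ _).trans (le_max_left _ _)) hφm)
  | @push X _ θ d p hp c β _ g hβ hd hφ =>
    have : Finite (Option X) := Finite.of_equiv _ (Equiv.ofFreeGroupEquiv θ).symm
    have : Finite X := Finite.of_injective some (Option.some_injective X)
    have hcard : Nat.card X = n - 1 := by
      have h1 := Nat.card_congr (Equiv.ofFreeGroupEquiv θ)
      rw [Finite.card_option, Nat.card_eq_fintype_card (α := Fin n), Fintype.card_fin] at h1
      omega
    let eX : X ≃ Fin (n - 1) := Finite.equivFinOfCardEq hcard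
    refine hmP ((oc eX).symm.trans θ) φ ?_
      (cong_anti ((le_max_right _ _).trans (le_max_left _ _)) hφm)
    refine ⟨FreeGroup.freeGroupCongr eX d, pushT eX p, FreeGroup.freeGroupCongr eX c,
      MulAut.congr (FreeGroup.freeGroupCongr eX) β, oc eX (θ.symm g), isPush_pushT eX hp,
      hierarchical_congr _ hβ, ?_, ?_⟩
    · rw [congr_apply, hd]
    · rw [pushT_apply, ← congr_extO, ← congr_conj, ← map_mul, ← map_mul]
      ext1 w
      obtain ⟨v, rfl⟩ := (oc eX).surjective w
      rw [congr_apply]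
      change oc eX (θ.symm (φ (θ ((oc eX).symm (oc eX v))))) = _
      have h1 : ∀ x : FreeGroup (Option X), θ.symm (g * θ x * g⁻¹) =
          θ.symm g * x * (θ.symm g)⁻¹ := by
        intro x
        rw [map_mul, map_mul, map_inv, MulEquiv.symm_apply_apply]
      rw [MulEquiv.symm_apply_apply, hφ, h1, MulAut.mul_apply, MulAut.mul_apply,
        MulAut.conj_apply]

/-- **Main theorem.** For every subgroup `N` of finite index in `Aut F_n` containing the inner
automorphisms there is a characteristic subgroup `K` of finite index in `F_n` such that `N` contains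
every automorphism of `F_n` that acts on `F_n / K` as an inner automorphism and can be decomposed,
along a hierarchy of invariant one-edge free splittings, into automorphisms of free groups of rank
at most two. -/
theorem result (n : ℕ) (N : Subgroup (MulAut (FreeGroup (Fin n)))) (hN : N.FiniteIndex)
    (hinn : ∀ g : FreeGroup (Fin n), MulAut.conj g ∈ N) :
    ∃ K : Subgroup (FreeGroup (Fin n)), K.Characteristic ∧ K.FiniteIndex ∧
      ∀ φ : MulAut (FreeGroup (Fin n)), Hierarchical (Fin n) φ → φ ∈ congr K → φ ∈ N := by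
  obtain ⟨m, hm⟩ := good_fin n N hN
  refine ⟨L (FreeGroup (Fin n)) m, inferInstance, inferInstance, ?_⟩
  rintro φ hφ ⟨g, hg⟩
  have h1 : MulAut.conj g⁻¹ * φ ∈ N := by
    refine hm _ (hierarchical_conj g⁻¹ hφ) ?_
    rw [mem_cong]
    intro x
    rw [MulAut.mul_apply, MulAut.conj_apply]
    have h2 := (L_normal m).conj_mem _ (hg x) g⁻¹
    have h3 : g⁻¹ * (φ x * (g * x * g⁻¹)⁻¹) * g⁻¹⁻¹ = g⁻¹ * φ x * g⁻¹⁻¹ * x⁻¹ := by group
    rwa [h3] at h2
  have h2 : φ = MulAut.conj g * (MulAut.conj g⁻¹ * φ) := by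
    rw [← mul_assoc, ← map_mul, mul_inv_cancel, map_one, one_mul]
  rw [h2]
  exact mul_mem (hinn g) h1

end Pool.Agent.CSPHier.Plus
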