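import Mathlib
import Pool.Agent.CSPHier.Push

set_option autoImplicit false

/-! Pushing homomorphisms exist for the boundary words of all compact orientable surfaces: a disc
with one hole, a torus, and boundary connected sums. -/

namespace Pool.Agent.CSPHier

variable {X Y : Type}

/-- `f` is a push along `c`. -/
structure PushAt (d : FreeGroup X) (f : MulAut (FreeGroup (Option X))) (c : FreeGroup X) : Prop where
  fix : f (bd d) = bd d
  push : ∃ g : FreeGroup (Option X), f (FreeGroup.of none) = g * FreeGroup.of none * g⁻¹ ∧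
    retO g = c⁻¹
  proj : ∀ w, retO (f w) = retO w

theorem PushAt.mul {d : FreeGroup X} {f f' : MulAut (FreeGroup (Option X))} {c c' : FreeGroup X}
    (h : PushAt d f c) (h' : PushAt d f' c') : PushAt d (f * f') (c * c') := by
  refine ⟨?_, ?_, fun w => ?_⟩
  · rw [MulAut.mul_apply, h'.fix, h.fix]
  · obtain ⟨g, hg, hc⟩ := h.push
    obtain ⟨g', hg', hc'⟩ := h'.push
    refine ⟨f g' * g, ?_, ?_⟩
    · rw [MulAut.mul_apply, hg', map_mul, map_mul, map_inv, hg]
      group
    · rw [map_mul, h.proj, hc, hc', mul_inv_rev]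
  · rw [MulAut.mul_apply, h.proj, h'.proj]

theorem PushAt.inv {d : FreeGroup X} {f : MulAut (FreeGroup (Option X))} {c : FreeGroup X}
    (h : PushAt d f c) : PushAt d f⁻¹ c⁻¹ := by
  have hp : ∀ w, retO (f⁻¹ w) = retO w := by
    intro w
    rw [← h.proj, MulAut.apply_inv_self]
  refine ⟨?_, ?_, hp⟩
  · conv_lhs => rw [← h.fix]
    rw [MulAut.inv_apply_self]
  · obtain ⟨g, hg, hc⟩ := h.push
    refine ⟨(f⁻¹ g)⁻¹, ?_, ?_⟩
    · have h1 : FreeGroup.of none = f⁻¹ g * f⁻¹ (FreeGroup.of none) * (f⁻¹ g)⁻¹ := by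
        rw [← map_inv, ← map_mul, ← map_mul, ← hg, MulAut.inv_apply_self]
      conv_rhs => rw [h1]
      group
    · rw [map_inv, hp, hc]

theorem PushAt.one (d : FreeGroup X) : PushAt d 1 1 :=
  ⟨rfl, ⟨1, by simp, by simp⟩, fun _ => rfl⟩

theorem IsPush.at {d : FreeGroup X} {p : FreeGroup X →* MulAut (FreeGroup (Option X))}
    (h : IsPush d p) (c : FreeGroup X) : PushAt d (p c) c := ⟨h.fix c, h.push c, h.proj c⟩

theorem isPush_of_gen {d : FreeGroup X} {p : FreeGroup X →* MulAut (FreeGroup (Option X))}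
    (h : ∀ x, PushAt d (p (FreeGroup.of x)) (FreeGroup.of x))
    (hb : p d = (MulAut.conj (bd d))⁻¹ * extO (MulAut.conj d)) : IsPush d p := by
  have key : ∀ c, PushAt d (p c) c := by
    intro c
    induction c using FreeGroup.induction_on with
    | C1 => rw [map_one]; exact PushAt.one d
    | of x => exact h x
    | inv_of x ih => rw [map_inv]; exact ih.inv
    | mul a b ha hb => rw [map_mul]; exact ha.mul hb
  exact ⟨fun c => (key c).fix, fun c => (key c).push, fun c => (key c).proj, hb⟩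

theorem retO_none : retO (FreeGroup.of (none : Option X)) = 1 := by simp [retO]

theorem bdAut_some (d w : FreeGroup X) :
    ((MulAut.conj (bd d))⁻¹ * extO (MulAut.conj d)) (FreeGroup.map some w) =
      (FreeGroup.of none)⁻¹ * FreeGroup.map some w * FreeGroup.of none := by
  rw [← map_inv, MulAut.mul_apply, extO_some, MulAut.conj_apply, MulAut.conj_apply, map_mul,
    map_mul, map_inv, bd]
  group

theorem bdAut_none (d : FreeGroup X) :
    ((MulAut.conj (bd d))⁻¹ * extO (MulAut.conj d)) (FreeGroup.of none) =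
      (bd d)⁻¹ * FreeGroup.of none * bd d := by
  rw [← map_inv, MulAut.mul_apply, extO_none, MulAut.conj_apply]
  group

/-- **The annulus.** -/
theorem isPush_unit (X : Type) [Unique X] :
    ∃ p, IsPush (FreeGroup.of (default : X)) p := by
  have hc : ∀ a b : FreeGroup X, a * b = b * a := by
    have key : ∀ a : FreeGroup X, ∃ i : ℤ, a = FreeGroup.of default ^ i := by
      intro a
      induction a using FreeGroup.induction_on with
      | C1 => exact ⟨0, by simp⟩
      | of y => exact ⟨1, by rw [Subsingleton.elim y default, zpow_one]⟩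
      | inv_of y _ => exact ⟨-1, by rw [Subsingleton.elim y default, zpow_neg_one]⟩
      | mul a b ha hb =>
        obtain ⟨i, rfl⟩ := ha
        obtain ⟨j, rfl⟩ := hb
        exact ⟨i + j, by rw [zpow_add]⟩
    intro a b
    obtain ⟨i, rfl⟩ := key a
    obtain ⟨j, rfl⟩ := key b
    rw [← zpow_add, ← zpow_add, add_comm]
  set d : FreeGroup X := FreeGroup.of default with hd
  have hconj : MulAut.conj d = 1 := by
    ext1 w
    rw [MulAut.conj_apply, hc d w, mul_inv_cancel_right]
    rfl
  have hrb : retO (bd d) = d := by rw [bd, map_mul, retO_some, retO_none, mul_one]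
  refine ⟨FreeGroup.lift fun _ => (MulAut.conj (bd d))⁻¹, isPush_of_gen ?_ ?_⟩
  · intro x
    rw [FreeGroup.lift_apply_of, ← map_inv]
    refine ⟨?_, ⟨(bd d)⁻¹, ?_, ?_⟩, fun w => ?_⟩
    · rw [MulAut.conj_apply]
      group
    · rw [MulAut.conj_apply]
    · rw [map_inv, hrb, hd, Subsingleton.elim x default]
    · rw [MulAut.conj_apply, map_mul, map_mul, hc (retO (bd d)⁻¹) (retO w), mul_assoc, ← map_mul,
        mul_inv_cancel, map_one, mul_one]
  · rw [hconj, map_one, mul_one]
    conv_lhs => rw [hd]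
    rw [FreeGroup.lift_apply_of]

/-- **The disc.** -/
theorem isPush_empty (X : Type) [IsEmpty X] : IsPush (1 : FreeGroup X) 1 := by
  refine isPush_of_gen (fun x => isEmptyElim x) ?_
  rw [map_one, map_one, map_one, mul_one]
  symm
  rw [inv_eq_one]
  apply opt_aut_ext
  · intro w
    rw [Subsingleton.elim w 1, map_one, map_one]
    rfl
  · rw [MulAut.conj_apply, bd, map_one, one_mul, mul_inv_cancel_right]
    rfl

/-! ### The torus -/

/-- A homomorphism of groups into the automorphisms from a family of endomorphisms. -/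
def autOfHom {G F : Type} [Group G] [Group F] (Φ : G → F →* F) (h1 : Φ 1 = MonoidHom.id F)
    (hm : ∀ a b, Φ (a * b) = (Φ a).comp (Φ b)) : G →* MulAut F where
  toFun a :=
    { toFun := Φ a
      invFun := Φ a⁻¹
      left_inv := fun w => by
        rw [← MonoidHom.comp_apply, ← hm, inv_mul_cancel, h1]; rfl
      right_inv := fun w => by
        rw [← MonoidHom.comp_apply, ← hm, mul_inv_cancel, h1]; rfl
      map_mul' := map_mul _ }
  map_one' := by
    ext w
    change Φ 1 w = w
    rw [h1]; rfl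
  map_mul' := by
    intro a b
    ext w
    change Φ (a * b) w = Φ a (Φ b w)
    rw [hm]; rfl

theorem autOfHom_apply {G F : Type} [Group G] [Group F] (Φ : G → F →* F)
    (h1 : Φ 1 = MonoidHom.id F) (hm : ∀ a b, Φ (a * b) = (Φ a).comp (Φ b)) (a : G) (w : F) :
    autOfHom Φ h1 hm a w = Φ a w := rfl

section torus

/-- generators -/
abbrev tx : FreeGroup (Option Bool) := FreeGroup.of (some false)
abbrev ty : FreeGroup (Option Bool) := FreeGroup.of (some true)
abbrev tt : FreeGroup (Option Bool) := FreeGroup.of none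

/-- the automorphism with given images and inverse images -/
def aut3 (a b c a' b' c' : FreeGroup (Option Bool))
    (h : ∀ o, FreeGroup.lift (fun o : Option Bool => o.elim c fun s => if s then b else a)
      (FreeGroup.lift (fun o : Option Bool => o.elim c' fun s => if s then b' else a')
        (FreeGroup.of o)) = FreeGroup.of o)
    (h' : ∀ o, FreeGroup.lift (fun o : Option Bool => o.elim c' fun s => if s then b' else a')
      (FreeGroup.lift (fun o : Option Bool => o.elim c fun s => if s then b else a)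
        (FreeGroup.of o)) = FreeGroup.of o) : MulAut (FreeGroup (Option Bool)) :=
  MonoidHom.toMulEquiv
    (FreeGroup.lift (fun o : Option Bool => o.elim c fun s => if s then b else a))
    (FreeGroup.lift (fun o : Option Bool => o.elim c' fun s => if s then b' else a'))
    (FreeGroup.ext_hom _ _ h') (FreeGroup.ext_hom _ _ h)

theorem aut3_of (a b c a' b' c' : FreeGroup (Option Bool)) (h h') (o : Option Bool) :
    aut3 a b c a' b' c' h h' (FreeGroup.of o) = o.elim c fun s => if s then b else a := by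
  change FreeGroup.lift (fun o : Option Bool => o.elim c fun s => if s then b else a)
    (FreeGroup.of o) = _
  rw [FreeGroup.lift_apply_of]

theorem aut3_inv_of (a b c a' b' c' : FreeGroup (Option Bool)) (h h') (o : Option Bool) :
    (aut3 a b c a' b' c' h h')⁻¹ (FreeGroup.of o) = o.elim c' fun s => if s then b' else a' := by
  change FreeGroup.lift (fun o : Option Bool => o.elim c' fun s => if s then b' else a')
    (FreeGroup.of o) = _
  rw [FreeGroup.lift_apply_of]

/-- push along `y x⁻¹ y⁻¹` -/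
def phi1 : MulAut (FreeGroup (Option Bool)) :=
  aut3 tx (tt⁻¹ * ty) (tt⁻¹ * (ty * tx * ty⁻¹) * tt * (ty * tx * ty⁻¹)⁻¹ * tt)
    tx ((ty * tx * ty⁻¹)⁻¹ * tt * (ty * tx * ty⁻¹) * ty) ((ty * tx * ty⁻¹)⁻¹ * tt * (ty * tx * ty⁻¹))
    (by
      intro o
      rcases o with _ | (_ | _)
      all_goals simp [tx, ty, tt]
      all_goals group)
    (by
      intro o
      rcases o with _ | (_ | _)
      all_goals simp [tx, ty, tt]
      all_goals group)

/-- push along `y x y x⁻¹ y⁻¹` -/
def phi2 : MulAut (FreeGroup (Option Bool)) :=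
  aut3 (ty⁻¹ * tt⁻¹ * ty * tx) ty
    (tt⁻¹ * (ty * tx * ty⁻¹ * tx⁻¹ * ty⁻¹) * tt * (ty * tx * ty⁻¹ * tx⁻¹ * ty⁻¹)⁻¹ * tt)
    (ty⁻¹ * ((ty * tx * ty⁻¹ * tx⁻¹ * ty⁻¹)⁻¹ * tt * (ty * tx * ty⁻¹ * tx⁻¹ * ty⁻¹)) * ty * tx) ty
    ((ty * tx * ty⁻¹ * tx⁻¹ * ty⁻¹)⁻¹ * tt * (ty * tx * ty⁻¹ * tx⁻¹ * ty⁻¹))
    (by
      intro o
      rcases o with _ | (_ | _)
      all_goals simp [tx, ty, tt]
      all_goals group)
    (by
      intro o
      rcases o with _ | (_ | _)
      all_goals simp [tx, ty, tt]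
      all_goals group)

theorem phi1_x : phi1 tx = tx := aut3_of _ _ _ _ _ _ _ _ (some false)

theorem phi1_y : phi1 ty = tt⁻¹ * ty := aut3_of _ _ _ _ _ _ _ _ (some true)

theorem phi1_t : phi1 tt = tt⁻¹ * (ty * tx * ty⁻¹) * tt * (ty * tx * ty⁻¹)⁻¹ * tt :=
  aut3_of _ _ _ _ _ _ _ _ none

theorem phi2_x : phi2 tx = ty⁻¹ * tt⁻¹ * ty * tx := aut3_of _ _ _ _ _ _ _ _ (some false)

theorem phi2_y : phi2 ty = ty := aut3_of _ _ _ _ _ _ _ _ (some true)

theorem phi2_t : phi2 tt =
    tt⁻¹ * (ty * tx * ty⁻¹ * tx⁻¹ * ty⁻¹) * tt * (ty * tx * ty⁻¹ * tx⁻¹ * ty⁻¹)⁻¹ * tt :=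
  aut3_of _ _ _ _ _ _ _ _ none

theorem phi1_ix : phi1⁻¹ tx = tx := aut3_inv_of _ _ _ _ _ _ _ _ (some false)

theorem phi1_iy : phi1⁻¹ ty = (ty * tx * ty⁻¹)⁻¹ * tt * (ty * tx * ty⁻¹) * ty :=
  aut3_inv_of _ _ _ _ _ _ _ _ (some true)

theorem phi1_it : phi1⁻¹ tt = (ty * tx * ty⁻¹)⁻¹ * tt * (ty * tx * ty⁻¹) :=
  aut3_inv_of _ _ _ _ _ _ _ _ none

theorem phi2_ix : phi2⁻¹ tx = ty⁻¹ * ((ty * tx * ty⁻¹ * tx⁻¹ * ty⁻¹)⁻¹ * tt *
    (ty * tx * ty⁻¹ * tx⁻¹ * ty⁻¹)) * ty * tx := aut3_inv_of _ _ _ _ _ _ _ _ (some false)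

theorem phi2_iy : phi2⁻¹ ty = ty := aut3_inv_of _ _ _ _ _ _ _ _ (some true)

theorem phi2_it : phi2⁻¹ tt =
    (ty * tx * ty⁻¹ * tx⁻¹ * ty⁻¹)⁻¹ * tt * (ty * tx * ty⁻¹ * tx⁻¹ * ty⁻¹) :=
  aut3_inv_of _ _ _ _ _ _ _ _ none

/-- generators of the torus -/
abbrev ux : FreeGroup Bool := FreeGroup.of false
abbrev uy : FreeGroup Bool := FreeGroup.of true

/-- the commutator -/
def ud : FreeGroup Bool := ux * uy * ux⁻¹ * uy⁻¹

theorem bd_ud : bd ud = tx * ty * tx⁻¹ * ty⁻¹ * tt := by
  simp [bd, ud]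

theorem ret_x : retO tx = ux := by simp [retO]
theorem ret_y : retO ty = uy := by simp [retO]
theorem ret_t : retO tt = (1 : FreeGroup Bool) := by simp [retO]

theorem hom3_ext {G : Type} [Group G] {f g : FreeGroup (Option Bool) →* G} (hx : f tx = g tx)
    (hy : f ty = g ty) (ht : f tt = g tt) : f = g := by
  ext o
  rcases o with _ | (_ | _)
  · exact ht
  · exact hx
  · exact hy

theorem aut3_ext {f g : MulAut (FreeGroup (Option Bool))} (hx : f tx = g tx)
    (hy : f ty = g ty) (ht : f tt = g tt) : f = g := by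
  apply MulEquiv.toMonoidHom_injective
  exact hom3_ext hx hy ht

theorem phi1_at : PushAt ud phi1 (uy * ux⁻¹ * uy⁻¹) := by
  refine ⟨?_, ⟨tt⁻¹ * (ty * tx * ty⁻¹), ?_, ?_⟩, ?_⟩
  · rw [bd_ud]
    simp only [map_mul, map_inv, phi1_x, phi1_y, phi1_t]
    group
  · rw [phi1_t]
    group
  · simp only [map_mul, map_inv, ret_x, ret_y, ret_t]
    group
  · intro w
    refine DFunLike.congr_fun (f := (retO (X := Bool)).comp phi1.toMonoidHom) (g := retO)
      (hom3_ext ?_ ?_ ?_) w
    · change retO (phi1 tx) = _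
      rw [phi1_x]
    · change retO (phi1 ty) = _
      rw [phi1_y, map_mul, map_inv, ret_t, inv_one, one_mul]
    · change retO (phi1 tt) = _
      rw [phi1_t]
      simp only [map_mul, map_inv, ret_x, ret_y, ret_t]
      group

theorem phi2_at : PushAt ud phi2 (uy * ux * uy * ux⁻¹ * uy⁻¹) := by
  refine ⟨?_, ⟨tt⁻¹ * (ty * tx * ty⁻¹ * tx⁻¹ * ty⁻¹), ?_, ?_⟩, ?_⟩
  · rw [bd_ud]
    simp only [map_mul, map_inv, phi2_x, phi2_y, phi2_t]
    group
  · rw [phi2_t]
    group
  · simp only [map_mul, map_inv, ret_x, ret_y, ret_t]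
    group
  · intro w
    refine DFunLike.congr_fun (f := (retO (X := Bool)).comp phi2.toMonoidHom) (g := retO)
      (hom3_ext ?_ ?_ ?_) w
    · change retO (phi2 tx) = _
      rw [phi2_x]
      simp only [map_mul, map_inv, ret_x, ret_y, ret_t]
      group
    · change retO (phi2 ty) = _
      rw [phi2_y]
    · change retO (phi2 tt) = _
      rw [phi2_t]
      simp only [map_mul, map_inv, ret_x, ret_y, ret_t]
      group

theorem phi_comm : phi1 * phi2⁻¹ * phi1⁻¹ * phi2 =
    (MulAut.conj (bd ud))⁻¹ * extO (MulAut.conj ud) := by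
  have hx : tx = FreeGroup.map some ux := by simp
  have hy : ty = FreeGroup.map some uy := by simp
  apply aut3_ext
  · rw [MulAut.mul_apply, MulAut.mul_apply, MulAut.mul_apply]
    conv_rhs => rw [hx, bdAut_some, ← hx]
    rw [phi2_x]
    simp only [map_mul, map_inv, phi1_ix, phi1_iy, phi1_it]
    simp only [map_mul, map_inv, phi2_ix, phi2_iy, phi2_it]
    simp only [map_mul, map_inv, phi1_x, phi1_y, phi1_t]
    group
  · rw [MulAut.mul_apply, MulAut.mul_apply, MulAut.mul_apply]
    conv_rhs => rw [hy, bdAut_some, ← hy]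
    rw [phi2_y]
    simp only [map_mul, map_inv, phi1_ix, phi1_iy, phi1_it]
    simp only [map_mul, map_inv, phi2_ix, phi2_iy, phi2_it]
    simp only [map_mul, map_inv, phi1_x, phi1_y, phi1_t]
    group
  · rw [MulAut.mul_apply, MulAut.mul_apply, MulAut.mul_apply, bdAut_none, bd_ud]
    rw [phi2_t]
    simp only [map_mul, map_inv, phi1_ix, phi1_iy, phi1_it]
    simp only [map_mul, map_inv, phi2_ix, phi2_iy, phi2_it]
    simp only [map_mul, map_inv, phi1_x, phi1_y, phi1_t]
    group

/-- **The torus.** -/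
theorem isPush_torus : ∃ p, IsPush ud p := by
  refine ⟨FreeGroup.lift fun s => if s then phi1 * phi2 * phi1⁻¹ else
    phi1 * phi2⁻¹ * phi1⁻¹ * phi2 * phi1⁻¹, isPush_of_gen ?_ ?_⟩
  · rintro (_ | _)
    · rw [FreeGroup.lift_apply_of]
      have h := (((phi1_at.mul phi2_at.inv).mul phi1_at.inv).mul phi2_at).mul phi1_at.inv
      have e : uy * ux⁻¹ * uy⁻¹ * (uy * ux * uy * ux⁻¹ * uy⁻¹)⁻¹ * (uy * ux⁻¹ * uy⁻¹)⁻¹ *
          (uy * ux * uy * ux⁻¹ * uy⁻¹) * (uy * ux⁻¹ * uy⁻¹)⁻¹ = ux := by group
      rw [e] at h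
      exact h
    · rw [FreeGroup.lift_apply_of]
      have h := (phi1_at.mul phi2_at).mul phi1_at.inv
      have e : uy * ux⁻¹ * uy⁻¹ * (uy * ux * uy * ux⁻¹ * uy⁻¹) * (uy * ux⁻¹ * uy⁻¹)⁻¹ = uy := by
        group
      rw [e] at h
      exact h
  · rw [← phi_comm]
    conv_lhs => rw [ud]
    simp only [map_mul, map_inv, FreeGroup.lift_apply_of]
    simp only [if_true, Bool.false_eq_true, if_false]
    group

end torus

/-! ### Boundary connected sums -/

section sum

/-- the two old groups -/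
def i1 : FreeGroup X →* FreeGroup (Option (X ⊕ Y)) :=
  (FreeGroup.map some).comp (FreeGroup.map Sum.inl)

def i2 : FreeGroup Y →* FreeGroup (Option (X ⊕ Y)) :=
  (FreeGroup.map some).comp (FreeGroup.map Sum.inr)

/-- the stable letter -/
abbrev st : FreeGroup (Option (X ⊕ Y)) := FreeGroup.of none

theorem sum3_ext {G : Type} [Group G] {f g : FreeGroup (Option (X ⊕ Y)) →* G}
    (h1 : ∀ w : FreeGroup X, f (i1 w) = g (i1 w)) (h2 : ∀ w : FreeGroup Y, f (i2 w) = g (i2 w))
    (h3 : f st = g st) : f = g := by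
  ext o
  rcases o with _ | (x | y)
  · exact h3
  · simpa [i1] using h1 (FreeGroup.of x)
  · simpa [i2] using h2 (FreeGroup.of y)

/-- The embedding of the second group with the stable letter. -/
def j2 : FreeGroup (Option Y) →* FreeGroup (Option (X ⊕ Y)) :=
  FreeGroup.lift fun o => o.elim st fun y => i2 (FreeGroup.of y)

/-- The embedding of the first group with the conjugate of the stable letter by `e`. -/
def j1 (e : FreeGroup (Option (X ⊕ Y))) : FreeGroup (Option X) →* FreeGroup (Option (X ⊕ Y)) :=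
  FreeGroup.lift fun o => o.elim (e * st * e⁻¹) fun x => i1 (FreeGroup.of x)

theorem j2_some (w : FreeGroup Y) : j2 (X := X) (FreeGroup.map some w) = i2 w := by
  have h : (j2 (X := X) (Y := Y)).comp (FreeGroup.map some) = i2 := by
    ext y; simp [j2]
  exact DFunLike.congr_fun h w

theorem j2_none : j2 (X := X) (FreeGroup.of (none : Option Y)) = st := by simp [j2]

theorem j1_some (e : FreeGroup (Option (X ⊕ Y))) (w : FreeGroup X) :
    j1 e (FreeGroup.map some w) = i1 w := by
  have h : (j1 e).comp (FreeGroup.map some) = i1 := by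
    ext y; simp [j1]
  exact DFunLike.congr_fun h w

theorem j1_none (e : FreeGroup (Option (X ⊕ Y))) :
    j1 e (FreeGroup.of (none : Option X)) = e * st * e⁻¹ := by simp [j1]

/-- extension of an endomorphism from the second group with the stable letter -/
def QH (f : FreeGroup (Option Y) →* FreeGroup (Option Y)) :
    FreeGroup (Option (X ⊕ Y)) →* FreeGroup (Option (X ⊕ Y)) :=
  FreeGroup.lift fun o => o.elim (j2 (f (FreeGroup.of none))) fun s => s.elim
    (fun x => i1 (FreeGroup.of x)) fun y => j2 (f (FreeGroup.of (some y)))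

theorem QH_i1 (f : FreeGroup (Option Y) →* FreeGroup (Option Y)) (w : FreeGroup X) :
    QH f (i1 w) = i1 w := by
  have h : (QH (X := X) f).comp i1 = i1 := by
    ext x; simp [QH, i1]
  exact DFunLike.congr_fun h w

theorem QH_j2 (f : FreeGroup (Option Y) →* FreeGroup (Option Y)) (w : FreeGroup (Option Y)) :
    QH (X := X) f (j2 w) = j2 (f w) := by
  have h : (QH (X := X) f).comp j2 = j2.comp f := by
    ext o
    rcases o with _ | y
    · rw [MonoidHom.comp_apply, j2_none]; simp [QH]
    · have : j2 (X := X) (FreeGroup.of (some y)) = FreeGroup.of (some (Sum.inr y)) := by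
        simp [j2, i2]
      rw [MonoidHom.comp_apply, this]
      simp [QH]
  exact DFunLike.congr_fun h w

/-- extension of an endomorphism from the first group with the conjugate of the stable letter by
`i2 e` -/
def PH (e : FreeGroup Y) (f : FreeGroup (Option X) →* FreeGroup (Option X)) :
    FreeGroup (Option (X ⊕ Y)) →* FreeGroup (Option (X ⊕ Y)) :=
  FreeGroup.lift fun o => o.elim ((i2 e)⁻¹ * j1 (i2 e) (f (FreeGroup.of none)) * i2 e)
    fun s => s.elim (fun x => j1 (i2 e) (f (FreeGroup.of (some x)))) fun y => i2 (FreeGroup.of y)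

theorem PH_i2 (e : FreeGroup Y) (f : FreeGroup (Option X) →* FreeGroup (Option X))
    (w : FreeGroup Y) : PH e f (i2 w) = i2 w := by
  have h : (PH e f).comp i2 = i2 := by
    ext x; simp [PH, i2]
  exact DFunLike.congr_fun h w

theorem PH_st (e : FreeGroup Y) (f : FreeGroup (Option X) →* FreeGroup (Option X)) :
    PH e f st = (i2 e)⁻¹ * j1 (i2 e) (f (FreeGroup.of none)) * i2 e := by
  simp [PH, st]

theorem PH_j1 (e : FreeGroup Y) (f : FreeGroup (Option X) →* FreeGroup (Option X))
    (w : FreeGroup (Option X)) : PH e f (j1 (i2 e) w) = j1 (i2 e) (f w) := by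
  have h : (PH e f).comp (j1 (i2 e)) = (j1 (i2 e)).comp f := by
    ext o
    rcases o with _ | y
    · rw [MonoidHom.comp_apply, j1_none, map_mul, map_mul, map_inv, PH_i2, PH_st,
        MonoidHom.comp_apply]
      group
    · have : j1 (i2 e) (FreeGroup.of (some y)) =
          (FreeGroup.of (some (Sum.inl y)) : FreeGroup (Option (X ⊕ Y))) := by
        simp [j1, i1]
      rw [MonoidHom.comp_apply, this]
      simp [PH]
  exact DFunLike.congr_fun h w

theorem QH_i2 (f : FreeGroup (Option Y) →* FreeGroup (Option Y)) (w : FreeGroup Y) :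
    QH (X := X) f (i2 w) = j2 (f (FreeGroup.map some w)) := by
  rw [← j2_some, QH_j2]

theorem QH_st (f : FreeGroup (Option Y) →* FreeGroup (Option Y)) :
    QH (X := X) f st = j2 (f (FreeGroup.of none)) := by
  rw [← j2_none, QH_j2]

theorem PH_i1 (e : FreeGroup Y) (f : FreeGroup (Option X) →* FreeGroup (Option X))
    (w : FreeGroup X) : PH e f (i1 w) = j1 (i2 e) (f (FreeGroup.map some w)) := by
  rw [← j1_some (i2 e), PH_j1]

/-- the extension homomorphisms -/
def QA : MulAut (FreeGroup (Option Y)) →* MulAut (FreeGroup (Option (X ⊕ Y))) :=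
  autOfHom (fun f => QH f.toMonoidHom)
    (by
      apply sum3_ext
      · intro w; rw [QH_i1]; rfl
      · intro w; rw [QH_i2]; exact j2_some w
      · rw [QH_st]; exact j2_none)
    (by
      intro a b
      apply sum3_ext
      · intro w; rw [QH_i1, MonoidHom.comp_apply, QH_i1, QH_i1]
      · intro w; rw [QH_i2, MonoidHom.comp_apply, QH_i2, QH_j2]; rfl
      · rw [QH_st, MonoidHom.comp_apply, QH_st, QH_j2]; rfl)

def PA (e : FreeGroup Y) : MulAut (FreeGroup (Option X)) →* MulAut (FreeGroup (Option (X ⊕ Y))) :=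
  autOfHom (fun f => PH e f.toMonoidHom)
    (by
      apply sum3_ext
      · intro w; rw [PH_i1]; exact j1_some _ w
      · intro w; rw [PH_i2]; rfl
      · rw [PH_st]
        change (i2 e)⁻¹ * j1 (i2 e) (FreeGroup.of none) * i2 e = st
        rw [j1_none]; group)
    (by
      intro a b
      apply sum3_ext
      · intro w; rw [PH_i1, MonoidHom.comp_apply, PH_i1, PH_j1]; rfl
      · intro w; rw [PH_i2, MonoidHom.comp_apply, PH_i2, PH_i2]
      · rw [PH_st, MonoidHom.comp_apply, PH_st, map_mul, map_mul, map_inv, PH_i2, PH_j1]; rfl)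

theorem QA_i1 (f : MulAut (FreeGroup (Option Y))) (w : FreeGroup X) : QA f (i1 w) = i1 w :=
  QH_i1 _ _

theorem QA_j2 (f : MulAut (FreeGroup (Option Y))) (w : FreeGroup (Option Y)) :
    QA (X := X) f (j2 w) = j2 (f w) := QH_j2 _ _

theorem PA_i2 (e : FreeGroup Y) (f : MulAut (FreeGroup (Option X))) (w : FreeGroup Y) :
    PA e f (i2 w) = i2 w := PH_i2 _ _ _

theorem PA_j1 (e : FreeGroup Y) (f : MulAut (FreeGroup (Option X))) (w : FreeGroup (Option X)) :
    PA e f (j1 (i2 e) w) = j1 (i2 e) (f w) := PH_j1 _ _ _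

theorem PA_st (e : FreeGroup Y) (f : MulAut (FreeGroup (Option X))) :
    PA e f st = (i2 e)⁻¹ * j1 (i2 e) (f (FreeGroup.of none)) * i2 e := PH_st _ _

theorem ret_i1 (w : FreeGroup X) :
    retO (i1 w : FreeGroup (Option (X ⊕ Y))) = FreeGroup.map Sum.inl w := retO_some _

theorem ret_i2 (w : FreeGroup Y) :
    retO (i2 w : FreeGroup (Option (X ⊕ Y))) = FreeGroup.map Sum.inr w := retO_some _

theorem ret_st : retO (st : FreeGroup (Option (X ⊕ Y))) = 1 := retO_none

theorem ret_j1 (e : FreeGroup (Option (X ⊕ Y))) (w : FreeGroup (Option X)) :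
    retO (j1 e w) = FreeGroup.map Sum.inl (retO w) := by
  have h : (retO.comp (j1 e)) = (FreeGroup.map Sum.inl).comp retO := by
    apply opt_hom_ext
    · intro w
      rw [MonoidHom.comp_apply, j1_some, ret_i1, MonoidHom.comp_apply, retO_some]
    · rw [MonoidHom.comp_apply, j1_none, map_mul, map_mul, ret_st, MonoidHom.comp_apply, retO_none,
        mul_one, ← map_mul, mul_inv_cancel, map_one, map_one]
  exact DFunLike.congr_fun h w

theorem ret_j2 (w : FreeGroup (Option Y)) :
    retO (j2 (X := X) w) = FreeGroup.map Sum.inr (retO w) := by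
  have h : (retO.comp (j2 (X := X) (Y := Y))) = (FreeGroup.map Sum.inr).comp retO := by
    apply opt_hom_ext
    · intro w
      rw [MonoidHom.comp_apply, j2_some, ret_i2, MonoidHom.comp_apply, retO_some]
    · rw [MonoidHom.comp_apply, j2_none, ret_st, MonoidHom.comp_apply, retO_none, map_one]
  exact DFunLike.congr_fun h w

theorem bd_sum (d : FreeGroup X) (e : FreeGroup Y) :
    bd (FreeGroup.map Sum.inl d * FreeGroup.map Sum.inr e) = i1 d * i2 e * st := by
  rw [bd, map_mul]; rfl

/-- a push in the second surface -/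
theorem PushAt.right {d : FreeGroup X} {e : FreeGroup Y} {f : MulAut (FreeGroup (Option Y))}
    {c : FreeGroup Y} (h : PushAt e f c) :
    PushAt (FreeGroup.map Sum.inl d * FreeGroup.map Sum.inr e) (QA f) (FreeGroup.map Sum.inr c) := by
  refine ⟨?_, ?_, fun w => ?_⟩
  · have h1 : (i1 d * i2 e * st : FreeGroup (Option (X ⊕ Y))) = i1 d * j2 (bd e) := by
      rw [bd, map_mul, j2_some, j2_none, mul_assoc]
    rw [bd_sum, h1, map_mul, QA_i1, QA_j2, h.fix]
  · obtain ⟨g, hg, hc⟩ := h.push
    refine ⟨j2 g, ?_, ?_⟩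
    · have h1 : (FreeGroup.of none : FreeGroup (Option (X ⊕ Y))) = j2 (FreeGroup.of none) :=
        j2_none.symm
      rw [h1, QA_j2, hg, map_mul, map_mul, map_inv]
    · rw [ret_j2, hc, map_inv]
  · refine DFunLike.congr_fun (f := retO.comp (QA (X := X) f).toMonoidHom) (g := retO)
      (sum3_ext ?_ ?_ ?_) w
    · intro w
      change retO (QA f (i1 w)) = _
      rw [QA_i1]
    · intro w
      change retO (QA f (i2 w)) = _
      rw [← j2_some, QA_j2, ret_j2, h.proj, ret_j2]
    · change retO (QA f st) = _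
      rw [← j2_none, QA_j2, ret_j2, h.proj, ret_j2]

/-- a push in the first surface -/
theorem PushAt.left {d : FreeGroup X} {e : FreeGroup Y} {f : MulAut (FreeGroup (Option X))}
    {c : FreeGroup X} (h : PushAt d f c) :
    PushAt (FreeGroup.map Sum.inl d * FreeGroup.map Sum.inr e) (PA e f)
      ((FreeGroup.map Sum.inr e)⁻¹ * FreeGroup.map Sum.inl c * FreeGroup.map Sum.inr e) := by
  refine ⟨?_, ?_, fun w => ?_⟩
  · have h1 : (i1 d * i2 e * st : FreeGroup (Option (X ⊕ Y))) = j1 (i2 e) (bd d) * i2 e := by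
      rw [bd, map_mul, j1_some, j1_none]
      group
    rw [bd_sum, h1, map_mul, PA_i2, PA_j1, h.fix]
  · obtain ⟨g, hg, hc⟩ := h.push
    refine ⟨(i2 e)⁻¹ * j1 (i2 e) g * i2 e, ?_, ?_⟩
    · rw [PA_st, hg, map_mul, map_mul, map_inv, j1_none]
      group
    · rw [map_mul, map_mul, map_inv, ret_i2, ret_j1, hc, map_inv]
      group
  · refine DFunLike.congr_fun (f := retO.comp (PA e f).toMonoidHom) (g := retO)
      (sum3_ext ?_ ?_ ?_) w
    · intro w
      change retO (PA e f (i1 w)) = _
      rw [← j1_some (i2 e), PA_j1, ret_j1, h.proj, ret_j1]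
    · intro w
      change retO (PA e f (i2 w)) = _
      rw [PA_i2]
    · change retO (PA e f st) = _
      rw [PA_st, map_mul, map_mul, map_inv, ret_i2, ret_j1, h.proj, retO_none, map_one, mul_one,
        inv_mul_cancel, ret_st]

/-- **Boundary connected sum.** -/
theorem IsPush.sum {d : FreeGroup X} {e : FreeGroup Y}
    {p : FreeGroup X →* MulAut (FreeGroup (Option X))}
    {q : FreeGroup Y →* MulAut (FreeGroup (Option Y))} (hp : IsPush d p) (hq : IsPush e q) :
    ∃ r, IsPush (FreeGroup.map Sum.inl d * FreeGroup.map Sum.inr e) r := by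
  let r : FreeGroup (X ⊕ Y) →* MulAut (FreeGroup (Option (X ⊕ Y))) :=
    FreeGroup.lift (Sum.elim (fun x => QA (q e) * PA e (p (FreeGroup.of x)) * (QA (q e))⁻¹)
      fun y => QA (q (FreeGroup.of y)))
  have hl : ∀ w, r (FreeGroup.map Sum.inl w) = QA (q e) * PA e (p w) * (QA (q e))⁻¹ := by
    have h : r.comp (FreeGroup.map Sum.inl) =
        (MulAut.conj (QA (q e))).toMonoidHom.comp ((PA e).comp p) := by
      ext1 x
      simp [r]
    intro w
    exact DFunLike.congr_fun h w
  have hr : ∀ w, r (FreeGroup.map Sum.inr w) = QA (q w) := by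
    have h : r.comp (FreeGroup.map Sum.inr) = QA.comp q := by
      ext1 x
      simp [r]
    intro w
    exact DFunLike.congr_fun h w
  refine ⟨r, isPush_of_gen ?_ ?_⟩
  · rintro (x | y)
    · have h1 := ((hq.at e).right (d := d)).mul (((hp.at (FreeGroup.of x)).left (e := e)).mul
        ((hq.at e).right (d := d)).inv)
      have h2 : (FreeGroup.of (Sum.inl x) : FreeGroup (X ⊕ Y)) =
          FreeGroup.map Sum.inl (FreeGroup.of x) := by simp
      rw [h2, hl]
      convert h1 using 1
      · group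
      · group
    · have h1 := (hq.at (FreeGroup.of y)).right (d := d)
      have h2 : (FreeGroup.of (Sum.inr y) : FreeGroup (X ⊕ Y)) =
          FreeGroup.map Sum.inr (FreeGroup.of y) := by simp
      rw [h2, hr]
      exact h1
  · rw [map_mul, hl, hr]
    have e1 : QA (q e) * PA e (p d) * (QA (q e))⁻¹ * QA (q e) = QA (q e) * PA e (p d) := by group
    rw [e1, hp.boundary, hq.boundary]
    set D := FreeGroup.map Sum.inl d * FreeGroup.map Sum.inr e with hD
    have rhs1 : ∀ w, ((MulAut.conj (bd D))⁻¹ * extO (MulAut.conj D)) (i1 w) =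
        (st⁻¹ * i1 w * st : FreeGroup (Option (X ⊕ Y))) := fun w => bdAut_some _ _
    have rhs2 : ∀ w, ((MulAut.conj (bd D))⁻¹ * extO (MulAut.conj D)) (i2 w) =
        (st⁻¹ * i2 w * st : FreeGroup (Option (X ⊕ Y))) := fun w => bdAut_some _ _
    have rhs3 : ((MulAut.conj (bd D))⁻¹ * extO (MulAut.conj D)) st =
        ((i1 d * i2 e * st)⁻¹ * st * (i1 d * i2 e * st) : FreeGroup (Option (X ⊕ Y))) := by
      rw [bdAut_none, hD, bd_sum]
    -- the second surface
    have f1 : ∀ w, QA ((MulAut.conj (bd e))⁻¹ * extO (MulAut.conj e)) (i1 w) =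
        (i1 w : FreeGroup (Option (X ⊕ Y))) := fun w => QA_i1 _ _
    have f2 : ∀ w, QA ((MulAut.conj (bd e))⁻¹ * extO (MulAut.conj e)) (i2 w) =
        (st⁻¹ * i2 w * st : FreeGroup (Option (X ⊕ Y))) := by
      intro w
      rw [← j2_some, QA_j2, bdAut_some, map_mul, map_mul, map_inv, j2_some, j2_none]
    have f3 : QA ((MulAut.conj (bd e))⁻¹ * extO (MulAut.conj e)) st =
        ((i2 e * st)⁻¹ * st * (i2 e * st) : FreeGroup (Option (X ⊕ Y))) := by
      rw [← j2_none, QA_j2, bdAut_none, bd, map_mul, map_mul, map_inv, map_mul, j2_some, j2_none]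
    -- the first surface
    have g1 : ∀ w, PA e ((MulAut.conj (bd d))⁻¹ * extO (MulAut.conj d)) (i1 w) =
        ((i2 e * st * (i2 e)⁻¹)⁻¹ * i1 w * (i2 e * st * (i2 e)⁻¹) :
          FreeGroup (Option (X ⊕ Y))) := by
      intro w
      rw [← j1_some (i2 e), PA_j1, bdAut_some, map_mul, map_mul, map_inv, j1_some, j1_none]
    have g2 : ∀ w, PA e ((MulAut.conj (bd d))⁻¹ * extO (MulAut.conj d)) (i2 w) =
        (i2 w : FreeGroup (Option (X ⊕ Y))) := fun w => PA_i2 _ _ _
    have g3 : PA e ((MulAut.conj (bd d))⁻¹ * extO (MulAut.conj d)) st =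
        ((i2 e)⁻¹ * ((i1 d * (i2 e * st * (i2 e)⁻¹))⁻¹ * (i2 e * st * (i2 e)⁻¹) *
          (i1 d * (i2 e * st * (i2 e)⁻¹))) * i2 e : FreeGroup (Option (X ⊕ Y))) := by
      rw [PA_st, bdAut_none, bd, map_mul, map_mul, map_inv, map_mul, j1_some, j1_none]
    generalize (MulAut.conj (bd D))⁻¹ * extO (MulAut.conj D) = R at rhs1 rhs2 rhs3 ⊢
    generalize QA ((MulAut.conj (bd e))⁻¹ * extO (MulAut.conj e)) = F at f1 f2 f3 ⊢
    generalize PA e ((MulAut.conj (bd d))⁻¹ * extO (MulAut.conj d)) = G at g1 g2 g3 ⊢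
    have k3 : F (i2 e * st * (i2 e)⁻¹) = st := by
      rw [map_mul, map_mul, map_inv, f2, f3]
      group
    apply MulEquiv.toMonoidHom_injective
    refine sum3_ext (fun w => ?_) (fun w => ?_) ?_
    · change F (G (i1 w)) = R (i1 w)
      rw [g1, map_mul F, map_mul F, map_inv F, k3, f1, rhs1]
    · change F (G (i2 w)) = R (i2 w)
      rw [g2, f2, rhs2]
    · change F (G st) = R st
      rw [g3, rhs3]
      simp only [map_mul, map_inv, f1, f2, f3]
      group

end sum

end Pool.Agent.CSPHier
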